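import Pool.Agent.H97G.Defs

/-!
# The theorem on algebraically defined graphs in arbitrary characteristic: statements

The statements of `H97F/Defs.lean` and `H97G/Defs.lean` without `[CharZero K]`, with the changes
which are necessary. (The names are the same as there; in the namespace `Pool.Agent.H97H` they
denote the new ones.)
-/

set_option autoImplicit false

namespace Pool.Agent.H97H

open MvPolynomial Pool.Agent.H97F Pool.Agent.H97G

/-- (R1) If a polynomial map from affine space to itself is injective outside the hypersurface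
`h = 0` then it is dominant, and up to the exponent `q` it has a regular inverse locally around each
point of the image of the set where `h ≠ 0`. -/
def LRegular : Prop :=
  ∀ (K : Type) [Field K] [IsAlgClosed K] (ι : Type) [Fintype ι]
    (A : ι → MvPolynomial ι K) (h : MvPolynomial ι K), h ≠ 0 →
    (∀ a b : ι → K, eval a h ≠ 0 → eval b h ≠ 0 → (∀ i, eval a (A i) = eval b (A i)) → a = b) →
    Function.Injective (bind₁ A : MvPolynomial ι K → MvPolynomial ι K) ∧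
    ∃ q : ℕ, 0 < q ∧ ∀ a₀ : ι → K, eval a₀ h ≠ 0 →
      ∃ r : MvPolynomial ι K, eval (fun i => eval a₀ (A i)) r ≠ 0 ∧
        (∀ u : MvPolynomial ι K, ∃ (g : MvPolynomial ι K) (k : ℕ),
          u ^ q * (bind₁ A r) ^ k = bind₁ A g) ∧
        (∀ y : ι → K, eval y r ≠ 0 → ∃ a, eval a h ≠ 0 ∧ ∀ i, eval a (A i) = y i)

/-- (R4) The end of the proof. -/
def LNumbers : Prop :=
  ∀ (N : ℕ) (P Q : Bool → ℕ), 3 ≤ N → (∀ σ, 0 < P σ) → (∀ σ, 0 < Q σ) →
    ∀ y : Bool → ℕ → ℕ, (∀ τ, y τ 0 = 0) → (∀ τ, y (ty τ (N - 2)) (N - 1) = y τ 1) →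
      (∀ τ i, 1 ≤ i → i ≤ N - 1 → 0 < y τ i) →
      (∀ τ i, 1 ≤ i → i ≤ N - 2 →
        P (ty τ (i - 1)) * y τ i = Q (ty τ (i - 1)) * (y τ (i - 1) + y τ (i + 1))) →
    N = 3 ∨ N = 4 ∨ N = 6

/-- (main theorem for flows) -/
def LFlows : Prop :=
  ∀ (K : Type) [Field K] [IsAlgClosed K] (N : ℕ) (S : Sys K N), 3 ≤ N → S.Tree →
    N = 3 ∨ N = 4 ∨ N = 6

/-- (short cycles) -/
def LClosed : Prop :=
  ∀ (K : Type) [Field K] [IsAlgClosed K] (k : ℕ), 2 ≤ k → k ≠ 2 → k ≠ 3 → k ≠ 5 →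
    ∀ A : ADG k K, ∃ j : ℕ, 2 ≤ j ∧ j ≤ k ∧
      (SimpleGraph.cycleGraph (2 * j)).IsContained A.graph

/-- (G1) the ranked graph of an algebraically defined graph -/
def LRk : Prop := ∀ (K : Type) [Field K] [IsAlgClosed K] (Ω : Type) [Field Ω]
  [Algebra K Ω] (k : ℕ) [DecidableEq (Vx k Ω)], Big K Ω → 1 ≤ k →
  ∀ A : ADG k K, ∃ R : RG (Vx k Ω), R.G = grph A Ω ∧ R.m = k ∧ (∀ v, R.col v = v.isRight) ∧
    ∀ S, R.rk S = trk K (cds S)

/-- (G2) purity -/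
def LPure : Prop := LCop → ∀ (K : Type) [Field K] [IsAlgClosed K] (Ω : Type) [Field Ω]
  [Algebra K Ω], Big K Ω → ∀ (ι : Type) [Fintype ι] (A : ι → MvPolynomial ι K)
  (h : MvPolynomial ι K),
  (∃ a : ι → Ω, AlgebraicIndependent K a ∧ AlgebraicIndependent K (fun i => aeval a (A i)) ∧
    ∀ b : ι → Ω, AlgebraicIndependent K b → (∀ i, aeval b (A i) = aeval a (A i)) → b = a) →
  (∃ a₁ a₂ : ι → K, eval a₁ h ≠ 0 ∧ eval a₂ h ≠ 0 ∧ (∀ i, eval a₁ (A i) = eval a₂ (A i)) ∧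
    a₁ ≠ a₂) →
  ∃ a : ι → Ω, aeval a h ≠ 0 ∧ trk K (Set.range a) + 1 = Fintype.card ι ∧
    trk K (Set.range fun i => aeval a (A i)) + 2 ≤ Fintype.card ι

/-- (G3) no edges of special vertices -/
def LZ : Prop := LCop → ∀ (K : Type) [Field K] [IsAlgClosed K] (Ω : Type) [Field Ω]
  [Algebra K Ω] (k : ℕ) [DecidableEq (Vx k Ω)], Big K Ω → 2 ≤ k → ∀ (A : ADG k K)
  (R : RG (Vx k Ω)), R.G = grph A Ω → R.m = k → (∀ v, R.col v = v.isRight) →
  (∀ S, R.rk S = trk K (cds S)) → (∀ j, 2 ≤ j → j ≤ k → ¬ AA R j) →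
  ∀ a b, R.G.Adj a b → R.rk {a} = k - 1 → R.rk {b} = k - 1 → R.rk {a, b} ≠ k

/-- (G4) polynomial decomposition -/
def LDec : Prop := ∀ (K : Type) [Field K] [IsAlgClosed K] (Ω : Type) [Field Ω]
  [Algebra K Ω] (Λ : Set (Polynomial K)) (x x' : Ω), Transcendental K x → x ≠ x' →
  (∀ l ∈ Λ, Polynomial.aeval x l = Polynomial.aeval x' l) → (∃ l ∈ Λ, 0 < l.natDegree) →
  ∃ h : Polynomial K, 2 ≤ h.natDegree ∧ ∀ l ∈ Λ, ∃ g : Polynomial K, l = g.comp h

/-- (G5) removal of the twins -/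
def LTwin : Prop := LDec → ∀ (K : Type) [Field K] [IsAlgClosed K] (Ω : Type) [Field Ω]
  [Algebra K Ω] (k : ℕ) [DecidableEq (Vx k Ω)], Big K Ω → 2 ≤ k → ∃ μ : ADG k K → ℕ,
  ∀ (A : ADG k K) (R : RG (Vx k Ω)), R.G = grph A Ω → R.m = k → (∀ v, R.col v = v.isRight) →
  (∀ S, R.rk S = trk K (cds S)) → (∀ j, 2 ≤ j → j ≤ k → ¬ AA R j) → (∃ p, UP R p 2) →
  ∃ A' : ADG k K, μ A' < μ A ∧ A'.graph.IsContained A.graph

/-- (G9) the conclusion for finite fields -/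
def LFin : Prop := ∀ (α β : Type) [Finite α] [Finite β] (H₁ : SimpleGraph α) (H₂ : SimpleGraph β)
  (k : ℕ), (∀ (K : Type) [Field K] [IsAlgClosed K] (A : ADG k K),
    H₁.IsContained A.graph ∨ H₂.IsContained A.graph) →
  ∀ D : ℕ, ∃ M : ℕ, 0 < M ∧ ∀ (K : Type) [Field K] [Finite K] (A : ADG k K),
    (∀ i, (A.f i).totalDegree ≤ D) → ∀ (L : Type) [Field L] [Finite L] [Algebra K L],
      M ∣ Module.finrank K L →
      H₁.IsContained (A.map (algebraMap K L)).graph ∨ H₂.IsContained (A.map (algebraMap K L)).graph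

/-- the main statement for algebraically closed fields -/
def LMain : Prop := ∀ (K : Type) [Field K] [IsAlgClosed K] (k : ℕ), 4 ≤ k → k ≠ 5 →
  ∀ A : ADG k K, HasCyc A.graph (2 * k) ∨ (Odd k ∧ ∀ ℓ, HasTheta A.graph (k - 1) ℓ)

end Pool.Agent.H97H
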