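import Pool.Agent.H97G.Asm
import Pool.Agent.H97H.Defs

/-!
# Assembly, in arbitrary characteristic
-/

set_option autoImplicit false

namespace Pool.Agent.H97H

open MvPolynomial Pool.Agent.H97F Pool.Agent.H97G

/-- all pieces -/
structure Pieces : Prop where
  cyc : LCyc
  two : LTwo
  a : LA
  b1 : LB1
  b2 : LB2
  b3 : LB3
  b4 : LB4
  c2 : LC2
  c3 : LC3
  big : LBig
  rk : LRk
  pure : LPure
  cop : LCop
  z : LZ
  twin : LTwin
  dec : LDec
  down : LDown
  chart : LChart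
  cw : LCW
  closed : LClosed

theorem hasCyc_down (P : Pieces) {K : Type} [Field K] [IsAlgClosed K] {Ω : Type} [Field Ω]
    [Algebra K Ω] {k : ℕ} (A : ADG k K) {N : ℕ} (hN : 3 ≤ N) (h : HasCyc (grph A Ω) N) :
    HasCyc A.graph N := by
  classical
  obtain ⟨c, h1, h2, h3⟩ := h
  obtain ⟨e, he1, he2⟩ := P.down K Ω k A ((Finset.range N).image c)
  refine hasCyc_image e hN h1 h2 h3 _ (fun i hi => ?_) he1 he2
  exact Finset.mem_coe.2 (Finset.mem_image.2 ⟨i, Finset.mem_range.2 hi, rfl⟩)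

theorem hasTheta_down (P : Pieces) {K : Type} [Field K] [IsAlgClosed K] {Ω : Type} [Field Ω]
    [Algebra K Ω] {k : ℕ} (A : ADG k K) {r ℓ : ℕ} (h : HasTheta (grph A Ω) r ℓ) :
    HasTheta A.graph r ℓ := by
  classical
  obtain ⟨x, y, p, hxy, h1, h2, h3⟩ := h
  obtain ⟨e, he1, he2⟩ := P.down K Ω k A
    ({x, y} ∪ ((Finset.range ℓ) ×ˢ (Finset.range (r + 1))).image fun t => p t.1 t.2)
  refine hasTheta_image e hxy h1 h2 h3 _ ?_ ?_ ?_ he1 he2
  · simp
  · simp
  · intro i a hi ha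
    refine Finset.mem_coe.2 (Finset.mem_union_right _ (Finset.mem_image.2 ⟨(i, a), ?_, rfl⟩))
    simp only [Finset.mem_product, Finset.mem_range]
    omega

section main

variable {k : ℕ} {K : Type} [Field K] [IsAlgClosed K] {Ω : Type} [Field Ω]
  [Algebra K Ω] [DecidableEq (Vx k Ω)]

/-- the ranked graph of `A` -/
structure RGof (A : ADG k K) (R : RG (Vx k Ω)) : Prop where
  graph : R.G = grph A Ω
  m : R.m = k
  col : ∀ v, R.col v = v.isRight
  rk : ∀ S, R.rk S = trk K (cds S)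

omit [IsAlgClosed K] in
theorem bip_graph (A : ADG k K) (v w : Vx k K) (h : A.graph.Adj v w) :
    w.isRight = !v.isRight := by
  rcases v with p | l <;> rcases w with p' | l'
  · exact h.elim
  · rfl
  · rfl
  · exact h.elim

theorem no_short (P : Pieces) (hbig : Big K Ω) (hk : 2 ≤ k) (A : ADG k K) (R : RG (Vx k Ω))
    (hR : RGof A R) (hA : ∀ j, 2 ≤ j → j ≤ k → ¬ AA R j)
    (hU : ∀ j, 2 ≤ j → j ≤ k → ∀ p, ¬ UP R p j)
    (hC : ¬ HasCyc R.G (2 * k)) (j : ℕ) (hj : 2 ≤ j) (hjk : j ≤ k) :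
    ¬ HasCyc A.graph (2 * j) := by
  intro hcyc
  have hinf : Infinite K := IsAlgClosed.instInfinite
  obtain ⟨B, h, hB⟩ := P.chart K k hk A
  obtain ⟨p, q, hp, hq, hcol, h0, hend, h1, hnp, hnq⟩ := P.cw (Vx k K) A.graph
    (fun v => v.isRight) k j (bip_graph A) (fun v => by
      rw [← map_id_graph A]
      exact Nb.infinite_nbrs A (by omega) v) hj hjk hcyc
  obtain ⟨PK, hPK, hPK2⟩ := hB K
  obtain ⟨a₁, ha₁⟩ := hPK2 p (by rw [map_id_graph]; exact hp) hcol
  obtain ⟨a₂, ha₂⟩ := hPK2 q (by rw [map_id_graph]; exact hq) (by rw [← h0]; exact hcol)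
  obtain ⟨PO, hPO, -⟩ := hB Ω
  have hrk : ∀ a : (Fin k ⊕ Fin k) → Ω, R.rk (vs (PO a) k) = trk K (Set.range a) := by
    intro a
    obtain ⟨g1, g2, g3, g4, g5, g6, g7⟩ := hPO a
    rw [hR.rk]
    refine Trk.trk_congr_cl (cds_finite _) (Set.finite_range _) ?_ ?_
    · rintro x ⟨v, hv, i, rfl⟩
      obtain ⟨j, hj, rfl⟩ := mem_vs.1 hv
      exact Trk.adjoin_cl (g7 j hj i)
    · rintro x ⟨i, rfl⟩
      apply Trk.subset_cl
      rcases i with i | i
      · refine ⟨PO a 0, mem_vs_of (Nat.zero_le _), i, ?_⟩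
        rw [g2]
        rfl
      · refine ⟨PO a (i + 1), mem_vs_of (by have := i.isLt; omega), ⟨0, by omega⟩, ?_⟩
        exact (g6 i).symm
  have hrk2 : ∀ a : (Fin k ⊕ Fin k) → Ω, R.rk {PO a 0, PO a k} =
      trk K (Set.range fun i => aeval a (B i)) := by
    intro a
    obtain ⟨g1, g2, g3, g4, g5, g6, g7⟩ := hPO a
    rw [hR.rk]
    congr 1
    ext x
    constructor
    · rintro ⟨v, hv, i, rfl⟩
      simp only [Finset.mem_insert, Finset.mem_singleton] at hv
      rcases hv with rfl | rfl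
      · refine ⟨Sum.inl i, ?_⟩
        simp only
        rw [g3, g2]
        rfl
      · exact ⟨Sum.inr i, g4 i⟩
    · rintro ⟨i, rfl⟩
      rcases i with i | i
      · refine ⟨PO a 0, by simp, i, ?_⟩
        simp only
        rw [g3, g2]
        rfl
      · exact ⟨PO a k, by simp, i, g4 i⟩
  have hcard : Fintype.card (Fin k ⊕ Fin k) = k + k := by simp
  have hwk : ∀ a, Wk R.G (PO a) k := fun a => by rw [hR.graph]; exact (hPO a).1
  have hgen : ∀ a : (Fin k ⊕ Fin k) → Ω, AlgebraicIndependent K a → Gen R (PO a) k := by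
    intro a ha
    refine ⟨hwk a, ?_⟩
    rw [hrk, Trk.trk_range_of_indep ha, hcard, hR.m]
  -- a generic point
  obtain ⟨t, ht⟩ := hbig.inf
  obtain ⟨a, ha⟩ : ∃ a : (Fin k ⊕ Fin k) → Ω, AlgebraicIndependent K a := by
    refine ⟨fun i => t (Sum.elim (fun i : Fin k => 2 * (i : ℕ)) (fun i : Fin k => 2 * (i : ℕ) + 1) i),
      ht.comp _ ?_⟩
    intro i j hij
    rcases i with i | i <;> rcases j with j | j
    · simp only [Sum.elim_inl] at hij
      congr 1; ext; omega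
    · simp only [Sum.elim_inl, Sum.elim_inr] at hij
      omega
    · simp only [Sum.elim_inl, Sum.elim_inr] at hij
      omega
    · simp only [Sum.elim_inr] at hij
      congr 1; ext; omega
  have hBa : AlgebraicIndependent K (fun i => aeval a (B i)) := by
    rw [Trk.indep_iff, ← hrk2, (hgen a ha).rk_ends hA le_rfl, hR.m, hcard]
  have huniq : ∀ b : (Fin k ⊕ Fin k) → Ω, AlgebraicIndependent K b →
      (∀ i, aeval b (B i) = aeval a (B i)) → b = a := by
    intro b hb hab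
    obtain ⟨g1, g2, g3, g4, g5, g6, g7⟩ := hPO a
    obtain ⟨f1, f2, f3, f4, f5, f6, f7⟩ := hPO b
    have e0 : PO b 0 = PO a 0 := by
      rw [g2, f2]
      congr 1
      funext i
      rw [← g3, ← f3]
      exact hab _
    have hcol' : (PO b k).isRight = (PO a k).isRight := by
      have := col_eq (G := R.G) (col := R.col) R.bip (hwk b) (hwk a) (by rw [e0]) k le_rfl
      rwa [hR.col, hR.col] at this
    have ek : PO b k = PO a k := by
      refine vx_ext hcol' fun i => ?_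
      rw [← f4, ← g4]
      exact hab _
    have hall := P.c2 (Vx k Ω) R k hk hR.m hA hU hC (PO b) (PO a) k (by omega) le_rfl
      (hgen b hb) (hgen a ha) e0 ek
    funext i
    rcases i with i | i
    · rw [← f3, ← g3]
      exact hab _
    · rw [← f6, ← g6]
      have := hall (i + 1) (by have := i.isLt; omega)
      rw [this]
  -- two points over `K`
  have hne1 : eval a₁ h ≠ 0 := by
    obtain ⟨g1, g2, g3, g4, g5, g6, g7⟩ := hPK a₁
    rw [← MvPolynomial.aeval_eq_eval]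
    refine g5.2 fun i hi => ?_
    rw [ha₁ i (by omega), ha₁ (i + 2) hi]
    exact hnp i hi
  have hne2 : eval a₂ h ≠ 0 := by
    obtain ⟨g1, g2, g3, g4, g5, g6, g7⟩ := hPK a₂
    rw [← MvPolynomial.aeval_eq_eval]
    refine g5.2 fun i hi => ?_
    rw [ha₂ i (by omega), ha₂ (i + 2) hi]
    exact hnq i hi
  have hsame : ∀ i, eval a₁ (B i) = eval a₂ (B i) := by
    obtain ⟨g1, g2, g3, g4, g5, g6, g7⟩ := hPK a₁
    obtain ⟨f1, f2, f3, f4, f5, f6, f7⟩ := hPK a₂
    intro i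
    rw [← MvPolynomial.aeval_eq_eval, ← MvPolynomial.aeval_eq_eval]
    rcases i with i | i
    · rw [g3, f3]
      have e1 : PK a₁ 0 = PK a₂ 0 := by rw [ha₁ 0 (by omega), ha₂ 0 (by omega), h0]
      rw [g2, f2] at e1
      exact congrFun (Sum.inl.inj e1) i
    · rw [g4, f4, ha₁ k le_rfl, ha₂ k le_rfl, hend]
  have hne : a₁ ≠ a₂ := by
    rintro rfl
    apply h1
    rw [← ha₁ 1 (by omega), ← ha₂ 1 (by omega)]
  obtain ⟨a', e1, e2, e3⟩ := P.pure P.cop K Ω hbig (Fin k ⊕ Fin k) B h ⟨a, ha, hBa, huniq⟩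
    ⟨a₁, a₂, hne1, hne2, hsame, hne⟩
  rw [hcard] at e2 e3
  have hz := P.z P.cop K Ω k hbig hk A R hR.graph hR.m hR.col hR.rk hA
  have hc3 := P.c3 (Vx k Ω) R k hk hR.m hA hU hz (PO a') (hwk a')
    ((hPO a').2.2.2.2.1.1 e1) (by rw [hrk]; omega)
  rw [hrk2] at hc3
  omega

/-- the main theorem for graphs without twins -/
theorem no_twins (P : Pieces) (hbig : Big K Ω) (hk : 4 ≤ k) (hk5 : k ≠ 5) (A : ADG k K)
    (R : RG (Vx k Ω)) (hR : RGof A R) (hA : ∀ j, 2 ≤ j → j ≤ k → ¬ AA R j)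
    (hU2 : ∀ p, ¬ UP R p 2) (hC : ¬ HasCyc R.G (2 * k)) :
    Odd k ∧ ∀ ℓ, HasTheta A.graph (k - 1) ℓ := by
  classical
  by_cases hU : ∀ j, 2 ≤ j → j ≤ k → ∀ p, ¬ UP R p j
  · exfalso
    obtain ⟨j, hj, hjk, hcyc⟩ := P.closed K k (by omega) (by omega) (by omega) hk5 A
    rw [← P.cyc _ _ _ (by omega)] at hcyc
    exact no_short P hbig (by omega) A R hR hA hU hC j hj hjk hcyc
  · push Not at hU
    have hex : ∃ n, 2 ≤ n ∧ n ≤ k ∧ ∃ p, UP R p n := hU
    obtain ⟨n, ⟨hn2, hnk, w, hw⟩, hmin⟩ : ∃ n, (2 ≤ n ∧ n ≤ k ∧ ∃ p, UP R p n) ∧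
        ∀ j, j < n → ¬ (2 ≤ j ∧ j ≤ k ∧ ∃ p, UP R p j) :=
      ⟨Nat.find hex, Nat.find_spec hex, fun j hj => Nat.find_min hex hj⟩
    have hn3 : 3 ≤ n := by
      rcases Nat.lt_or_ge n 3 with h | h
      · exfalso
        have : n = 2 := by omega
        subst this
        exact hU2 w hw
      · exact h
    have hmn : UMin R k n :=
      { m_eq := hR.m
        three_le := hn3
        le := hnk
        nonA := hA
        nonU := fun j hj hjn p hp => hmin j hjn ⟨hj, by omega, p, hp⟩ }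
    by_cases h1 : k = n ∨ (4 ≤ n ∧ n + 2 ≤ k) ∨ (n = 3 ∧ Odd k)
    · exact (hC (P.b1 _ R k n hmn ⟨w, hw⟩ h1)).elim
    · push Not at h1
      obtain ⟨h2, h3, h4⟩ := h1
      by_cases h5 : n = 3
      · subst h5
        have h6 := h4 rfl
        exact (hC (P.b2 _ R k hmn ⟨w, hw⟩ (Nat.not_odd_iff_even.1 h6))).elim
      · have h6 : k = n + 1 := by
          have := h3 (by omega)
          omega
        rcases Nat.even_or_odd n with h7 | h7
        · refine ⟨by rw [h6]; exact h7.add_one, fun ℓ => ?_⟩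
          have h8 := P.b4 _ R k n hmn ⟨w, hw⟩ ℓ
          rw [hR.graph] at h8
          have h9 : k - 1 = n := by omega
          rw [h9]
          exact hasTheta_down P A h8
        · exact (hC (P.b3 _ R k n hmn ⟨w, hw⟩ h7 h6)).elim

end main

theorem main (P : Pieces) : LMain := by
  intro K _ _ k hk hk5 A
  classical
  obtain ⟨Ω, _, _, hbig⟩ := P.big K
  obtain ⟨μ, hμ⟩ := P.twin P.dec K Ω k hbig (by omega)
  by_cases hC : HasCyc A.graph (2 * k)
  · exact Or.inl hC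
  right
  obtain ⟨N, hN⟩ : ∃ N, μ A = N := ⟨_, rfl⟩
  induction N using Nat.strong_induction_on generalizing A with
  | _ N ih =>
    obtain ⟨R, h1, h2, h3, h4⟩ := P.rk K Ω k hbig (by omega) A
    have hC' : ¬ HasCyc R.G (2 * k) := by
      rw [h1]
      exact fun h => hC (hasCyc_down P A (by omega) h)
    have hA : ∀ j, 2 ≤ j → j ≤ k → ¬ AA R j := fun j hj hjk h =>
      hC' (P.a _ R k j hj hjk h)
    by_cases hU2 : ∃ p, UP R p 2
    · obtain ⟨A', hA', hcont⟩ := hμ A R h1 h2 h3 h4 hA hU2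
      obtain ⟨g1, g2⟩ := ih (μ A') (by omega) A' (fun h => hC (hasCyc_mono hcont (by omega) h)) rfl
      exact ⟨g1, fun ℓ => hasTheta_mono hcont (g2 ℓ)⟩
    · push Not at hU2
      exact no_twins P hbig hk hk5 A R ⟨h1, h2, h3, h4⟩ hA hU2 hC'

end Pool.Agent.H97H
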