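import Pool.Agent.H97F.Rel
import Pool.Agent.H97H.Defs

/-!
# The divisor of the special words, in arbitrary characteristic
-/

set_option autoImplicit false

namespace Pool.Agent.H97H

open MvPolynomial Pool.Agent.H97F

section

variable {K : Type} [Field K] [IsAlgClosed K] {N : ℕ} (S : Sys K N)

/-- the local inverse of a chart -/
theorem reg (hR : LRegular) (hN : 2 ≤ N) (hT : S.Tree) (τ : Bool) :
    Function.Injective (bind₁ (ch S τ) : MvPolynomial (Va N) K → MvPolynomial (Va N) K) ∧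
      ∃ Q : ℕ, 0 < Q ∧ ∀ a₀ : Va N → K, eval a₀ (midP K N) ≠ 0 →
      ∃ r : MvPolynomial (Va N) K, eval (fun i => eval a₀ (ch S τ i)) r ≠ 0 ∧
        (∀ u : MvPolynomial (Va N) K, ∃ (g : MvPolynomial (Va N) K) (k : ℕ),
          u ^ Q * (bind₁ (ch S τ) r) ^ k = bind₁ (ch S τ) g) ∧
        (∀ y : Va N → K, eval y r ≠ 0 →
          ∃ a, eval a (midP K N) ≠ 0 ∧ ∀ i, eval a (ch S τ i) = y i) := by
  have hm0 : midP K N ≠ 0 := by
    intro h0
    have h1 : eval (fun _ : Va N => (1 : K)) (midP K N) ≠ 0 :=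
      (eval_midP_ne _).2 fun _ _ _ => one_ne_zero
    rw [h0, map_zero] at h1
    exact h1 rfl
  refine hR K (Va N) (ch S τ) (midP K N) hm0 ?_
  intro a b ha hb hab
  have h1 : (fun i => eval a (ch S τ i)) = fun i => eval b (ch S τ i) := funext hab
  rw [eval_ch, eval_ch] at h1
  have hf : (fun j => a (Sum.inl j)) = fun j => b (Sum.inl j) := by
    funext j
    exact congrFun h1 (Sum.inl j)
  have hw : wrd (fun (τ : Bool) (t : K) f => S.act τ t f) τ (lets a) (fun j => a (Sum.inl j)) =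
      wrd (fun (τ : Bool) (t : K) f => S.act τ t f) τ (lets b) (fun j => a (Sum.inl j)) := by
    funext j
    have := congrFun h1 (Sum.inr j)
    simp only [Sum.elim_inr] at this
    rw [this, hf]
  obtain ⟨x, m, y, hx, hm⟩ := exists_split (w := lets a) (by rw [length_lets]; exact hN)
  obtain ⟨x', m', y', hx', hm'⟩ := exists_split (w := lets b) (by rw [length_lets]; exact hN)
  rw [length_lets] at hm hm'
  rw [← pt_lets a, hx, eval_midP_pt _ _ _ hm] at ha
  rw [← pt_lets b, hx', eval_midP_pt _ _ _ hm'] at hb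
  rw [hx, hx'] at hw
  obtain ⟨e1, e2, e3⟩ := chart_inj (isAct S) hN hT τ _ hm hm' ha hb hw
  rw [← pt_lets a, ← pt_lets b, hx, hx', hf, e1, e2, e3]

theorem eval_bind (τ : Bool) (a : Va N → K) (q : MvPolynomial (Va N) K) :
    eval a (bind₁ (ch S τ) q) = eval (fun i => eval a (ch S τ i)) q := by
  rw [← pt_lets a, eval_bind_pt S τ _ (length_lets a), eval_ch_pt S τ _ (length_lets a)]

theorem exists_ne_mid : ∃ a : Va N → K, eval a (midP K N) ≠ 0 :=
  ⟨fun _ => 1, (eval_midP_ne _).2 fun _ _ _ => one_ne_zero⟩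

theorem bind_inj (hR : LRegular) (hN : 2 ≤ N) (hT : S.Tree) (τ : Bool) :
    Function.Injective (bind₁ (ch S τ) : MvPolynomial (Va N) K → MvPolynomial (Va N) K) :=
  (reg S hR hN hT τ).1

/-- the reduced fraction of a power of a polynomial in the letters -/
theorem lowest (hR : LRegular) (hN : 2 ≤ N) (hT : S.Tree) (τ : Bool)
    (u : MvPolynomial (Va N) K) : ∃ (Q : ℕ) (g h : MvPolynomial (Va N) K), 0 < Q ∧
      u ^ Q * bind₁ (ch S τ) h = bind₁ (ch S τ) g ∧
      ∀ a : Va N → K, eval a (midP K N) ≠ 0 → eval a (bind₁ (ch S τ) h) ≠ 0 := by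
  obtain ⟨a₀, ha₀⟩ := exists_ne_mid (K := K) (N := N)
  obtain ⟨hinj, Q, hQ, hreg⟩ := reg S hR hN hT τ
  obtain ⟨r₀, hr₀, hu₀, -⟩ := hreg a₀ ha₀
  obtain ⟨g₀, k₀, hg₀⟩ := hu₀ u
  have hr0 : r₀ ≠ 0 := by
    rintro rfl
    simp at hr₀
  obtain ⟨g, h, c, hrel, hcg, hch⟩ :=
    UniqueFactorizationMonoid.exists_reduced_factors' g₀ (r₀ ^ k₀) (pow_ne_zero _ hr0)
  have hc : c ≠ 0 := by
    rintro rfl
    rw [zero_mul] at hch
    exact pow_ne_zero _ hr0 hch.symm
  have hbc : bind₁ (ch S τ) c ≠ 0 := by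
    intro h0
    exact hc (hinj (h0.trans (map_zero _).symm))
  have e2 : u ^ Q * bind₁ (ch S τ) h = bind₁ (ch S τ) g := by
    rw [← map_pow, ← hch, ← hcg, map_mul, map_mul] at hg₀
    apply mul_left_cancel₀ hbc
    rw [← hg₀]
    ring
  refine ⟨Q, g, h, hQ, e2, ?_⟩
  intro a ha
  obtain ⟨r₁, hr₁, hu₁, -⟩ := hreg a ha
  obtain ⟨g₁, k₁, hg₁⟩ := hu₁ u
  -- g * r₁ ^ k₁ = g₁ * h
  have e1 : g * r₁ ^ k₁ = g₁ * h := by
    apply hinj
    rw [map_mul, map_mul, map_pow, ← e2, ← hg₁]
    ring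
  have e3 : h ∣ r₁ ^ k₁ := by
    have e4 : h ∣ g * r₁ ^ k₁ := ⟨g₁, by rw [e1]; ring⟩
    exact hrel.symm.dvd_of_dvd_mul_left e4
  rw [eval_bind]
  intro h0
  obtain ⟨t, ht⟩ := e3
  have e5 : eval (fun i => eval a (ch S τ i)) (r₁ ^ k₁) = 0 := by
    rw [ht, map_mul, h0, zero_mul]
  rw [map_pow] at e5
  exact pow_ne_zero k₁ hr₁ e5

/-- there is a prime polynomial whose composite with the chart is a monomial in the letter `e` and
the middle letters -/
theorem exists_prime (hR : LRegular) (hN : 2 ≤ N) (hT : S.Tree) (τ : Bool) (e : Va N)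
    (he : ¬ IsMid e) : ∃ q : MvPolynomial (Va N) K, Prime q ∧ ∃ (d : Va N →₀ ℕ) (c : K), c ≠ 0 ∧
      bind₁ (ch S τ) q = monomial d c ∧ 0 < d e ∧ ∀ i, d i ≠ 0 → i = e ∨ IsMid i := by
  have hinj := bind_inj S hR hN hT τ
  obtain ⟨Q, g, h, hQ, hgh, hne⟩ := lowest S hR hN hT τ (X e)
  obtain ⟨d₁, c₁, hc₁, hh, hd₁⟩ := mono_of_ne _ hne
  have hg : bind₁ (ch S τ) g = monomial (Finsupp.single e Q + d₁) c₁ := by
    rw [← hgh, hh, X_pow_eq_monomial, monomial_mul, one_mul]
  have key : ∀ g : MvPolynomial (Va N) K, g ≠ 0 → X e ∣ bind₁ (ch S τ) g →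
      ∃ q, Prime q ∧ q ∣ g ∧ X e ∣ bind₁ (ch S τ) q := by
    intro g
    refine UniqueFactorizationMonoid.induction_on_prime g ?_ ?_ ?_
    · intro h0
      exact absurd rfl h0
    · intro x hx _ hdvd
      exfalso
      have : IsUnit (X e : MvPolynomial (Va N) K) :=
        isUnit_of_dvd_unit hdvd (hx.map (bind₁ (ch S τ)))
      exact X_prime.not_isUnit this
    · intro a p ha hp ih _ hdvd
      rw [map_mul] at hdvd
      rcases X_prime.dvd_or_dvd hdvd with h1 | h1
      · exact ⟨p, hp, dvd_mul_right _ _, h1⟩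
      · obtain ⟨q, hq1, hq2, hq3⟩ := ih ha h1
        exact ⟨q, hq1, hq2.mul_left _, hq3⟩
  have hg0 : g ≠ 0 := by
    rintro rfl
    rw [map_zero] at hg
    exact hc₁ (monomial_eq_zero.1 hg.symm)
  obtain ⟨q, hq1, hq2, hq3⟩ := key g hg0 (by
    rw [← hgh]
    exact (dvd_pow_self _ hQ.ne').mul_right _)
  have h1 : bind₁ (ch S τ) q ∣ monomial (Finsupp.single e Q + d₁) c₁ := by
    rw [← hg]
    exact map_dvd _ hq2
  rw [dvd_monomial_iff_exists hc₁] at h1
  obtain ⟨m, b, hm, hb, hqm⟩ := h1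
  have hb0 : b ≠ 0 := by
    rintro rfl
    exact hc₁ (zero_dvd_iff.1 hb)
  rw [hqm, X_dvd_monomial] at hq3
  refine ⟨q, hq1, m, b, hb0, hqm, ?_, ?_⟩
  · rcases hq3 with h3 | h3
    · exact absurd h3 hb0
    · omega
  · intro i hi
    by_cases hie : i = e
    · exact Or.inl hie
    · right
      apply hd₁
      have h2 := hm i
      rw [Finsupp.add_apply, Finsupp.single_eq_of_ne hie] at h2
      omega

/-- the prime polynomial with this property is unique -/
theorem uniq (hR : LRegular) (hN : 2 ≤ N) (hT : S.Tree) (τ : Bool) (e : Va N)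
    (he : ¬ IsMid e) : ∃ (q : MvPolynomial (Va N) K) (d : Va N →₀ ℕ) (c : K), c ≠ 0 ∧
      bind₁ (ch S τ) q = monomial d c ∧ 0 < d e ∧ (∀ i, d i ≠ 0 → i = e ∨ IsMid i) ∧
      ∀ q' : MvPolynomial (Va N) K, Prime q' → X e ∣ bind₁ (ch S τ) q' →
        ∃ s : K, s ≠ 0 ∧ q' = C s * q := by
  classical
  obtain ⟨q, hq, d, c, hc, hqd, hde, hsupp⟩ := exists_prime S hR hN hT τ e he
  obtain ⟨hinj, Q, hQ, hreg⟩ := reg S hR hN hT τ
  refine ⟨q, d, c, hc, hqd, hde, hsupp, ?_⟩
  intro q' hq' hdvd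
  obtain ⟨m', hm'⟩ := hdvd
  obtain ⟨A, hA⟩ : ∃ A, A = d e := ⟨_, rfl⟩
  obtain ⟨d', hd'⟩ : ∃ d', d = Finsupp.single e A + d' := by
    refine ⟨d - Finsupp.single e A, ?_⟩
    rw [add_comm, tsub_add_cancel_of_le]
    rw [Finsupp.single_le_iff]
    omega
  have hd'e : d' e = 0 := by
    rw [hd', Finsupp.add_apply, Finsupp.single_eq_same] at hA
    omega
  have hq2 : bind₁ (ch S τ) q = X e ^ A * monomial d' c := by
    rw [hqd, hd', X_pow_eq_monomial, monomial_mul, one_mul]
  -- the point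
  obtain ⟨a₀, ha₀⟩ : ∃ a₀ : Va N → K, a₀ = fun i => if i = e then 0 else 1 := ⟨_, rfl⟩
  have hmid : eval a₀ (midP K N) ≠ 0 := by
    rw [eval_midP_ne]
    intro i h1 h2
    rw [ha₀]
    simp only
    rw [if_neg]
    · exact one_ne_zero
    · rintro rfl
      exact he ⟨i, rfl, h1, h2⟩
  have hmon : eval a₀ (monomial d' c) ≠ 0 := by
    rw [eval_monomial]
    refine mul_ne_zero hc ?_
    rw [Finsupp.prod, Finset.prod_ne_zero_iff]
    intro i hi
    rw [ha₀]
    simp only
    rw [if_neg, one_pow]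
    · exact one_ne_zero
    · rintro rfl
      exact (Finsupp.mem_support_iff.1 hi) hd'e
  obtain ⟨r, hr, hu, -⟩ := hreg a₀ hmid
  obtain ⟨g₁, k₁, hg₁⟩ := hu m'
  obtain ⟨g₂, k₂, hg₂⟩ := hu (monomial d' c)
  have e1 : q' ^ (Q * A) * g₂ * r ^ (k₁ * A) = q ^ Q * g₁ ^ A * r ^ k₂ := by
    apply hinj
    simp only [map_mul, map_pow]
    rw [← hg₁, ← hg₂, hm', hq2]
    ring
  have hA0 : eval (fun i => eval a₀ (ch S τ i)) q = 0 := by
    rw [← eval_bind, hq2, map_mul, map_pow, eval_X, ha₀]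
    simp only [if_true]
    rw [zero_pow (by omega), zero_mul]
  have hA2 : eval (fun i => eval a₀ (ch S τ i)) g₂ ≠ 0 := by
    rw [← eval_bind, ← hg₂, map_mul, map_pow, map_pow, eval_bind]
    exact mul_ne_zero (pow_ne_zero _ hmon) (pow_ne_zero _ hr)
  have h2 : q ∣ q' ^ (Q * A) * g₂ * r ^ (k₁ * A) := by
    rw [e1, mul_assoc]
    exact (dvd_pow_self _ hQ.ne').mul_right _
  have h3 : q ∣ q' := by
    rcases hq.dvd_or_dvd h2 with h4 | h4
    · rcases hq.dvd_or_dvd h4 with h5 | h5
      · exact hq.dvd_of_dvd_pow h5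
      · exfalso
        obtain ⟨t, ht⟩ := h5
        rw [ht, map_mul, hA0, zero_mul] at hA2
        exact hA2 rfl
    · exfalso
      obtain ⟨t, ht⟩ := hq.dvd_of_dvd_pow h4
      rw [ht, map_mul, hA0, zero_mul] at hr
      exact hr rfl
  obtain ⟨t, ht⟩ := h3
  have htu : IsUnit t := by
    rcases hq'.irreducible.isUnit_or_isUnit ht with h4 | h4
    · exact absurd h4 hq.not_isUnit
    · exact h4
  obtain ⟨s, hs, hst⟩ := (MvPolynomial.isUnit_iff_eq_C_of_isReduced (P := t)).1 htu
  exact ⟨s, hs.ne_zero, by rw [ht, hst, mul_comm]⟩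

/-- equality of exponents -/
theorem exp_eq {c c' : K} (hc : c ≠ 0) {a b : ℕ} (h : ∀ t : K, c * t ^ a = c' * t ^ b) :
    a = b := by
  have h1 := h 1
  rw [one_pow, one_pow, mul_one, mul_one] at h1
  have h2 : (Polynomial.X : Polynomial K) ^ a = Polynomial.X ^ b := by
    apply poly_ext
    intro v _
    rw [Polynomial.eval_pow, Polynomial.eval_pow, Polynomial.eval_X]
    have h3 := h v
    rw [← h1] at h3
    exact mul_left_cancel₀ hc h3
  have h3 := congrArg Polynomial.natDegree h2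
  rwa [Polynomial.natDegree_X_pow, Polynomial.natDegree_X_pow] at h3

/-- the exponents of a monomial in the letters -/
noncomputable def exps (d : Va N →₀ ℕ) (i : ℕ) : ℕ := if h : i < N then d (Sum.inr ⟨i, h⟩) else 0

/-- the pair of flags in the opposite order -/
noncomputable def swp (q : MvPolynomial (Va N) K) : MvPolynomial (Va N) K := rename Sum.swap q

omit [IsAlgClosed K] in
theorem eval_swp (f g : Fin N → K) (q : MvPolynomial (Va N) K) :
    eval (Sum.elim f g) (swp q) = eval (Sum.elim g f) q := by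
  unfold swp
  rw [eval_rename]
  congr 2
  funext i
  rcases i with i | i <;> rfl

omit [IsAlgClosed K] in
theorem prime_swp {q : MvPolynomial (Va N) K} (hq : Prime q) : Prime (swp q) := by
  have h := (MulEquiv.prime_iff (renameEquiv K (Equiv.sumComm (Fin N) (Fin N))).toMulEquiv
    (p := q)).2 hq
  exact h

/-- (L3) The polynomial of the special words. -/
theorem exists_q (hR : LRegular) (hN : 3 ≤ N) (hT : S.Tree) :
    ∃ (q : Bool → MvPolynomial (Va N) K) (y y' : Bool → ℕ → ℕ) (c c' : Bool → K),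
      (∀ τ, c τ ≠ 0) ∧ (∀ τ, c' τ ≠ 0) ∧ (∀ τ, y τ 0 = 0) ∧ (∀ τ, 0 < y τ (N - 1)) ∧
      (∀ τ, 0 < y' τ 0) ∧ (∀ τ, y' τ (N - 1) = 0) ∧
      (∀ τ, ∀ (f : Fin N → K) (w : List K), w.length = N →
        eval (Sum.elim f (wrd (fun (τ : Bool) (t : K) f => S.act τ t f) τ w f)) (q τ) =
          c τ * mono (y τ) 0 w) ∧
      (∀ τ, ∀ (f : Fin N → K) (w : List K), w.length = N →
        eval (Sum.elim f (wrd (fun (τ : Bool) (t : K) f => S.act τ t f) (!τ) w f)) (q τ) =
          c' τ * mono (y' τ) 0 w) ∧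
      ∀ τ, y (ty τ (N - 2)) (N - 1) = y' τ 0 := by
  have hN2 : 2 ≤ N := by omega
  obtain ⟨e0, he0⟩ : ∃ e : Va N, e = Sum.inr ⟨0, by omega⟩ := ⟨_, rfl⟩
  obtain ⟨e1, he1⟩ : ∃ e : Va N, e = Sum.inr ⟨N - 1, by omega⟩ := ⟨_, rfl⟩
  have hm0 : ¬ IsMid e0 := by
    rintro ⟨j, hj, h1, h2⟩
    rw [he0] at hj
    cases hj
    simp at h1
  have hm1 : ¬ IsMid e1 := by
    rintro ⟨j, hj, h1, h2⟩
    rw [he1] at hj
    cases hj
    simp only at h2
    omega
  choose q hq d' c' hc' hqd' hde' hsupp' using fun τ : Bool =>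
    exists_prime S hR hN2 hT (!τ) e0 hm0
  choose q₁ d c₁ hc₁ hqd hde hsupp huniq using fun τ : Bool => uniq S hR hN2 hT τ e1 hm1
  have hdvd : ∀ τ, X e1 ∣ bind₁ (ch S τ) (q τ) := by
    intro τ
    apply X_dvd_of_vanish
    intro a ha
    rw [he1] at ha
    obtain ⟨x, m, y, hx, hm⟩ := exists_split (w := lets a) (by rw [length_lets]; exact hN2)
    rw [length_lets] at hm
    have hy : y = 0 := by
      have h1 : (lets a).getD (N - 1) 0 = y := by
        rw [hx]
        have : N - 1 = m.length + 1 := by omega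
        rw [this, List.getD_cons_succ, List.getD_eq_getElem?_getD]
        simp
      rw [← h1]
      have h2 : N - 1 < N := by omega
      simp [lets, h2, ha]
    rw [← pt_lets a, hx, eval_bind_pt S τ _ (by simp; omega), hy]
    have h3 : wrd (fun (τ : Bool) (t : K) f => S.act τ t f) τ (x :: (m ++ [0]))
        (fun j => a (Sum.inl j)) = wrd (fun (τ : Bool) (t : K) f => S.act τ t f) (!τ)
        (0 :: (x :: m)) (fun j => a (Sum.inl j)) := by
      have h4 : wrd (fun (τ : Bool) (t : K) f => S.act τ t f) (!τ) (0 :: (x :: m))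
          (fun j => a (Sum.inl j)) = wrd (fun (τ : Bool) (t : K) f => S.act τ t f) (!(!τ))
          (x :: m) (S.act (!τ) 0 (fun j => a (Sum.inl j))) := rfl
      rw [h4, (isAct S).zero, Bool.not_not, ← List.cons_append, wrd_append]
      exact (isAct S).zero _ _
    rw [h3, ← eval_bind_pt S (!τ) _ (by simp; omega), hqd', eval_monomial]
    refine mul_eq_zero_of_right _ ?_
    rw [Finsupp.prod_fintype _ _ (fun i => pow_zero _)]
    refine Finset.prod_eq_zero (Finset.mem_univ e0) ?_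
    have e : pt (fun j => a (Sum.inl j)) (0 :: x :: m) e0 = 0 := by
      rw [he0]
      simp [pt]
    rw [e, zero_pow (hde' τ).ne']
  have hinl : ∀ τ j, d τ (Sum.inl j) = 0 := by
    intro τ j
    by_contra h
    rcases hsupp τ _ h with h1 | ⟨i, h1, -⟩
    · rw [he1] at h1
      cases h1
    · cases h1
  have hinl' : ∀ τ j, d' τ (Sum.inl j) = 0 := by
    intro τ j
    by_contra h
    rcases hsupp' τ _ h with h1 | ⟨i, h1, -⟩
    · rw [he0] at h1
      cases h1
    · cases h1
  choose s hs hqs using fun τ => huniq τ (q τ) (hq τ) (hdvd τ)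
  have hE1 : ∀ τ, ∀ (f : Fin N → K) (w : List K), w.length = N →
      eval (Sum.elim f (wrd (fun (τ : Bool) (t : K) f => S.act τ t f) τ w f)) (q₁ τ) =
        c₁ τ * mono (exps (d τ)) 0 w := by
    intro τ f w hw
    rw [← eval_bind_pt S τ f hw, hqd, eval_monomial_pt (d τ) (c₁ τ) (hinl τ) f hw]
    rfl
  have hE : ∀ τ, ∀ (f : Fin N → K) (w : List K), w.length = N →
      eval (Sum.elim f (wrd (fun (τ : Bool) (t : K) f => S.act τ t f) τ w f)) (q τ) =
        (s τ * c₁ τ) * mono (exps (d τ)) 0 w := by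
    intro τ f w hw
    rw [hqs, map_mul, eval_C, hE1 τ f w hw, mul_assoc]
  have hE' : ∀ τ, ∀ (f : Fin N → K) (w : List K), w.length = N →
      eval (Sum.elim f (wrd (fun (τ : Bool) (t : K) f => S.act τ t f) (!τ) w f)) (q τ) =
        c' τ * mono (exps (d' τ)) 0 w := by
    intro τ f w hw
    rw [← eval_bind_pt S (!τ) f hw, hqd', eval_monomial_pt (d' τ) (c' τ) (hinl' τ) f hw]
    rfl
  have hlast' : ∀ τ, exps (d' τ) (N - 1) = 0 := by
    intro τ
    have h0 : N - 1 < N := by omega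
    simp only [exps, h0, dif_pos]
    by_contra h
    rcases hsupp' τ _ h with h1 | h1
    · rw [he0] at h1
      simp only [Sum.inr.injEq, Fin.mk.injEq] at h1
      omega
    · exact hm1 (he1 ▸ h1)
  have hfirst' : ∀ τ, 0 < exps (d' τ) 0 := by
    intro τ
    have h0 : 0 < N := by omega
    simp only [exps, h0, dif_pos]
    rw [← he0]
    exact hde' τ
  have hlast : ∀ τ, 0 < exps (d τ) (N - 1) := by
    intro τ
    have h0 : N - 1 < N := by omega
    simp only [exps, h0, dif_pos]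
    rw [← he1]
    exact hde τ
  refine ⟨q, fun τ => exps (d τ), fun τ => exps (d' τ), fun τ => s τ * c₁ τ, c',
    fun τ => mul_ne_zero (hs τ) (hc₁ τ), hc', ?_, hlast, hfirst', hlast', hE, hE', ?_⟩
  · intro τ
    have h0 : 0 < N := by omega
    simp only [exps, h0, dif_pos]
    by_contra h
    rcases hsupp τ _ h with h1 | h1
    · rw [he1] at h1
      simp only [Sum.inr.injEq, Fin.mk.injEq] at h1
      omega
    · exact hm0 (he0 ▸ h1)
  · intro τ
    simp only
    obtain ⟨ρ, hρ⟩ : ∃ ρ, ρ = ty τ (N - 2) := ⟨_, rfl⟩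
    rw [← hρ]
    have hρN : (!(ty ρ N)) = !τ := by
      have h1 : ty ρ N = ty ρ (N - 2) := by
        have h2 : N = N - 2 + 1 + 1 := by omega
        rw [h2, ty_succ, ty_succ, Bool.not_not]
        rfl
      rw [h1, hρ, ty_ty]
    -- the values of the swapped polynomial
    have hsw : ∀ (f : Fin N → K) (w : List K), w.length = N →
        eval (Sum.elim f (wrd (fun (τ : Bool) (t : K) f => S.act τ t f) ρ w f)) (swp (q τ)) =
          c' τ * mono (exps (d' τ)) 0 (invw w) := by
      intro f w hw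
      rw [eval_swp]
      have h1 := wrd_invw (isAct S (R := K)) ρ w f
      rw [hw, hρN] at h1
      have h2 := hE' τ (wrd (fun (τ : Bool) (t : K) f => S.act τ t f) ρ w f) (invw w)
        (by rw [length_invw, hw])
      rw [h1] at h2
      exact h2
    have hdv : X e1 ∣ bind₁ (ch S ρ) (swp (q τ)) := by
      apply X_dvd_of_vanish
      intro a ha
      rw [← pt_lets a, eval_bind_pt S ρ _ (length_lets a), hsw _ _ (length_lets a)]
      obtain ⟨w, z, hwz⟩ : ∃ w z, lets a = w ++ [z] := by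
        rcases List.eq_nil_or_concat (lets a) with h | ⟨w, z, h⟩
        · have := congrArg List.length h
          rw [length_lets] at this
          simp only [List.length_nil] at this
          omega
        · exact ⟨w, z, by simpa using h⟩
      have hlw : w.length = N - 1 := by
        have := congrArg List.length hwz
        rw [length_lets] at this
        simp only [List.length_append, List.length_cons, List.length_nil] at this
        omega
      have hz : z = 0 := by
        have h1 : (lets a).getD (N - 1) 0 = z := by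
          rw [hwz, List.getD_eq_getElem?_getD, List.getElem?_append_right (by omega), hlw]
          simp
        rw [← h1]
        have h2 : N - 1 < N := by omega
        rw [he1] at ha
        simp [lets, h2, ha]
      have h1 : invw (lets a) = -z :: invw w := by
        rw [hwz]
        simp [invw]
      rw [h1, hz, mono, neg_zero, zero_pow (hfirst' τ).ne', zero_mul, mul_zero]
    obtain ⟨s₂, hs₂, hq₂⟩ := huniq ρ (swp (q τ)) (prime_swp (hq τ)) hdv
    -- evaluate at the word `1, ..., 1, t`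
    refine exp_eq (c := s₂ * c₁ ρ) (c' := c' τ * (-1) ^ exps (d' τ) 0 *
      mono (exps (d' τ)) 1 (List.replicate (N - 1) (-1))) (mul_ne_zero hs₂ (hc₁ ρ)) ?_
    intro t
    have hw : (List.replicate (N - 1) (1 : K) ++ [t]).length = N := by
      simp only [List.length_append, List.length_replicate, List.length_cons, List.length_nil]
      omega
    have h1 := hsw (fun _ => 0) _ hw
    rw [hq₂, map_mul, eval_C, hE1 ρ _ _ hw, mono_append] at h1
    have h2 : invw (List.replicate (N - 1) (1 : K) ++ [t]) =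
        -t :: List.replicate (N - 1) (-1) := by
      simp [invw]
    have hones : ∀ (e : ℕ → ℕ) (k n : ℕ), mono e n (List.replicate k (1 : K)) = 1 := by
      intro e k
      induction k with
      | zero => intro n; simp [mono]
      | succ k ih => intro n; rw [List.replicate_succ, mono, ih, one_pow, mul_one]
    rw [h2, hones] at h1
    simp only [mono, List.length_replicate, zero_add, one_mul, mul_one] at h1
    rw [mul_assoc, h1, neg_pow t]
    ring

end

end Pool.Agent.H97H
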