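import Pool.Agent.H97H.Defs

/-!
# Project H97G, piece LDec (helper86): polynomial decomposition, by the theorem of Lueroth
-/

set_option autoImplicit false

namespace Pool.Agent.H97H.Dec

open Polynomial IntermediateField

variable {K : Type} [Field K]

/-- the embedding of the polynomials -/
noncomputable abbrev io (p : K[X]) : RatFunc K := algebraMap K[X] (RatFunc K) p

lemma io_inj : Function.Injective (io (K := K)) := IsFractionRing.injective K[X] (RatFunc K)

lemma io_C (c : K) : io (C c) = algebraMap K (RatFunc K) c := by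
  rw [io, ← Polynomial.algebraMap_eq, ← IsScalarTower.algebraMap_apply K K[X] (RatFunc K)]

lemma aeval_io (h P : K[X]) : aeval (io h) P = io (P.comp h) := by
  rw [io, aeval_algebraMap_apply, comp_eq_aeval]

/-- the homogeneous value -/
noncomputable def hv (A B P : K[X]) (n : ℕ) : K[X] :=
  ∑ i ∈ Finset.range (n + 1), C (P.coeff i) * A ^ i * B ^ (n - i)

lemma io_hv {A B P : K[X]} {n : ℕ} (hB : B ≠ 0) (hn : P.natDegree ≤ n) :
    io (hv A B P n) = io B ^ n * aeval (io A / io B) P := by
  have hB' : io B ≠ 0 := fun h => hB (io_inj (by rw [h]; simp [io]))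
  rw [aeval_eq_sum_range' (Nat.lt_succ_of_le hn), hv, io, map_sum, Finset.mul_sum]
  refine Finset.sum_congr rfl fun i hi => ?_
  have hi' : i ≤ n := Nat.lt_succ_iff.1 (Finset.mem_range.1 hi)
  rw [map_mul, map_mul, map_pow, map_pow, Algebra.smul_def]
  have h1 : algebraMap K[X] (RatFunc K) (C (P.coeff i)) = algebraMap K (RatFunc K) (P.coeff i) :=
    io_C _
  rw [h1]
  have h2 : io B ^ n = io B ^ (n - i) * io B ^ i := by
    rw [← pow_add, Nat.sub_add_cancel hi']
  have h3 : io B ^ n * (algebraMap K (RatFunc K) (P.coeff i) * (io A / io B) ^ i) =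
      algebraMap K (RatFunc K) (P.coeff i) * io A ^ i * io B ^ (n - i) := by
    rw [h2, div_pow]
    field_simp
  exact h3.symm

lemma hv_deg {A B P : K[X]} (hP : P ≠ 0) (hAB : B.natDegree < A.natDegree) :
    (hv A B P P.natDegree).natDegree = P.natDegree * A.natDegree ∧ hv A B P P.natDegree ≠ 0 := by
  have hA : A ≠ 0 := by
    rintro rfl
    simp at hAB
  have hA' : 0 < A.natDegree := by omega
  set n := P.natDegree with hn
  have hlc : P.coeff n ≠ 0 := by
    rw [hn]
    exact leadingCoeff_ne_zero.2 hP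
  have hlead : (C (P.coeff n) * A ^ n * B ^ (n - n)).natDegree = n * A.natDegree := by
    rw [Nat.sub_self, pow_zero, mul_one, natDegree_C_mul hlc, natDegree_pow]
  have hsum : hv A B P n = (C (P.coeff n) * A ^ n * B ^ (n - n)) +
      ∑ i ∈ Finset.range n, C (P.coeff i) * A ^ i * B ^ (n - i) := by
    rw [hv, Finset.sum_range_succ, add_comm]
  by_cases hn0 : n = 0
  · have h1 : hv A B P n = C (P.coeff n) := by
      rw [hsum, hn0]
      simp
    rw [h1, natDegree_C, hn0, zero_mul]
    refine ⟨rfl, ?_⟩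
    rw [hn0] at hlc
    exact C_ne_zero.2 hlc
  · have hlow : (∑ i ∈ Finset.range n, C (P.coeff i) * A ^ i * B ^ (n - i)).natDegree <
        n * A.natDegree := by
      have h2 : (∑ i ∈ Finset.range n, C (P.coeff i) * A ^ i * B ^ (n - i)).natDegree ≤
          n * A.natDegree - 1 := by
        refine natDegree_sum_le_of_forall_le _ _ fun i hi => ?_
        have hi' : i < n := Finset.mem_range.1 hi
        have h3 : (C (P.coeff i) * A ^ i * B ^ (n - i)).natDegree ≤
            i * A.natDegree + (n - i) * B.natDegree := by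
          refine natDegree_mul_le.trans (add_le_add ?_ natDegree_pow_le)
          exact (natDegree_C_mul_le _ _).trans natDegree_pow_le
        have h4 : i * A.natDegree + (n - i) * B.natDegree + (n - i) ≤ n * A.natDegree := by
          obtain ⟨j, hj⟩ := Nat.exists_eq_add_of_le hi'.le
          rw [hj, Nat.add_sub_cancel_left]
          nlinarith
        have h5 : 1 ≤ n - i := by omega
        omega
      have h6 : 0 < n * A.natDegree := Nat.mul_pos (Nat.pos_of_ne_zero hn0) hA'
      omega
    have h7 : (hv A B P n).natDegree = n * A.natDegree := by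
      rw [hsum, natDegree_add_eq_left_of_natDegree_lt (by rw [hlead]; exact hlow), hlead]
    refine ⟨h7, fun h0 => ?_⟩
    rw [h0, natDegree_zero] at h7
    have h6 : 0 < n * A.natDegree := Nat.mul_pos (Nat.pos_of_ne_zero hn0) hA'
    omega

/-- a generator with a pole at infinity -/
lemma exists_gen (r : RatFunc K) (l : K[X]) (hl : 0 < l.natDegree) (hr : io l ∈ K⟮r⟯) :
    ∃ A B : K[X], IsCoprime A B ∧ B ≠ 0 ∧ B.natDegree < A.natDegree ∧
      K⟮io A / io B⟯ = K⟮r⟯ := by
  have hnb : r ∉ (⊥ : IntermediateField K (RatFunc K)) := by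
    intro h
    rw [adjoin_simple_eq_bot_iff.2 h, IntermediateField.mem_bot] at hr
    obtain ⟨c, hc⟩ := hr
    rw [← io_C] at hc
    rw [← io_inj hc, natDegree_C] at hl
    exact lt_irrefl _ hl
  by_cases hd : r.denom.natDegree < r.num.natDegree
  · exact ⟨r.num, r.denom, RatFunc.isCoprime_num_denom r, r.denom_ne_zero, hd, by
      rw [io, io, RatFunc.num_div_denom]⟩
  · set a := r.num with ha
    set b := r.denom with hb
    have hb0 : b ≠ 0 := r.denom_ne_zero
    set c : K := a.coeff b.natDegree / b.leadingCoeff with hc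
    set a' := a - C c * b with ha'
    have hcop : IsCoprime b a' := by
      have h1 : IsCoprime b a := (RatFunc.isCoprime_num_denom r).symm
      have h2 := h1.add_mul_left_right (-C c)
      have h3 : a + b * -C c = a' := by
        rw [ha']
        ring
      rwa [h3] at h2
    have hr' : r = algebraMap K (RatFunc K) c + io a' / io b := by
      have h1 : io b ≠ 0 := fun h => hb0 (io_inj (by rw [h]; simp [io]))
      have h2 : r = io a / io b := (RatFunc.num_div_denom r).symm
      have h3 : io a' = io a - algebraMap K (RatFunc K) c * io b := by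
        rw [ha', io, map_sub, map_mul, ← io_C]
      rw [h3, h2]
      field_simp
      ring
    have ha0 : a' ≠ 0 := by
      intro h
      apply hnb
      rw [hr', h]
      simp only [io, map_zero, zero_div, add_zero]
      exact (⊥ : IntermediateField K (RatFunc K)).algebraMap_mem c
    have hdeg : a'.degree < (b.natDegree : WithBot ℕ) := by
      rw [degree_lt_iff_coeff_zero]
      intro m hm
      rw [ha', coeff_sub, coeff_C_mul]
      rcases hm.eq_or_lt with rfl | hm
      · rw [hc, coeff_natDegree, div_mul_cancel₀ _ (leadingCoeff_ne_zero.2 hb0), sub_self]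
      · rw [coeff_eq_zero_of_natDegree_lt hm, coeff_eq_zero_of_natDegree_lt (by omega), mul_zero,
          sub_zero]
    refine ⟨b, a', hcop, ha0, (natDegree_lt_iff_degree_lt ha0).2 hdeg, ?_⟩
    have hinv : io b / io a' = (r - algebraMap K (RatFunc K) c)⁻¹ := by
      rw [hr', add_sub_cancel_left, inv_div]
    apply le_antisymm
    · rw [adjoin_simple_le_iff, hinv]
      exact inv_mem (sub_mem (mem_adjoin_simple_self K r) (IntermediateField.algebraMap_mem _ c))
    · rw [adjoin_simple_le_iff]
      nth_rewrite 1 [hr']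
      refine add_mem (IntermediateField.algebraMap_mem _ c) ?_
      have h1 : io a' / io b = (io b / io a')⁻¹ := by rw [inv_div]
      rw [h1]
      exact inv_mem (mem_adjoin_simple_self K _)

/-- the generator is a polynomial -/
lemma exists_poly_gen (r : RatFunc K) (l : K[X]) (hl : 0 < l.natDegree) (hr : io l ∈ K⟮r⟯) :
    ∃ h : K[X], K⟮io h⟯ = K⟮r⟯ := by
  obtain ⟨A, B, hcop, hB, hAB, hgen⟩ := exists_gen r l hl hr
  have hl0 : l ≠ 0 := by
    rintro rfl
    simp at hl
  have hB' : io B ≠ 0 := fun h => hB (io_inj (by rw [h]; simp [io]))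
  rw [← hgen, mem_adjoin_simple_iff] at hr
  obtain ⟨P, Q, hPQ⟩ := hr
  have hlio : io l ≠ 0 := fun h => hl0 (io_inj (by rw [h]; simp [io]))
  have hQ1 : aeval (io A / io B) Q ≠ 0 := by
    intro h
    rw [h, div_zero] at hPQ
    exact hlio hPQ
  have hP1 : aeval (io A / io B) P ≠ 0 := by
    intro h
    rw [h, zero_div] at hPQ
    exact hlio hPQ
  have hQ0 : Q ≠ 0 := by
    rintro rfl
    simp at hQ1
  have hP0 : P ≠ 0 := by
    rintro rfl
    simp at hP1
  have key : io l * aeval (io A / io B) Q = aeval (io A / io B) P := by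
    rw [hPQ, div_mul_cancel₀ _ hQ1]
  obtain ⟨dP, nP⟩ := hv_deg hP0 hAB
  obtain ⟨dQ, nQ⟩ := hv_deg hQ0 hAB
  -- the identity of polynomials
  have h1 : l * B ^ P.natDegree * hv A B Q Q.natDegree =
      B ^ Q.natDegree * hv A B P P.natDegree := by
    apply io_inj
    have e1 : io (l * B ^ P.natDegree * hv A B Q Q.natDegree) =
        io l * io B ^ P.natDegree * io (hv A B Q Q.natDegree) := by
      simp only [io, map_mul, map_pow]
    have e2 : io (B ^ Q.natDegree * hv A B P P.natDegree) =
        io B ^ Q.natDegree * io (hv A B P P.natDegree) := by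
      simp only [io, map_mul, map_pow]
    rw [e1, e2, io_hv hB le_rfl, io_hv hB le_rfl, ← key]
    ring
  have h2 : Q.natDegree < P.natDegree := by
    have h3 := congrArg natDegree h1
    rw [natDegree_mul (mul_ne_zero hl0 (pow_ne_zero _ hB)) nQ, natDegree_mul hl0 (pow_ne_zero _ hB),
      natDegree_pow, natDegree_mul (pow_ne_zero _ hB) nP, natDegree_pow, dP, dQ] at h3
    by_contra h4
    obtain ⟨j, hj⟩ := Nat.exists_eq_add_of_le (not_lt.1 h4)
    rw [hj] at h3
    nlinarith
  have h3 : l * B ^ (P.natDegree - Q.natDegree) * hv A B Q Q.natDegree = hv A B P P.natDegree := by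
    have h4 : B ^ Q.natDegree ≠ 0 := pow_ne_zero _ hB
    apply mul_left_cancel₀ h4
    rw [← h1]
    have h5 : B ^ P.natDegree = B ^ Q.natDegree * B ^ (P.natDegree - Q.natDegree) := by
      rw [← pow_add]
      congr 1
      omega
    rw [h5]
    ring
  have h4 : B ∣ hv A B P P.natDegree := by
    rw [← h3]
    have h5 : B ∣ B ^ (P.natDegree - Q.natDegree) := dvd_pow_self _ (by omega)
    exact Dvd.dvd.mul_right (Dvd.dvd.mul_left h5 _) _
  have h5 : B ∣ C (P.coeff P.natDegree) * A ^ P.natDegree := by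
    rw [hv, Finset.sum_range_succ, Nat.sub_self, pow_zero, mul_one] at h4
    refine (dvd_add_right (Finset.dvd_sum fun i hi => ?_)).1 h4
    have hi' : i < P.natDegree := Finset.mem_range.1 hi
    exact Dvd.dvd.mul_left (dvd_pow_self _ (by omega)) _
  have h6 : IsUnit B := by
    have h7 : IsCoprime B (A ^ P.natDegree) := hcop.symm.pow_right
    have h8 : IsUnit (C (P.coeff P.natDegree)) := by
      rw [isUnit_C]
      exact (leadingCoeff_ne_zero.2 hP0).isUnit
    have h9 : B ∣ A ^ P.natDegree := (IsUnit.dvd_mul_left h8).1 h5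
    exact h7.isUnit_of_dvd' dvd_rfl h9
  obtain ⟨b, hb, rfl⟩ := isUnit_iff.1 h6
  have hb0 : b ≠ 0 := hb.ne_zero
  refine ⟨C b⁻¹ * A, ?_⟩
  rw [← hgen]
  congr 2
  have e1 : io (C b⁻¹ * A) = io (C b⁻¹) * io A := by simp only [io, map_mul]
  rw [e1, io_C, io_C, map_inv₀]
  field_simp

/-- polynomials in the field generated by a polynomial are polynomials in it -/
lemma exists_comp [IsAlgClosed K] (h l : K[X]) (hh : 0 < h.natDegree) (hl : io l ∈ K⟮io h⟯) :
    ∃ g : K[X], l = g.comp h := by
  classical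
  rw [mem_adjoin_simple_iff] at hl
  obtain ⟨P, Q, hPQ⟩ := hl
  rw [aeval_io, aeval_io] at hPQ
  by_cases hQ : Q.comp h = 0
  · refine ⟨0, io_inj ?_⟩
    rw [hPQ, hQ]
    simp [io]
  have hQ0 : Q ≠ 0 := by
    rintro rfl
    simp at hQ
  have hQ1 : io (Q.comp h) ≠ 0 := fun e => hQ (io_inj (by rw [e]; simp [io]))
  have h1 : l * Q.comp h = P.comp h := by
    apply io_inj
    have e1 : io (l * Q.comp h) = io l * io (Q.comp h) := by simp only [io, map_mul]
    rw [e1, hPQ, div_mul_cancel₀ _ hQ1]
  set d := EuclideanDomain.gcd P Q with hd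
  obtain ⟨P', hP'⟩ : d ∣ P := EuclideanDomain.gcd_dvd_left P Q
  obtain ⟨Q', hQ'⟩ : d ∣ Q := EuclideanDomain.gcd_dvd_right P Q
  have hd0 : d ≠ 0 := by
    intro h0
    rw [h0, zero_mul] at hQ'
    exact hQ0 hQ'
  have hcop : IsCoprime P' Q' := by
    have h2 := EuclideanDomain.gcd_eq_gcd_ab P Q
    rw [← hd] at h2
    refine ⟨EuclideanDomain.gcdA P Q, EuclideanDomain.gcdB P Q, ?_⟩
    apply mul_left_cancel₀ hd0
    calc d * (EuclideanDomain.gcdA P Q * P' + EuclideanDomain.gcdB P Q * Q')
        = (d * P') * EuclideanDomain.gcdA P Q + (d * Q') * EuclideanDomain.gcdB P Q := by ring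
      _ = d * 1 := by rw [← hP', ← hQ', ← h2, mul_one]
  have h2 : l * Q'.comp h = P'.comp h := by
    have hdc : d.comp h ≠ 0 := by
      intro h0
      apply hQ
      rw [hQ', mul_comp, h0, zero_mul]
    apply mul_left_cancel₀ hdc
    rw [hP', hQ', mul_comp, mul_comp] at h1
    rw [← h1]
    ring
  have h3 : Q'.degree = 0 := by
    by_contra h4
    obtain ⟨y, hy⟩ := IsAlgClosed.exists_root Q' h4
    obtain ⟨x, hx⟩ := IsAlgClosed.exists_root (h - C y) (by
      rw [degree_sub_C (natDegree_pos_iff_degree_pos.1 hh)]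
      exact (natDegree_pos_iff_degree_pos.1 hh).ne')
    have hx' : eval x h = y := by
      rw [IsRoot.def, eval_sub, eval_C, sub_eq_zero] at hx
      exact hx
    have h5 := congrArg (eval x) h2
    rw [eval_mul, eval_comp, eval_comp, hx'] at h5
    have h6 : eval y P' = 0 := by
      rw [← h5, hy.eq_zero, mul_zero]
    obtain ⟨u, v, huv⟩ := hcop
    have h7 := congrArg (eval y) huv
    rw [eval_add, eval_mul, eval_mul, h6, hy.eq_zero, eval_one] at h7
    simp at h7
  have h4 := eq_C_of_degree_eq_zero h3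
  have h5 : Q'.coeff 0 ≠ 0 := by
    intro h0
    rw [h0, C_0] at h4
    rw [h4] at h3
    simp at h3
  refine ⟨C (Q'.coeff 0)⁻¹ * P', ?_⟩
  rw [mul_comp, C_comp, ← h2]
  rw [h4, C_comp, coeff_C_zero]
  have h6 : C (Q'.coeff 0)⁻¹ * C (Q'.coeff 0) = (1 : K[X]) := by
    rw [← C_mul, inv_mul_cancel₀ h5, C_1]
  calc l = l * 1 := (mul_one _).symm
    _ = l * (C (Q'.coeff 0)⁻¹ * C (Q'.coeff 0)) := by rw [h6]
    _ = C (Q'.coeff 0)⁻¹ * (l * C (Q'.coeff 0)) := by ring

end Pool.Agent.H97H.Dec

namespace Pool.Agent.H97H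

open Pool.Agent.H97G

open Polynomial IntermediateField Dec

/-- **(G4)** -/
theorem lDec : LDec := by
  intro K _ _ Ω _ _ Λ x x' hx hxx hΛ hex
  obtain ⟨l₁, hl₁, hd⟩ := hex
  have hx' : Transcendental K x' := by
    have h1 : Transcendental K (aeval x l₁) := hx.aeval l₁ hd.ne' (by
      exact mem_nonZeroDivisors_of_ne_zero (leadingCoeff_ne_zero.2 (by
        rintro rfl
        simp at hd)))
    rw [hΛ l₁ hl₁] at h1
    exact (transcendental_aeval_iff.1 h1).1
  set E : IntermediateField K (RatFunc K) := IntermediateField.adjoin K (io '' Λ) with hE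
  have hmem : ∀ l ∈ Λ, io l ∈ E := fun l hl => subset_adjoin K _ ⟨l, hl, rfl⟩
  have hL := RatFunc.Luroth.eq_adjoin_generator (E := E)
  obtain ⟨h, hh⟩ := exists_poly_gen (RatFunc.Luroth.generator E) l₁ hd (by
    rw [← hL]
    exact hmem l₁ hl₁)
  rw [← hL] at hh
  have hpos : 0 < h.natDegree := by
    by_contra h0
    have h1 : h.natDegree = 0 := by omega
    have h2 := hmem l₁ hl₁
    rw [← hh, natDegree_eq_zero.1 h1 |>.choose_spec.symm, io_C,
      adjoin_simple_eq_bot_iff.2 ((⊥ : IntermediateField K (RatFunc K)).algebraMap_mem _),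
      IntermediateField.mem_bot] at h2
    obtain ⟨c, hc⟩ := h2
    rw [← io_C] at hc
    rw [← io_inj hc, natDegree_C] at hd
    exact lt_irrefl _ hd
  refine ⟨h, ?_, fun l hl => exists_comp h l hpos (by rw [hh]; exact hmem l hl)⟩
  by_contra h2
  have h1 : h.natDegree = 1 := by omega
  -- the two embeddings
  have i1 : Function.Injective (aeval x : K[X] →ₐ[K] Ω) := transcendental_iff_injective.1 hx
  have i2 : Function.Injective (aeval x' : K[X] →ₐ[K] Ω) := transcendental_iff_injective.1 hx'
  let φ : RatFunc K →ₐ[K] Ω := IsFractionRing.liftAlgHom (g := aeval x) i1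
  let φ' : RatFunc K →ₐ[K] Ω := IsFractionRing.liftAlgHom (g := aeval x') i2
  have hφ : ∀ p : K[X], φ (io p) = aeval x p := fun p =>
    IsFractionRing.lift_algebraMap (g := (aeval x : K[X] →ₐ[K] Ω).toRingHom) i1 p
  have hφ' : ∀ p : K[X], φ' (io p) = aeval x' p := fun p =>
    IsFractionRing.lift_algebraMap (g := (aeval x' : K[X] →ₐ[K] Ω).toRingHom) i2 p
  have heq : φ.comp E.val = φ'.comp E.val := by
    refine IntermediateField.algHom_ext_of_eq_adjoin K hE ?_
    rintro _ ⟨l, hl, rfl⟩
    show φ (io l) = φ' (io l)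
    rw [hφ, hφ', hΛ l hl]
  have hhE : io h ∈ E := by
    rw [← hh]
    exact mem_adjoin_simple_self K _
  have h3 : aeval x h = aeval x' h := by
    rw [← hφ, ← hφ']
    exact congrArg (fun f => f ⟨io h, hhE⟩) heq
  apply hxx
  have h4 := eq_X_add_C_of_natDegree_le_one h1.le
  have h5 : h.coeff 1 ≠ 0 := by
    intro h0
    rw [h0, C_0, zero_mul, zero_add] at h4
    rw [h4, natDegree_C] at h1
    exact zero_ne_one h1
  rw [h4] at h3
  simp only [map_add, map_mul, aeval_X, aeval_C] at h3
  have h6 : algebraMap K Ω (h.coeff 1) ≠ 0 := by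
    rwa [Ne, FaithfulSMul.algebraMap_eq_zero_iff]
  exact mul_left_cancel₀ h6 (add_right_cancel h3)

end Pool.Agent.H97H
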