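import Pool.Agent.H97G.LFin
import Pool.Agent.H97H.Defs

/-!
# (G9) The conclusion for finite fields, without condition on the characteristic

The proof of `H97G/LFin.lean`; the limit field of `H97F/Finite.lean` is algebraically closed without
any condition on the characteristics.
-/

set_option autoImplicit false

namespace Pool.Agent.H97H

open MvPolynomial Pool.Agent.H97F Pool.Agent.H97F.Fin9 Pool.Agent.H97G

/-- the limit field -/
theorem exists_Q (K : ℕ → Type) [∀ n, Field (K n)] :
    ∃ (Q : Type) (_ : Field Q) (_ : IsAlgClosed Q) (π : BB K →+* Q),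
      Function.Surjective π ∧
      ∀ x, π x = 0 ↔ ∀ᶠ n in (Filter.hyperfilter ℕ : Filter ℕ), ev K n x = 0 := by
  have : (II K).IsMaximal := II_max K
  let _ : Field (BB K ⧸ II K) := Ideal.Quotient.field (II K)
  let π : BB K →+* BB K ⧸ II K := Ideal.Quotient.mk (II K)
  have hs : Function.Surjective π := Ideal.Quotient.mk_surjective
  have hk : ∀ x, π x = 0 ↔ ∀ᶠ n in (Filter.hyperfilter ℕ : Filter ℕ), ev K n x = 0 := by
    intro x
    exact Ideal.Quotient.eq_zero_iff_mem.trans (mem_II K x)
  refine ⟨BB K ⧸ II K, inferInstance, ?_, π, hs, hk⟩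
  apply IsAlgClosed.of_exists_root
  intro p hp hirr
  have hlift : p ∈ Polynomial.lifts π := by
    rw [Polynomial.lifts_iff_coeff_lifts]
    intro i
    exact hs _
  obtain ⟨q, hq, hqd, hqm⟩ := Polynomial.lifts_and_natDegree_eq_and_monic hlift hp
  have hd : q.natDegree ≠ 0 := by
    rw [hqd]
    exact (Polynomial.natDegree_pos_iff_degree_pos.2
      (Polynomial.degree_pos_of_irreducible hirr)).ne'
  obtain ⟨e, he⟩ := Bd.fam (K := K) (Finset.range (q.natDegree + 1))
    (fun i => ((q.coeff i : BB K) : ∀ n, AlgebraicClosure (K n))) (fun i => (q.coeff i).2)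
  have hroot : ∀ n, ∃ (x : AlgebraicClosure (K n))
      (L' : IntermediateField (K n) (AlgebraicClosure (K n))),
      FiniteDimensional (K n) L' ∧ Module.finrank (K n) L' ≤ e * q.natDegree ∧
      x ∈ L' ∧ (q.map (ev K n)).eval x = 0 := by
    intro n
    obtain ⟨L, h1, h2, h3⟩ := he n
    have hm : (q.map (ev K n)).Monic := hqm.map _
    have hdn : (q.map (ev K n)).natDegree = q.natDegree := hqm.natDegree_map _
    obtain ⟨x, L', g1, g2, g3, g4⟩ := root_aux K n L (q.map (ev K n)) hm (by rw [hdn]; exact hd)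
      (fun i => by
        rw [Polynomial.coeff_map]
        by_cases hi : i ≤ q.natDegree
        · exact h3 i (Finset.mem_range.2 (by omega))
        · rw [Polynomial.coeff_eq_zero_of_natDegree_lt (by omega), map_zero]
          exact L.zero_mem)
    refine ⟨x, L', g1, g2.trans ?_, g3, g4⟩
    rw [hdn]
    exact Nat.mul_le_mul h2 le_rfl
  choose x L' g1 g2 g3 g4 using hroot
  let X : BB K := ⟨x, ⟨e * q.natDegree, fun n => ⟨L' n, g1 n, g2 n, g3 n⟩⟩⟩
  refine ⟨π X, ?_⟩
  rw [← hq, Polynomial.eval_map, Polynomial.eval₂_hom, hk]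
  refine Filter.Eventually.of_forall fun n => ?_
  have h5 := g4 n
  rw [Polynomial.eval_map] at h5
  rw [← Polynomial.eval₂_hom (ev K n) X]
  exact h5

/-- one of the two patterns occurs over some extension of bounded degree -/
theorem fin0 (α β : Type) [Finite α] [Finite β] (H₁ : SimpleGraph α) (H₂ : SimpleGraph β)
    (k : ℕ) (hC : ∀ (K : Type) [Field K] [IsAlgClosed K] (A : ADG k K),
      H₁.IsContained A.graph ∨ H₂.IsContained A.graph) (D : ℕ) :
    ∃ M : ℕ, ∀ (K : Type) [Field K] [Finite K], ∀ A : ADG k K,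
      (∀ i, (A.f i).totalDegree ≤ D) →
      ∃ (L : Type) (_ : Field L) (_ : Finite L) (_ : Algebra K L), Module.finrank K L ≤ M ∧
        (H₁.IsContained (A.map (algebraMap K L)).graph ∨
          H₂.IsContained (A.map (algebraMap K L)).graph) := by
  by_contra hcon
  push Not at hcon
  choose K hfield hfin A hA hno using hcon
  obtain ⟨Q, _, _, π, hs, hπ⟩ := exists_Q K
  obtain ⟨Ab, hAb⟩ := exists_adg D A hA
  rcases hC Q (Ab.map π) with h | h
  · obtain ⟨n, L, g1, g2, g3⟩ := FinP.one H₁ π hs hπ A Ab hAb h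
    have : Finite L := Module.finite_of_finite (K n)
    exact g3.elim (hno n L inferInstance this inferInstance g2).1.false
  · obtain ⟨n, L, g1, g2, g3⟩ := FinP.one H₂ π hs hπ A Ab hAb h
    have : Finite L := Module.finite_of_finite (K n)
    exact g3.elim (hno n L inferInstance this inferInstance g2).2.false

/-- (G9) -/
theorem lfin : LFin := by
  intro α β _ _ H₁ H₂ k hC D
  obtain ⟨M₀, hM₀⟩ := fin0 α β H₁ H₂ k (fun K _ _ A => hC K A) D
  refine ⟨M₀.factorial, Nat.factorial_pos _, fun K _ _ A hA L _ _ _ hdvd => ?_⟩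
  obtain ⟨L', _, _, _, hfin, hj⟩ := hM₀ K A hA
  have hfd : Module.Finite K L' := Module.Finite.of_finite
  have hdvd' : Module.finrank K L' ∣ Module.finrank K L :=
    (Nat.dvd_factorial Module.finrank_pos hfin).trans hdvd
  have hfd2 : Module.Finite K L := Module.Finite.of_finite
  obtain ⟨φ⟩ := FiniteField.nonempty_algHom_of_finrank_dvd hdvd'
  have e : (A.map (algebraMap K L')).map (φ : L' →+* L) = A.map (algebraMap K L) := by
    unfold ADG.map
    congr 1
    funext i
    show MvPolynomial.map _ (MvPolynomial.map _ _) = _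
    rw [MvPolynomial.map_map, AlgHom.comp_algebraMap]
  rcases hj with hj | hj
  · left
    have h := contained_map _ (A.map (algebraMap K L')) (φ : L' →+* L) φ.toRingHom.injective hj
    rwa [e] at h
  · right
    have h := contained_map _ (A.map (algebraMap K L')) (φ : L' →+* L) φ.toRingHom.injective hj
    rwa [e] at h

end Pool.Agent.H97H
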