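import Pool.Agent.H97G.LPure
import Pool.Agent.H97H.Defs

/-!
# Piece LPure in arbitrary characteristic
-/

set_option autoImplicit false

namespace Pool.Agent.H97H

open MvPolynomial Pool.Agent.H97F Pool.Agent.H97G Pool.Agent.H97G.Pure

namespace Pure

/-- the generators are rational functions of the values -/
theorem rational {K Ω ι : Type} [Field K] (p : ℕ) [ExpChar K p] [Field Ω] [Algebra K Ω] [Fintype ι]
    (hbig : Big K Ω) (A : ι → MvPolynomial ι K) (a : ι → Ω) (ha : AlgebraicIndependent K a)
    (hA : AlgebraicIndependent K (fun i => aeval a (A i)))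
    (huniq : ∀ b : ι → Ω, AlgebraicIndependent K b → (∀ i, aeval b (A i) = aeval a (A i)) → b = a) (i : ι) :
    ∃ n : ℕ, a i ^ p ^ n ∈ IntermediateField.adjoin K (Set.range fun i => aeval a (A i)) := by
  classical
  have hcl := hbig.closed
  obtain ⟨E, hEdef⟩ : ∃ E : IntermediateField K Ω, E = IntermediateField.adjoin K (Set.range fun i => aeval a (A i)) :=
    ⟨_, rfl⟩
  rw [← hEdef]
  -- every coordinate is algebraic over `E`
  have halg : ∀ j, IsAlgebraic E (a j) := by
    intro j
    let M := AlgebraicIndependent.matroid K Ω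
    have hI : M.Indep (Set.range fun i => aeval a (A i)) := AlgebraicIndependent.matroid_indep_iff.2 hA.coe_range
    have hsub : (Set.range fun i => aeval a (A i)) ⊆ M.closure (Set.range a) := by
      rintro _ ⟨i, rfl⟩
      show aeval a (A i) ∈ M.closure (Set.range a)
      rw [AlgebraicIndependent.matroid_closure_eq]
      have h1 : aeval a (A i) ∈ Algebra.adjoin K (Set.range a) := by
        rw [Algebra.adjoin_range_eq_range_aeval]
        exact ⟨A i, rfl⟩
      exact isAlgebraic_algebraMap (⟨_, h1⟩ : Algebra.adjoin K (Set.range a))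
    have hcard : (Set.range fun i => aeval a (A i)).encard = Fintype.card ι := by
      rw [encard_range hA.injective]
    have hle : M.eRk ((Set.range fun i => aeval a (A i)) ∪ Set.range a) ≤ M.eRk (Set.range fun i => aeval a (A i)) := by
      rw [hI.eRk_eq_encard, hcard]
      calc M.eRk ((Set.range fun i => aeval a (A i)) ∪ Set.range a) ≤ M.eRk (M.closure (Set.range a)) := by
            apply M.eRk_mono
            apply Set.union_subset hsub
            exact M.subset_closure _ (by intro x _; trivial)
        _ = M.eRk (Set.range a) := M.eRk_closure_eq _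
        _ ≤ (Set.range a).encard := M.eRk_le_encard _
        _ ≤ Fintype.card ι := by
            rw [encard_range ha.injective]
    have hfin : M.IsRkFinite (Set.range fun i => aeval a (A i)) := M.isRkFinite_of_finite (Set.finite_range _)
    have h1 := hfin.closure_eq_closure_of_subset_of_eRk_ge_eRk Set.subset_union_left hle
    have h2 : a j ∈ M.closure (Set.range fun i => aeval a (A i)) := by
      rw [h1]
      exact M.mem_closure_of_mem' (Or.inr ⟨j, rfl⟩) (by trivial)
    rw [AlgebraicIndependent.matroid_closure_eq] at h2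
    have h3 : IsAlgebraic (Algebra.adjoin K (Set.range fun i => aeval a (A i))) (a j) := h2
    have hle2 : Algebra.adjoin K (Set.range fun i => aeval a (A i)) ≤ E.toSubalgebra := by
      rw [hEdef]
      exact IntermediateField.algebra_adjoin_le_adjoin K _
    obtain ⟨p, hp0, hp⟩ := h3
    refine ⟨p.map (Subalgebra.inclusion hle2).toRingHom, ?_, ?_⟩
    · intro h0
      apply hp0
      exact (Polynomial.map_injective _ (Subalgebra.inclusion_injective hle2)) (by rw [h0, Polynomial.map_zero])
    · rw [Polynomial.aeval_def, Polynomial.eval₂_map]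
      exact hp
  let F := algebraicClosure E Ω
  have hmem : ∀ j, a j ∈ F := fun j => (mem_algebraicClosure_iff).2 (halg j)
  have hpE : ExpChar E p := expChar_of_injective_algebraMap (algebraMap K E).injective p
  have hsep : (minpoly E (a i)).natSepDegree = 1 := by
    rw [Polynomial.natSepDegree_eq_of_isAlgClosed Ω]
    rw [Finset.card_eq_one]
    refine ⟨a i, ?_⟩
    ext y
    simp only [Multiset.mem_toFinset, Finset.mem_singleton]
    have hne : minpoly E (a i) ≠ 0 := minpoly.ne_zero (halg i).isIntegral
    rw [Polynomial.mem_aroots]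
    constructor
    · rintro ⟨-, hy⟩
      let x : F := ⟨a i, hmem i⟩
      have hx : minpoly E x = minpoly E (a i) := by
        have h1 := minpoly.algebraMap_eq (B := F) (B' := Ω) (A := E) (algebraMap F Ω).injective x
        exact h1.symm
      have hFalg : Algebra.IsAlgebraic E F := inferInstance
      obtain ⟨σ, hσ⟩ := IntermediateField.exists_algHom_of_splits_of_aeval (F := E) (E := F)
        (K := Ω) (x := x) (y := y) (fun s => ⟨(hFalg.isAlgebraic s).isIntegral,
          IsAlgClosed.splits _⟩) (by rw [hx]; exact hy)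
      let ψ : F →ₐ[K] Ω := σ.restrictScalars K
      have hψ : Function.Injective ψ := ψ.toRingHom.injective
      let a' : ι → F := fun j => ⟨a j, hmem j⟩
      have ha' : AlgebraicIndependent K a' := by
        apply AlgebraicIndependent.of_comp (F.val.restrictScalars K)
        exact ha
      have hb := ha'.map' hψ
      have h1 := huniq (ψ ∘ a') hb (by
        intro j
        have h2 : aeval (ψ ∘ a') (A j) = ψ (aeval a' (A j)) := comp_ae ψ a' (A j)
        have h3 : (F.val.restrictScalars K) (aeval a' (A j)) = aeval a (A j) :=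
          (comp_ae (F.val.restrictScalars K) a' (A j)).symm
        have h4 : aeval a (A j) ∈ E := by
          rw [hEdef]
          exact IntermediateField.subset_adjoin K _ ⟨j, rfl⟩
        have h5 : aeval a' (A j) = algebraMap E F ⟨aeval a (A j), h4⟩ := Subtype.ext h3
        rw [h2, h5]
        show σ (algebraMap E F ⟨aeval a (A j), h4⟩) = _
        rw [AlgHom.commutes]
        rfl)
      have h2 := congrFun h1 i
      rw [← hσ]
      exact h2
    · rintro rfl
      exact ⟨hne, minpoly.aeval _ _⟩
  obtain ⟨n, ⟨z, hz⟩⟩ := (minpoly.natSepDegree_eq_one_iff_pow_mem (F := E) (x := a i) p).1 hsep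
  refine ⟨n, ?_⟩
  rw [← hz]
  exact z.2

end Pure

theorem lpure : LPure := by
  classical
  intro hcop K _ _ Ω _ _ hbig ι _ A h ⟨a, ha, hA, huniq⟩ ⟨a₁, a₂, h1, h2, h12, hne⟩
  have haev : ∀ (b : ι → Ω) (s : MvPolynomial ι K), aeval b (bind₁ A s) = aeval (fun i => aeval b (A i)) s :=
    fun b s => aeval_bind₁ _ _ _
  have hev : ∀ (b : ι → K) (s : MvPolynomial ι K), eval b (bind₁ A s) = eval (fun i => eval b (A i)) s := by
    intro b s
    have := aeval_bind₁ b A s
    simpa [MvPolynomial.coe_aeval_eq_eval] using this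
  have hbinj : ∀ s : MvPolynomial ι K, bind₁ A s = 0 → s = 0 := by
    intro s hs
    apply hA.eq_zero_of_aeval_eq_zero
    rw [← haev, hs, map_zero]
  -- the rational functions
  obtain ⟨p, hp⟩ := ExpChar.exists K
  have hrat : ∀ i, ∃ (n : ℕ) (r g : MvPolynomial ι K), IsRelPrime r g ∧ r ≠ 0 ∧
      X i ^ p ^ n * bind₁ A r = bind₁ A g := by
    intro i
    obtain ⟨n, h3⟩ := Pure.rational p hbig A a ha hA huniq i
    rw [IntermediateField.mem_adjoin_range_iff] at h3
    obtain ⟨g, r, hgr⟩ := h3
    have hr0 : aeval (fun i => aeval a (A i)) r ≠ 0 := by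
      intro h0
      rw [h0, div_zero] at hgr
      have h4 := ha.eq_zero_of_aeval_eq_zero (X i ^ p ^ n) (by rw [map_pow, aeval_X, hgr])
      exact pow_ne_zero _ (X_ne_zero i) h4
    have hr : r ≠ 0 := by
      rintro rfl
      exact hr0 (map_zero _)
    have h5 : X i ^ p ^ n * bind₁ A r = bind₁ A g := by
      have h6 : aeval a (X i ^ p ^ n * bind₁ A r - bind₁ A g) = 0 := by
        rw [map_sub, map_mul, map_pow, aeval_X, haev, haev, hgr, div_mul_cancel₀ _ hr0, sub_self]
      exact sub_eq_zero.1 (ha.eq_zero_of_aeval_eq_zero _ h6)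
    obtain ⟨r', g', c, hrel, e1, e2⟩ := UniqueFactorizationMonoid.exists_reduced_factors r hr g
    refine ⟨n, r', g', hrel, ?_, ?_⟩
    · rintro rfl
      rw [mul_zero] at e1
      exact hr e1.symm
    · have hc : bind₁ A c ≠ 0 := by
        intro h0
        have := hbinj c h0
        rw [this, zero_mul] at e1
        exact hr e1.symm
      apply mul_left_cancel₀ hc
      rw [← map_mul, e2, ← h5, ← e1, map_mul]
      ring
  obtain ⟨i, hi⟩ : ∃ i, a₁ i ≠ a₂ i := by
    by_contra hcon
    push Not at hcon
    exact hne (funext hcon)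
  obtain ⟨n, r, g, hrel, hr, hrg⟩ := hrat i
  have hR : eval a₁ (bind₁ A r) = 0 := by
    have e1 := congrArg (eval a₁) hrg
    have e2 := congrArg (eval a₂) hrg
    rw [map_mul, map_pow, eval_X, hev a₁ r, hev a₁ g] at e1
    rw [map_mul, map_pow, eval_X, hev a₂ r, hev a₂ g] at e2
    have e3 : (fun i => eval a₁ (A i)) = fun i => eval a₂ (A i) := funext h12
    rw [e3] at e1
    rw [hev, e3]
    have e4 : (a₁ i ^ p ^ n - a₂ i ^ p ^ n) * eval (fun i => eval a₂ (A i)) r = 0 := by
      rw [sub_mul, e1, e2, sub_self]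
    rcases mul_eq_zero.1 e4 with h | h
    · exact absurd (iterateFrobenius_inj K p n (sub_eq_zero.1 h)) hi
    · exact h
  have hR0 : bind₁ A r ≠ 0 := fun h0 => hr (hbinj r h0)
  obtain ⟨e, he, heR, hea⟩ : ∃ e, Irreducible e ∧ e ∣ bind₁ A r ∧ eval a₁ e = 0 := by
    obtain ⟨f, hf, hfp⟩ := WfDvdMonoid.exists_factors (bind₁ A r) hR0
    have h1 : (f.map (eval a₁)).prod = 0 := by
      rw [← map_multiset_prod]
      obtain ⟨u, hu⟩ := hfp
      have h3 : (eval a₁) (f.prod * u) = 0 := by rw [hu]; exact hR
      rw [map_mul] at h3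
      rcases mul_eq_zero.mp h3 with h | h
      · exact h
      · exact absurd h (u.isUnit.map (eval a₁)).ne_zero
    obtain ⟨e, hef, he0⟩ := Multiset.mem_map.mp (Multiset.prod_eq_zero_iff.mp h1)
    exact ⟨e, hf e hef, (Multiset.dvd_prod hef).trans hfp.dvd, he0⟩
  have heh : ¬ e ∣ h := by
    rintro ⟨q, rfl⟩
    rw [map_mul, hea, zero_mul] at h1
    exact h1 rfl
  have hev' : e.vars.Nonempty := by
    rw [Finset.nonempty_iff_ne_empty]
    intro h0
    rw [vars_eq_empty_iff_eq_C] at h0
    rw [h0, eval_C] at hea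
    rw [hea, C_0] at h0
    exact he.ne_zero h0
  obtain ⟨b, hb1, hb2, hb3⟩ := Pure.generic hcop hbig e h he hev' heh
  refine ⟨b, hb2, hb3, ?_⟩
  have hRb : aeval b (bind₁ A r) = 0 := by
    obtain ⟨q, hq⟩ := heR
    rw [hq, map_mul, hb1, zero_mul]
  refine hcop K Ω ι r g hrel (fun i => aeval b (A i)) ?_ ?_
  · rw [← haev, hRb]
  · rw [← haev, ← hrg, map_mul, hRb, mul_zero]

end Pool.Agent.H97H
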