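import Pool.Agent.H97G.RkB
import Pool.Agent.H97H.Defs

/-!
# Piece LRk: the ranked graph of an algebraically defined graph
(helper83; `lbig` is in `RkA.lean`)
-/

set_option autoImplicit false
set_option linter.unusedSectionVars false

namespace Pool.Agent.H97H

open Pool.Agent.H97G Pool.Agent.H97G.Rk

namespace Rk

open Set MvPolynomial Pool.Agent.H97F Pool.Agent.H97F.GraphPf

section
variable {k : ℕ} {K Ω : Type} [Field K] [Field Ω] [Algebra K Ω] [DecidableEq (Vx k Ω)]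

theorem cds_singleton (v : Vx k Ω) : cds {v} = Set.range (co v) := by
  rw [cds_eq]
  simp

theorem cds_insert (S : Finset (Vx k Ω)) (w : Vx k Ω) :
    cds (insert w S) = Set.range (co w) ∪ cds S := by
  rw [Finset.insert_eq, cds_union, cds_singleton]

theorem cds_insert_sub (hk : 0 < k) {A : ADG k K} {S : Finset (Vx k Ω)} {v w : Vx k Ω}
    (hv : v ∈ S) (h : (grph A Ω).Adj v w) :
    cds (insert w S) ⊆ cl K (insert (co w ⟨0, hk⟩) (cds S)) := by
  rw [cds_insert]
  apply Set.union_subset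
  · rintro x ⟨i, rfl⟩
    apply adjoin_sub_cl
    rw [eq_nbr hk h, co_nbr_zero]
    exact nbr_mem A v _ (Set.mem_insert _ _) (fun i => Set.mem_insert_of_mem _ (mem_cds hv i)) i
  · exact (Set.subset_insert _ _).trans (sub_cl _)

theorem edge_rk (hk : 0 < k) {A : ADG k K} (S : Finset (Vx k Ω)) (v w : Vx k Ω)
    (hv : v ∈ S) (h : (grph A Ω).Adj v w) :
    trk K (cds (insert w S)) ≤ trk K (cds S) + 1 :=
  (trk_le_of_sub_cl (cds_finite _) ((cds_finite S).insert _) (cds_insert_sub hk hv h)).trans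
    (trk_insert_le (cds_finite S) _)

/-- the first coordinate of a generic neighbour -/
theorem not_cl_of_edge (hk : 0 < k) {A : ADG k K} {S : Finset (Vx k Ω)} {v w : Vx k Ω}
    (hv : v ∈ S) (h : (grph A Ω).Adj v w) (hr : trk K (cds (insert w S)) = trk K (cds S) + 1) :
    co w ⟨0, hk⟩ ∉ cl K (cds S) := by
  intro hc
  have h1 : cds (insert w S) ⊆ cl K (cds S) :=
    (cds_insert_sub hk hv h).trans (cl_cl (Set.insert_subset hc (sub_cl _)))
  have h2 := trk_le_of_sub_cl (cds_finite (insert w S)) (cds_finite S) h1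
  omega

theorem ext_rk (hk : 0 < k) (hB : Big K Ω) (A : ADG k K) (S : Finset (Vx k Ω)) (v : Vx k Ω)
    (hv : v ∈ S) : ∃ w, (grph A Ω).Adj v w ∧ trk K (cds (insert w S)) = trk K (cds S) + 1 := by
  obtain ⟨c, hc⟩ := exists_not_cl hB (cds_finite S)
  refine ⟨nbr A v c, adj_nbr A v c, le_antisymm (edge_rk hk S v _ hv (adj_nbr A v c)) ?_⟩
  rw [← trk_insert_of_not (cds_finite S) hc]
  refine trk_mono (cds_finite _) (Set.insert_subset ?_ (cds_mono (Finset.subset_insert _ _)))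
  have h1 := mem_cds (Finset.mem_insert_self (nbr A v c) S) ⟨0, hk⟩
  rwa [co_nbr_zero] at h1

/-- the maps given by homomorphisms -/
theorem vmap_props (hk : 0 < k) {E : IntermediateField K Ω} (φ : E →ₐ[K] Ω) (A : ADG k K)
    (T : Finset (Vx k Ω)) (hT : cds T ⊆ E) :
    Set.InjOn (vmap φ) (T : Set (Vx k Ω)) ∧
      (∀ x ∈ T, ∀ y ∈ T, (grph A Ω).Adj x y → (grph A Ω).Adj (vmap φ x) (vmap φ y)) ∧
      ∀ W : Finset (Vx k Ω), W ⊆ T → trk K (cds (W.image (vmap φ))) = trk K (cds W) := by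
  have h1 : ∀ v ∈ T, ∀ i, co v i ∈ E := fun v hv i => hT (mem_cds hv i)
  refine ⟨fun v hv w hw h => vmap_inj φ (h1 v hv) (h1 w hw) h,
    fun x hx y hy h => vmap_adj hk φ A (h1 x hx) (h1 y hy) h, fun W hW => ?_⟩
  rw [cds_vmap, trk_tot φ ((cds_mono hW).trans hT)]

theorem hom_rk (hk : 0 < k) [IsAlgClosed Ω] (A : ADG k K) (S T : Finset (Vx k Ω))
    (a b b' : Vx k Ω) (ha : a ∈ S) (hb : (grph A Ω).Adj a b) (hb' : (grph A Ω).Adj a b')
    (h1 : trk K (cds (insert b S)) = trk K (cds S) + 1)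
    (h2 : trk K (cds (insert b' S)) = trk K (cds S) + 1) (hT : insert b S ⊆ T)
    (h3 : trk K (cds T) = trk K (cds S) + 1) :
    ∃ e : Vx k Ω → Vx k Ω, (∀ s ∈ S, e s = s) ∧ e b = b' ∧
      Set.InjOn e (T : Set (Vx k Ω)) ∧
      (∀ x ∈ T, ∀ y ∈ T, (grph A Ω).Adj x y → (grph A Ω).Adj (e x) (e y)) ∧
      ∀ W : Finset (Vx k Ω), W ⊆ T → trk K (cds (W.image e)) = trk K (cds W) := by
  obtain ⟨E, φ, h4, h5, h6⟩ := hom_S (not_cl_of_edge hk ha hb h1) (not_cl_of_edge hk ha hb' h2)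
  have h7 : cds T ⊆ (E : Set Ω) := by
    refine Set.Subset.trans ?_ h6
    have h8 : cds T ⊆ cl K (cds (insert b S)) :=
      sub_cl_of_trk (cds_finite T) (cds_mono hT) (by omega)
    exact h8.trans (cl_cl (cds_insert_sub hk ha hb))
  obtain ⟨h8, h9, h10⟩ := vmap_props hk φ A T h7
  have hST : S ⊆ T := (Finset.subset_insert _ _).trans hT
  have hfix : ∀ s ∈ S, vmap φ s = s := by
    intro s hs
    apply vx_ext (isRight_vmap φ s)
    funext i
    have h11 : co s i ∈ E := h7 (mem_cds (hST hs) i)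
    rw [co_vmap, tot_of φ h11, h4 _ (mem_cds hs i)]
  refine ⟨vmap φ, hfix, ?_, h8, h9, h10⟩
  have hbT : b ∈ T := hT (Finset.mem_insert_self _ _)
  have h12 : co b ⟨0, hk⟩ ∈ E := h7 (mem_cds hbT _)
  conv_lhs => rw [eq_nbr hk hb]
  rw [vmap_nbr φ A a _ (fun i => h7 (mem_cds (hST ha) i)) h12, hfix a ha, tot_of φ h12,
    h5 h12, ← eq_nbr hk hb']

/-- the generators of a path -/
def gens (hk : 0 < k) (p : ℕ → Vx k Ω) (n : ℕ) : Fin k ⊕ Fin n → Ω :=
  Sum.elim (co (p 0)) (fun i : Fin n => co (p (i + 1)) ⟨0, hk⟩)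

theorem path_mem (hk : 0 < k) {A : ADG k K} {p : ℕ → Vx k Ω} {n : ℕ}
    (hp : Wk (grph A Ω) p n) : ∀ j, j ≤ n → ∀ i,
      co (p j) i ∈ Algebra.adjoin K (Set.range (gens hk p n)) := by
  intro j
  induction j with
  | zero =>
    intro _ i
    exact Algebra.subset_adjoin ⟨Sum.inl i, rfl⟩
  | succ j ih =>
    intro hj i
    have h1 := hp j (by omega)
    have h2 : co (p (j + 1)) ⟨0, hk⟩ ∈ Algebra.adjoin K (Set.range (gens hk p n)) :=
      Algebra.subset_adjoin ⟨Sum.inr ⟨j, by omega⟩, rfl⟩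
    have h3 := nbr_mem (K := K) A (p j) (co (p (j + 1)) ⟨0, hk⟩)
      (X := (Algebra.adjoin K (Set.range (gens hk p n)) : Set Ω)) h2
      (fun i => ih (by omega) i) i
    rw [← eq_nbr hk h1, Algebra.adjoin_eq] at h3
    exact h3

theorem cds_path (hk : 0 < k) {A : ADG k K} {p : ℕ → Vx k Ω} {n : ℕ}
    (hp : Wk (grph A Ω) p n) : cds (vs p n) ⊆ cl K (Set.range (gens hk p n)) := by
  rw [cds_sub_iff]
  intro v hv i
  obtain ⟨j, hj, rfl⟩ := mem_vs.1 hv
  exact adjoin_sub_cl _ (path_mem hk hp j hj i)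

theorem gens_ind (hk : 0 < k) {A : ADG k K} {p : ℕ → Vx k Ω} {n : ℕ}
    (hp : Wk (grph A Ω) p n) (hr : trk K (cds (vs p n)) = k + n) :
    AlgebraicIndependent K (gens hk p n) := by
  refine algInd_of_trk (n := k + n) _ (by simp) ?_
  rw [← hr]
  exact trk_le_of_sub_cl (cds_finite _) (Set.finite_range _) (cds_path hk hp)

theorem homp_rk (hk : 0 < k) [IsAlgClosed Ω] (A : ADG k K) (n : ℕ) (p p' : ℕ → Vx k Ω)
    (T : Finset (Vx k Ω)) (hp : Wk (grph A Ω) p n) (hp' : Wk (grph A Ω) p' n)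
    (h0 : (p 0).isRight = (p' 0).isRight) (hr : trk K (cds (vs p n)) = k + n)
    (hr' : trk K (cds (vs p' n)) = k + n) (hT : vs p n ⊆ T) (h3 : trk K (cds T) = k + n) :
    ∃ e : Vx k Ω → Vx k Ω, (∀ i, i ≤ n → e (p i) = p' i) ∧
      Set.InjOn e (T : Set (Vx k Ω)) ∧
      (∀ x ∈ T, ∀ y ∈ T, (grph A Ω).Adj x y → (grph A Ω).Adj (e x) (e y)) ∧
      ∀ W : Finset (Vx k Ω), W ⊆ T → trk K (cds (W.image e)) = trk K (cds W) := by
  obtain ⟨E, φ, h4, h6⟩ := hom_K _ _ (gens_ind hk hp hr) (gens_ind hk hp' hr')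
  have h7 : cds T ⊆ (E : Set Ω) := by
    refine Set.Subset.trans ?_ h6
    have h8 : cds T ⊆ cl K (cds (vs p n)) :=
      sub_cl_of_trk (cds_finite T) (cds_mono hT) (by omega)
    exact h8.trans (cl_cl (cds_path hk hp))
  obtain ⟨h8, h9, h10⟩ := vmap_props hk φ A T h7
  refine ⟨vmap φ, fun i => ?_, h8, h9, h10⟩
  have hpE : ∀ i, i ≤ n → ∀ j, co (p i) j ∈ E := fun i hi j =>
    h7 (mem_cds (hT (mem_vs_of hi)) j)
  induction i with
  | zero =>
    intro _
    apply vx_ext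
    · rw [isRight_vmap, h0]
    · funext j
      rw [co_vmap, tot_of φ (hpE 0 (Nat.zero_le _) j)]
      exact h4 (Sum.inl j) (hpE 0 (Nat.zero_le _) j)
  | succ i ih =>
    intro hi
    have h11 := hp i (by omega)
    have h12 := hp' i (by omega)
    have h13 : tot φ (co (p (i + 1)) ⟨0, hk⟩) = co (p' (i + 1)) ⟨0, hk⟩ := by
      rw [tot_of φ (hpE (i + 1) hi _)]
      exact h4 (Sum.inr ⟨i, by omega⟩) (hpE (i + 1) hi _)
    conv_lhs => rw [eq_nbr hk h11]
    rw [vmap_nbr φ A _ _ (hpE i (by omega)) (hpE (i + 1) hi _), ih (by omega), h13,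
      ← eq_nbr hk h12]

end

end Rk

open Rk in
theorem lrk : LRk := by
  intro K _ _ Ω _ _ k _ hB hk A
  have := hB.closed
  refine ⟨{
    G := grph A Ω
    col := fun v => v.isRight
    m := k
    rk := fun S => trk K (cds S)
    bip := fun v w h => ((adj_iff A v w).1 h).1
    mono := fun S T h => trk_mono (cds_finite T) (cds_mono h)
    submod := fun S T => by
      have h1 := trk_submod (K := K) (cds_finite S) (cds_finite T)
      have h2 := trk_mono (K := K) ((cds_finite S).inter_of_left (cds T)) (cds_inter S T)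
      rw [← cds_union] at h1
      show trk K (cds (S ∪ T)) + trk K (cds (S ∩ T)) ≤ trk K (cds S) + trk K (cds T)
      omega
    vert := fun v => by
      show trk K (cds {v}) ≤ k
      rw [cds_singleton]
      refine (trk_le_ncard (Set.finite_range _)).trans ?_
      have h1 : (co v '' Set.univ).ncard ≤ (Set.univ : Set (Fin k)).ncard := Set.ncard_image_le
      rw [Set.image_univ, Set.ncard_univ, Nat.card_eq_fintype_card, Fintype.card_fin] at h1
      exact h1
    edge := fun S v w hv h => edge_rk hk S v w hv h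
    ext := fun S v hv => ext_rk hk hB A S v hv
    gen := fun c => by
      obtain ⟨t, ht⟩ := hB.inf
      refine ⟨mk c (fun i : Fin k => t i), isRight_mk _ _, ?_⟩
      show trk K (cds {mk c (fun i : Fin k => t i)}) = k
      have h1 : AlgebraicIndependent K (fun i : Fin k => t i) := ht.comp _ Fin.val_injective
      rw [cds_singleton, co_mk, trk_of_algInd h1, Fintype.card_fin]
    hom := fun S T a b b' ha hb hb' h1 h2 hT h3 => hom_rk hk A S T a b b' ha hb hb' h1 h2 hT h3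
    homp := fun n p p' T hp hp' h0 hr hr' hT h3 => homp_rk hk A n p p' T hp hp' h0 hr hr' hT h3
    }, rfl, rfl, fun _ => rfl, fun _ => rfl⟩

end Pool.Agent.H97H
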