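import Pool.Agent.H97G.TwinD
import Pool.Agent.H97H.Defs

/-!
# (G5) Removal of the twins (helper86)
-/

set_option autoImplicit false

namespace Pool.Agent.H97H.Twin

open Pool.Agent.H97G Pool.Agent.H97G.Twin Pool.Agent.H97G.Nb

open MvPolynomial Pool.Agent.H97F Pool.Agent.H97F.GraphPf

variable {K Ω : Type} [Field K] [Field Ω] [Algebra K Ω] {k : ℕ}

/-- twins give a smaller system -/
theorem twin_main [IsAlgClosed K] (hD : LDec) (hk : 2 ≤ k) (A : ADG k K) (s : Bool)
    (z : Fin k) (hz : (z : ℕ) = 0) (y y' x0 : Fin k → Ω) (hy : Rel A s x0 y) (hy' : Rel A s x0 y')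
    (hne : y ≠ y') (hind : AlgebraicIndependent K y)
    (hc : Transcendental (Algebra.adjoin K (Set.range y ∪ Set.range y')) (x0 z))
    (hns : ¬ Split A s hk) : ∃ A' : ADG k K, mu hk A' < mu hk A ∧
      A'.graph.IsContained A.graph := by
  set c := x0 z with hcdef
  set S := Algebra.adjoin K (Set.range y ∪ Set.range y') with hS
  have hz0 : ∀ i : Fin k, (i : ℕ) = 0 → i = z := fun i hi => Fin.ext (hi.trans hz.symm)
  have e1 : x0 = sol A s c y := sol_unique A hy fun i hi => by rw [hz0 i hi]
  have e2 : x0 = sol A s c y' := sol_unique A hy' fun i hi => by rw [hz0 i hi]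
  have e3 : sol A s 0 y = sol A s 0 y' := twin_sol A s y y' c hc (e1.symm.trans e2)
  set q : Fin k → Ω := fun j => - sol A s 0 y j with hq
  have e4 : Yv A s (y z) q = y := Yv_sol A s y z hz
  have e5 : Yv A s (y' z) q = y' := by
    rw [hq, e3]
    exact Yv_sol A s y' z hz
  have hxx : y z ≠ y' z := by
    intro h
    apply hne
    rw [← e4, ← e5, h]
  have e6 : ∀ i, gv A s (y z) c q i = gv A s (y' z) c q i := by
    intro i
    unfold gv Xv
    rw [e4, e5, ← e1, ← e2]
  have hyS : ∀ i, y i ∈ S := fun i => Algebra.subset_adjoin (Or.inl ⟨i, rfl⟩)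
  have hyS' : ∀ i, y' i ∈ S := fun i => Algebra.subset_adjoin (Or.inr ⟨i, rfl⟩)
  -- the coefficients of the first polynomial
  have hU : ∀ j, 1 ≤ j → Polynomial.aeval (y z) ((U A s hk).coeff j) =
      Polynomial.aeval (y' z) ((U A s hk).coeff j) := by
    intro j hj
    have h1 := e6 ⟨1, hk⟩
    rw [gv_one, gv_one] at h1
    have h2 : ∀ a : Ω, Polynomial.aevalAeval a c
        (U A s hk - Polynomial.C ((U A s hk).coeff 0)) = f1v A s hk a c - f1v A s hk a 0 := by
      intro a
      rw [map_sub, ev_U, Polynomial.aevalAeval_C]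
      congr 1
      rw [← ev_U]
      have h3 : ∀ P : Polynomial (Polynomial K), Polynomial.aevalAeval a 0 P =
          Polynomial.aeval a (P.coeff 0) := by
        intro P
        induction P using Polynomial.induction_on' with
        | add p q hp hq => rw [map_add, Polynomial.coeff_add, map_add, hp, hq]
        | monomial n b =>
          rw [← Polynomial.C_mul_X_pow_eq_monomial]
          rcases Nat.eq_zero_or_pos n with rfl | hn
          · simp
          · simp [hn.ne', hn.ne]
      exact (h3 _).symm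
    have h3 := twin_coeff S (y z) (y' z) c (hyS z) (hyS' z) hc
      (U A s hk - Polynomial.C ((U A s hk).coeff 0)) (by rw [h2, h2, h1]) j
    rwa [Polynomial.coeff_sub, Polynomial.coeff_C_of_ne_zero (by omega), sub_zero] at h3
  obtain ⟨j₀, hj₀, hdeg⟩ : ∃ j, 1 ≤ j ∧ 0 < ((U A s hk).coeff j).natDegree := by
    by_contra hcon
    push Not at hcon
    exact hns (split_of_coeff A s hk fun j hj => Nat.le_zero.1 (hcon j hj))
  have htr : Transcendental K (y z) := hind.transcendental z
  -- `y' z` is algebraic over `K (y z)`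
  have halg : IsAlgebraic (Algebra.adjoin K {y z}) (y' z) := by
    set T := Algebra.adjoin K {y z} with hT
    set u := (U A s hk).coeff j₀ with hu
    have hm : Polynomial.aeval (y z) u ∈ T := Polynomial.aeval_mem_adjoin_singleton K _
    refine ⟨u.map (algebraMap K T) - Polynomial.C ⟨_, hm⟩, ?_, ?_⟩
    · intro h0
      have h1 : (u.map (algebraMap K T)).natDegree = 0 := by
        rw [sub_eq_zero.1 h0, Polynomial.natDegree_C]
      rw [Polynomial.natDegree_map_eq_of_injective (algebraMap K T).injective] at h1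
      omega
    · rw [map_sub, Polynomial.aeval_map_algebraMap, Polynomial.aeval_C, ← hU j₀ hj₀]
      exact sub_self _
  have hc' : c ∉ (AlgebraicIndependent.matroid K Ω).closure (Set.range y) := by
    rw [Trk.mem_cl]
    intro h
    refine hc ?_
    have h1 : Algebra.adjoin K (Set.range y) ≤ S := Algebra.adjoin_mono Set.subset_union_left
    exact IsAlgebraic.tower_top_of_subalgebra_le h1 h
  have hfam := indep_fam A s z hz y c hind hc'
  -- the coefficients of all the polynomials
  have hG : ∀ i : Fin k, 0 < (i : ℕ) → ∀ m, Polynomial.aeval (y z)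
      (coeff m (optionEquivRight K (Fin k) (Gp A s z i))) =
      Polynomial.aeval (y' z) (coeff m (optionEquivRight K (Fin k) (Gp A s z i))) := by
    intro i hi m
    refine coeff_eq (y z) (y' z) halg (fun j => if (j : ℕ) = 0 then c else q j) hfam _ ?_ m
    rw [aeval_Gp, aeval_Gp]
    have h1 : ∀ a : Ω, gv A s a (if (z : ℕ) = 0 then c else q z)
        (fun j : Fin k => if (j : ℕ) = 0 then c else q j) i = gv A s a c q i := by
      intro a
      rw [if_pos hz]
      exact gv_congr A s a c i hi fun j hj _ => if_neg (by omega)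
    exact (h1 (y z)).trans ((e6 i).trans (h1 (y' z)).symm)
  -- the decomposition
  obtain ⟨h, hh, hdec⟩ := hD K Ω
    ({l | ∃ i : Fin k, 0 < (i : ℕ) ∧ ∃ m, l = coeff m (optionEquivRight K (Fin k) (Gp A s z i))} ∪
      {l | ∃ j, 1 ≤ j ∧ l = (U A s hk).coeff j}) (y z) (y' z) htr hxx (by
      rintro l (⟨i, hi, m, rfl⟩ | ⟨j, hj, rfl⟩)
      · exact hG i hi m
      · exact hU j hj) ⟨_, Or.inr ⟨j₀, hj₀, rfl⟩, hdeg⟩
  have hex : ∀ i : Fin k, ∃ G, 0 < (i : ℕ) → sbh k h G = Gp A s z i := by
    intro i
    by_cases hi : 0 < (i : ℕ)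
    · obtain ⟨G, hG'⟩ := exists_sbh h (Gp A s z i) fun m => hdec _ (Or.inl ⟨i, hi, m, rfl⟩)
      exact ⟨G, fun _ => hG'⟩
    · exact ⟨0, fun h => absurd h hi⟩
  choose G' hG' using hex
  exact ⟨newA s G', mu_lt hk A (newA s G') s h hh hns fun R _ _ a b =>
    new_f1v A s hk z hz h G' hG' R a b,
    contained A s z hz h (by omega) G' hG'⟩

open Nb

theorem adj_rel (A : ADG k K) {v w : Vx k Ω} (h : (grph A Ω).Adj v w) :
    Rel A v.isRight (co v) (co w) ∧ w.isRight = !v.isRight := by
  rcases v with p | l <;> rcases w with p' | l'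
  · exact h.elim
  · have h1 : (A.map (algebraMap K Ω)).Inc p l' := h
    rw [inc_map_iff] at h1
    exact ⟨rel_symm A (s := true) (s' := false) rfl h1, rfl⟩
  · have h1 : (A.map (algebraMap K Ω)).Inc p' l := h
    rw [inc_map_iff] at h1
    exact ⟨h1, rfl⟩
  · exact h.elim

omit [Field Ω] in
theorem co_inj {v w : Vx k Ω} (h : v.isRight = w.isRight) (h' : co v = co w) : v = w := by
  rcases v with p | l <;> rcases w with p' | l'
  · exact congrArg Sum.inl h'
  · exact absurd h (by simp)
  · exact absurd h (by simp)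
  · exact congrArg Sum.inr h'

theorem exists_path {V : Type} [DecidableEq V] (R : RG V) (n : ℕ) : ∃ p, Gen R p n := by
  induction n with
  | zero =>
    obtain ⟨v, -, hv⟩ := R.gen true
    refine ⟨fun _ => v, fun i hi => absurd hi (by omega), ?_⟩
    rw [vs_zero, hv, add_zero]
  | succ n ih =>
    obtain ⟨p, hp⟩ := ih
    obtain ⟨w, h1, h2⟩ := exists_gen' R (mem_vs_of (p := p) (le_refl n))
    exact ⟨_, hp.of_edge h1 h2⟩

/-- the mixed part of the first polynomial is not zero -/
theorem not_split [DecidableEq (Vx k Ω)] (hk : 2 ≤ k) (A : ADG k K) (R : RG (Vx k Ω))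
    (hG : R.G = grph A Ω) (hm : R.m = k) (hrk : ∀ S, R.rk S = trk K (cds S))
    (hA : ∀ j, 2 ≤ j → j ≤ k → ¬ AA R j) (s : Bool) : ¬ Split A s hk := by
  rintro ⟨u, w, huw⟩
  let z : Fin k := ⟨0, by omega⟩
  let o : Fin k := ⟨1, hk⟩
  have hzo : z ≠ o := fun h => absurd (congrArg Fin.val h) (by simp [z, o])
  let κ : Vx k Ω → Ω := fun v => if v.isRight = s then co v o - Polynomial.aeval (co v z) w
    else Polynomial.aeval (co v z) u - co v o
  have hκ0 : ∀ v w, (grph A Ω).Adj v w → v.isRight = s → κ v = κ w := by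
    intro v w' h hv
    obtain ⟨h1, h2⟩ := adj_rel A h
    have e1 : κ v = co v o - Polynomial.aeval (co v z) w := if_pos hv
    have e2 : κ w' = Polynomial.aeval (co w' z) u - co w' o := if_neg (by
      rw [h2, hv]
      cases s <;> simp)
    have h3 := h1 o Nat.one_pos
    have h4 : aeval (fun v_1 : Fin o × Bool => if v_1.2 = v.isRight then
        co v (v_1.1.castLE o.isLt.le) else co w' (v_1.1.castLE o.isLt.le)) (A.f o) =
        f1v A s hk (co w' z) (co v z) := by
      unfold f1v
      congr 2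
      funext u'
      have hu : (u'.1.castLE o.isLt.le : Fin k) = z := by
        apply Fin.ext
        have := u'.1.isLt
        show (u'.1 : ℕ) = 0
        have h5 : (u'.1 : ℕ) < 1 := this
        omega
      rw [hv]
      simp only [hu]
    rw [h4, huw] at h3
    rw [e1, e2]
    linear_combination h3
  have hκ : ∀ v w, (grph A Ω).Adj v w → κ v = κ w := by
    intro v w' h
    by_cases hv : v.isRight = s
    · exact hκ0 v w' h hv
    · refine (hκ0 w' v h.symm ?_).symm
      rw [(adj_rel A h).2]
      cases hs : s <;> cases hv' : v.isRight <;> simp_all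
  obtain ⟨p, hp⟩ := exists_path R k
  have hends := hp.rk_ends hA le_rfl
  have hconst : ∀ i, i ≤ k → κ (p i) = κ (p 0) := by
    intro i
    induction i with
    | zero => exact fun _ => rfl
    | succ i ih =>
      intro hi
      have h1 := hp.1 i (by omega)
      rw [hG] at h1
      rw [← hκ _ _ h1]
      exact ih (by omega)
  rw [hrk, hm] at hends
  let Y : (Fin k ⊕ {j : Fin k // j ≠ o}) → Ω := Sum.elim (co (p 0)) fun j => co (p k) j
  have hY : trk K (Set.range Y) ≤ 2 * k - 1 := by
    refine (Trk.trk_le_card Y).trans ?_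
    rw [Fintype.card_sum, Fintype.card_fin, Fintype.card_subtype_compl, Fintype.card_fin,
      Fintype.card_subtype_eq]
    omega
  have hY0 : ∀ i, co (p 0) i ∈ Algebra.adjoin K (Set.range Y) := fun i =>
    Algebra.subset_adjoin ⟨Sum.inl i, rfl⟩
  have hYk : ∀ i, i ≠ o → co (p k) i ∈ Algebra.adjoin K (Set.range Y) := fun i hi =>
    Algebra.subset_adjoin ⟨Sum.inr ⟨i, hi⟩, rfl⟩
  have hpol : ∀ (a : Ω) (g : Polynomial K), a ∈ Algebra.adjoin K (Set.range Y) →
      Polynomial.aeval a g ∈ Algebra.adjoin K (Set.range Y) := by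
    intro a g ha
    have h4 : Algebra.adjoin K {a} ≤ Algebra.adjoin K (Set.range Y) :=
      Algebra.adjoin_le (Set.singleton_subset_iff.2 ha)
    exact h4 (Polynomial.aeval_mem_adjoin_singleton K a)
  have hκm : κ (p 0) ∈ Algebra.adjoin K (Set.range Y) := by
    show (if (p 0).isRight = s then co (p 0) o - Polynomial.aeval (co (p 0) z) w
      else Polynomial.aeval (co (p 0) z) u - co (p 0) o) ∈ _
    split_ifs
    · exact sub_mem (hY0 o) (hpol _ _ (hY0 z))
    · exact sub_mem (hpol _ _ (hY0 z)) (hY0 o)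
  have hlast : co (p k) o ∈ Algebra.adjoin K (Set.range Y) := by
    have h1 := hconst k le_rfl
    by_cases hv : (p k).isRight = s
    · have e1 : κ (p k) = co (p k) o - Polynomial.aeval (co (p k) z) w := if_pos hv
      have e2 : co (p k) o = κ (p 0) + Polynomial.aeval (co (p k) z) w := by
        rw [← h1, e1]
        ring
      rw [e2]
      exact add_mem hκm (hpol _ _ (hYk z hzo))
    · have e1 : κ (p k) = Polynomial.aeval (co (p k) z) u - co (p k) o := if_neg hv
      have e2 : co (p k) o = Polynomial.aeval (co (p k) z) u - κ (p 0) := by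
        rw [← h1, e1]
        ring
      rw [e2]
      exact sub_mem (hpol _ _ (hYk z hzo)) hκm
  have hle : trk K (cds {p 0, p k}) ≤ trk K (Set.range Y) := by
    refine Trk.trk_mono_adjoin (Set.finite_range _) ?_
    rintro a ⟨v, hv, i, rfl⟩
    rcases Finset.mem_insert.1 hv with rfl | hv
    · exact hY0 i
    · rw [Finset.mem_singleton] at hv
      subst hv
      by_cases hi : i = o
      · rw [hi]
        exact hlast
      · exact hYk i hi
  omega

end Pool.Agent.H97H.Twin

namespace Pool.Agent.H97H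

open Pool.Agent.H97G Pool.Agent.H97G.Twin Pool.Agent.H97G.Nb

open MvPolynomial Pool.Agent.H97F Pool.Agent.H97F.GraphPf Twin Nb

/-- **(G5)** -/
theorem lTwin : LTwin := by
  intro hD K _ _ Ω _ _ k _ hBig hk
  refine ⟨mu hk, ?_⟩
  rintro A R hG hm hcol hrk hA ⟨p, hp⟩
  let z : Fin k := ⟨0, by omega⟩
  have hgen : Gen R p 1 := hp.gen
  have h01 : (grph A Ω).Adj (p 0) (p 1) := by
    have := hp.1 0 (by omega)
    rwa [hG] at this
  have h12 : (grph A Ω).Adj (p 1) (p 2) := by
    have := hp.1 1 (by omega)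
    rwa [hG] at this
  obtain ⟨hr0, hc0⟩ := adj_rel A h01.symm
  obtain ⟨hr2, hc2⟩ := adj_rel A h12
  have hne : co (p 0) ≠ co (p 2) := by
    intro h
    have h1 : p 0 = p 2 := co_inj (hc0.trans hc2.symm) h
    have h2 := hp.2.1 (show (0 : ℕ) ∈ Set.Iic 2 by simp) (show (2 : ℕ) ∈ Set.Iic 2 by simp) h1
    omega
  have hfin : ∀ T : Finset (Vx k Ω), (cds T).Finite := by
    intro T
    have h1 : cds T ⊆ ⋃ v ∈ T, Set.range (co v) := by
      rintro a ⟨v, hv, i, rfl⟩
      exact Set.mem_biUnion hv ⟨i, rfl⟩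
    exact (Set.Finite.biUnion T.finite_toSet fun v _ => Set.finite_range _).subset h1
  have hind : AlgebraicIndependent K (co (p 0)) := by
    apply Trk.indep_of_trk_range
    have h1 := hgen.vert (i := 0) (by omega)
    rw [hrk, hm] at h1
    rw [Fintype.card_fin]
    refine h1.ge.trans (Trk.trk_mono (Set.finite_range _) ?_)
    rintro a ⟨v, hv, i, rfl⟩
    rw [Finset.mem_singleton] at hv
    subst hv
    exact ⟨i, rfl⟩
  have hc : Transcendental (Algebra.adjoin K (Set.range (co (p 0)) ∪ Set.range (co (p 2))))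
      (co (p 1) z) := by
    intro hcon
    apply hp.2.2.2
    show R.rk (insert (p 1) {p 0, p 2}) = R.rk {p 0, p 2}
    refine le_antisymm ?_ (R.mono _ _ (Finset.subset_insert _ _))
    rw [hrk, hrk]
    refine Trk.trk_mono_cl (hfin _) ?_
    have hX : Set.range (co (p 0)) ∪ Set.range (co (p 2)) ⊆ cds {p 0, p 2} := by
      rintro a (⟨i, rfl⟩ | ⟨i, rfl⟩)
      · exact ⟨p 0, by simp, i, rfl⟩
      · exact ⟨p 2, by simp, i, rfl⟩
    have hc1 : co (p 1) z ∈ (AlgebraicIndependent.matroid K Ω).closure (cds {p 0, p 2}) := by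
      have h1 := Trk.mem_cl.2 hcon
      exact (AlgebraicIndependent.matroid K Ω).closure_subset_closure hX h1
    rintro a ⟨v, hv, i, rfl⟩
    rcases Finset.mem_insert.1 hv with rfl | hv
    · rw [← Matroid.closure_insert_eq_of_mem_closure hc1]
      apply Trk.adjoin_cl
      have h1 := (adj_iff A (i := z) rfl).1 h01
      have h2 := co_nb_mem A (p 0) (co (p 1) z) (insert (co (p 1) z) (cds {p 0, p 2}))
        (Algebra.subset_adjoin (Set.mem_insert _ _))
        (fun i => Algebra.subset_adjoin (Set.mem_insert_of_mem _ (hX (Or.inl ⟨i, rfl⟩)))) i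
      rw [← h1] at h2
      exact h2
    · exact Trk.subset_cl _ ⟨v, hv, i, rfl⟩
  exact twin_main hD hk A (p 1).isRight z rfl (co (p 0)) (co (p 2)) (co (p 1)) hr0 hr2 hne hind hc
    (not_split hk A R hG hm hrk hA _)

end Pool.Agent.H97H
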