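import Pool.Agent.H97H.Defs

/-!
# Special vertices (piece LZ)
-/

set_option autoImplicit false

namespace Pool.Agent.H97H

open Pool.Agent.H97G

open MvPolynomial Pool.Agent.H97F

namespace Z

/-! ### The polynomials of the neighbours -/

/-- incidence, without colours -/
def IncS {k : ℕ} {K : Type} [Field K] (A : ADG k K) {F : Type} [Field F] [Algebra K F] (σ : Bool)
    (x y : Fin k → F) : Prop :=
  ∀ i : Fin k, 0 < (i : ℕ) → x i + y i =
    aeval (fun v : Fin i × Bool => (if v.2 = σ then x else y) (v.1.castLE i.isLt.le)) (A.f i)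

theorem inc_false {k : ℕ} {K : Type} [Field K] (A : ADG k K) {F : Type} [Field F] [Algebra K F]
    (p l : Fin k → F) : (A.map (algebraMap K F)).Inc p l ↔ IncS A false p l := by
  unfold ADG.Inc IncS ADG.map
  refine forall_congr' fun i => forall_congr' fun _ => ?_
  rw [MvPolynomial.eval_map, MvPolynomial.aeval_def]
  have : (fun v : Fin i × Bool => (if v.2 = true then l else p) (v.1.castLE i.isLt.le)) =
      (fun v : Fin i × Bool => (if v.2 = false then p else l) (v.1.castLE i.isLt.le)) := by
    funext v
    rcases v with ⟨a, b⟩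
    cases b <;> simp
  rw [this]

theorem incS_swap {k : ℕ} {K : Type} [Field K] (A : ADG k K) {F : Type} [Field F] [Algebra K F]
    (x y : Fin k → F) : IncS A false x y ↔ IncS A true y x := by
  unfold IncS
  refine forall_congr' fun i => forall_congr' fun _ => ?_
  have : (fun v : Fin i × Bool => (if v.2 = true then y else x) (v.1.castLE i.isLt.le)) =
      (fun v : Fin i × Bool => (if v.2 = false then x else y) (v.1.castLE i.isLt.le)) := by
    funext v
    rcases v with ⟨a, b⟩
    cases b <;> simp
  rw [this, add_comm]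

/-- the coordinates of the neighbour as polynomials -/
noncomputable def nbP {k : ℕ} {K : Type} [Field K] (A : ADG k K) (σ : Bool) (i : Fin k) :
    MvPolynomial (Option (Fin k)) K :=
  if 0 < (i : ℕ) then
    aeval (fun v : Fin i × Bool => if v.2 = σ then X (some (v.1.castLE i.isLt.le)) else
      nbP A σ (v.1.castLE i.isLt.le)) (A.f i) - X (some i)
  else X none
termination_by (i : ℕ)
decreasing_by exact v.1.isLt

theorem aeval_nbP {k : ℕ} {K : Type} [Field K] (A : ADG k K) (σ : Bool) {F : Type} [Field F]
    [Algebra K F] (z : Option (Fin k) → F) :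
    IncS A σ (fun i => z (some i)) (fun i => aeval z (nbP A σ i)) ∧
      ∀ i : Fin k, (i : ℕ) = 0 → aeval z (nbP A σ i) = z none := by
  constructor
  · intro i hi
    simp only
    rw [nbP, if_pos hi, map_sub, aeval_X, add_sub_cancel]
    rw [← AlgHom.comp_apply, MvPolynomial.comp_aeval]
    congr 2
    funext v
    split_ifs <;> simp
  · intro i hi
    rw [nbP, if_neg (by omega), aeval_X]

theorem incS_unique {k : ℕ} {K : Type} [Field K] (A : ADG k K) (σ : Bool) {F : Type} [Field F]
    [Algebra K F] (x y y' : Fin k → F) (h : IncS A σ x y) (h' : IncS A σ x y')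
    (h0 : ∀ i : Fin k, (i : ℕ) = 0 → y i = y' i) : y = y' := by
  have key : ∀ n : ℕ, ∀ i : Fin k, (i : ℕ) = n → y i = y' i := by
    intro n
    induction n using Nat.strong_induction_on with
    | _ n ih =>
      intro i hi
      rcases Nat.eq_zero_or_pos n with rfl | hn
      · exact h0 i hi
      · have h1 := h i (by omega)
        have h2 := h' i (by omega)
        have e : (fun v : Fin i × Bool => (if v.2 = σ then x else y) (v.1.castLE i.isLt.le)) =
            (fun v : Fin i × Bool => (if v.2 = σ then x else y') (v.1.castLE i.isLt.le)) := by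
          funext v
          split_ifs
          · rfl
          · exact ih (v.1 : ℕ) (by have := v.1.isLt; omega) _ rfl
        rw [e, ← h2] at h1
        exact add_left_cancel h1
  funext i
  exact key _ i rfl

theorem nbP_eq {k : ℕ} {K : Type} [Field K] (A : ADG k K) (σ : Bool) {F : Type} [Field F]
    [Algebra K F] (hk : 0 < k) (x y : Fin k → F) (h : IncS A σ x y) (i : Fin k) :
    aeval (fun o : Option (Fin k) => o.elim (y ⟨0, hk⟩) x) (nbP A σ i) = y i := by
  obtain ⟨h1, h2⟩ := aeval_nbP A σ (fun o : Option (Fin k) => o.elim (y ⟨0, hk⟩) x)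
  have := incS_unique A σ x y _ h h1 (by
    intro i hi
    rw [h2 i hi]
    have : i = ⟨0, hk⟩ := Fin.ext hi
    rw [this]
    rfl)
  exact (congrFun this i).symm

/-! ### Ranks -/

section Ranks

variable {K Ω : Type} [Field K] [Field Ω] [Algebra K Ω]

theorem eRk_ne_top {X : Set Ω} (hX : X.Finite) :
    (AlgebraicIndependent.matroid K Ω).eRk X ≠ ⊤ := by
  have := (AlgebraicIndependent.matroid K Ω).eRk_le_encard X
  have h2 := hX.encard_lt_top
  exact ne_of_lt (lt_of_le_of_lt this h2)

theorem trk_mono_cl {X Y : Set Ω} (hY : Y.Finite)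
    (h : X ⊆ (AlgebraicIndependent.matroid K Ω).closure Y) : trk K X ≤ trk K Y := by
  unfold trk
  have h1 : (AlgebraicIndependent.matroid K Ω).eRk X ≤
      (AlgebraicIndependent.matroid K Ω).eRk Y := by
    rw [← (AlgebraicIndependent.matroid K Ω).eRk_closure_eq Y]
    exact (AlgebraicIndependent.matroid K Ω).eRk_mono h
  exact ENat.toNat_le_toNat h1 (eRk_ne_top hY)

theorem mem_cl_of_adjoin {Y : Set Ω} {x : Ω} (h : x ∈ Algebra.adjoin K Y) :
    x ∈ (AlgebraicIndependent.matroid K Ω).closure Y := by
  rw [AlgebraicIndependent.matroid_closure_eq]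
  show x ∈ (Subalgebra.algebraicClosure (Algebra.adjoin K Y) Ω)
  rw [Subalgebra.mem_algebraicClosure]
  exact isAlgebraic_algebraMap (⟨x, h⟩ : Algebra.adjoin K Y)

theorem trk_of_indep {ι : Type} [Fintype ι] {y : ι → Ω} (h : AlgebraicIndependent K y) :
    trk K (Set.range y) = Fintype.card ι := by
  classical
  unfold trk
  have hi : (AlgebraicIndependent.matroid K Ω).Indep (Set.range y) := by
    rw [AlgebraicIndependent.matroid_indep_iff]
    exact (algebraicIndependent_subtype_range h.injective).2 h
  rw [hi.eRk_eq_encard, ← Set.image_univ, Set.InjOn.encard_image (h.injective.injOn)]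
  simp

theorem indep_of_trk {ι : Type} [Fintype ι] {y : ι → Ω}
    (h : trk K (Set.range y) = Fintype.card ι) : AlgebraicIndependent K y := by
  classical
  have hfin : (Set.range y).Finite := Set.finite_range y
  have h1 : ((Fintype.card ι : ℕ) : ℕ∞) = (AlgebraicIndependent.matroid K Ω).eRk (Set.range y) := by
    rw [← h]
    unfold trk
    exact ENat.natCast_toNat (eRk_ne_top hfin)
  have h2 := (AlgebraicIndependent.matroid K Ω).eRk_le_encard (Set.range y)
  have h3 : (Set.range y).encard ≤ (Fintype.card ι : ℕ) := by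
    rw [← Set.image_univ]
    refine (Set.encard_image_le y Set.univ).trans ?_
    simp
  have h4 : (AlgebraicIndependent.matroid K Ω).eRk (Set.range y) = (Set.range y).encard := by
    apply le_antisymm h2
    rw [← h1]
    exact h3
  have h5 : (AlgebraicIndependent.matroid K Ω).Indep (Set.range y) := by
    rw [Matroid.indep_iff_eRk_eq_encard_of_finite hfin]
    exact h4
  have h6 : Function.Injective y := by
    have : (Set.range y).ncard = Fintype.card ι := by
      have h7 : (Set.range y).encard = (Fintype.card ι : ℕ) := by rw [← h4, ← h1]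
      rw [Set.ncard_def, h7]
      rfl
    rw [← Set.image_univ] at this
    have h8 : (y '' Set.univ).ncard = (Set.univ : Set ι).ncard := by
      rw [this, Set.ncard_univ, Nat.card_eq_fintype_card]
    have h9 := (Set.ncard_image_iff (Set.finite_univ)).1 h8
    exact Set.injOn_univ.1 h9
  rw [AlgebraicIndependent.matroid_indep_iff] at h5
  exact (algebraicIndependent_subtype_range h6).1 h5

end Ranks

/-! ### Divisibility -/

section Div

variable {K Ω : Type} [Field K] [Field Ω] [Algebra K Ω]

theorem irr_rename {ι : Type} {q : MvPolynomial ι K} (h : Irreducible q) :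
    Irreducible (rename some q : MvPolynomial (Option ι) K) := by
  have e : optionEquivLeft K ι (rename some q) = Polynomial.C q := by
    have h1 : ((optionEquivLeft K ι : MvPolynomial (Option ι) K →ₐ[K]
        Polynomial (MvPolynomial ι K)).comp (rename some)) =
        (Polynomial.CAlgHom : MvPolynomial ι K →ₐ[K] Polynomial (MvPolynomial ι K)) := by
      apply MvPolynomial.algHom_ext
      intro i
      simp [optionEquivLeft_X_some]
    exact DFunLike.congr_fun h1 q
  rw [← MulEquiv.irreducible_iff (optionEquivLeft K ι), e]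
  exact (Polynomial.prime_C_iff.2 h.prime).irreducible

theorem dv (hcop : LCop) {k : ℕ} (hk : 0 < k) (A : ADG k K) (σ : Bool) (x y : Fin k → Ω)
    (h : IncS A σ x y) (q q' : MvPolynomial (Fin k) K) (hq : Irreducible q)
    (hqx : aeval x q = 0) (hqy : aeval y q' = 0)
    (hr : k ≤ trk K (Set.range x ∪ Set.range y)) :
    ∃ w, bind₁ (nbP A σ) q' = rename some q * w := by
  by_contra hno
  have hnd : ¬ (rename some q : MvPolynomial (Option (Fin k)) K) ∣ bind₁ (nbP A σ) q' := by
    rintro ⟨w, hw⟩
    exact hno ⟨w, hw⟩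
  have hrel := ((irr_rename hq).isRelPrime_iff_not_dvd).2 hnd
  set z : Option (Fin k) → Ω := fun o => o.elim (y ⟨0, hk⟩) x with hz
  have h1 : aeval z (rename some q) = 0 := by
    rw [aeval_rename]
    exact hqx
  have hy : ∀ i, aeval z (nbP A σ i) = y i := fun i => nbP_eq A σ hk x y h i
  have h2 : aeval z (bind₁ (nbP A σ) q') = 0 := by
    rw [aeval_bind₁]
    have : (fun i => aeval z (nbP A σ i)) = y := funext hy
    rw [this]
    exact hqy
  have h3 := hcop K Ω (Option (Fin k)) _ _ hrel z h1 h2
  have h4 : trk K (Set.range x ∪ Set.range y) ≤ trk K (Set.range z) := by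
    refine trk_mono_cl (Set.finite_range z) ?_
    rintro v (⟨i, rfl⟩ | ⟨i, rfl⟩)
    · exact mem_cl_of_adjoin (Algebra.subset_adjoin ⟨some i, rfl⟩)
    · rw [← hy i]
      apply mem_cl_of_adjoin
      rw [Algebra.adjoin_range_eq_range_aeval]
      exact ⟨_, rfl⟩
  rw [Fintype.card_option, Fintype.card_fin] at h3
  omega

/-- the polynomials of the two special vertices are proportional along the edges -/
theorem prop (hcop : LCop) [Infinite K] {k : ℕ} (hk : 0 < k) (A : ADG k K) (x y : Fin k → Ω)
    (h : IncS A false x y) (q q' : MvPolynomial (Fin k) K) (hq : Irreducible q)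
    (hq' : Irreducible q') (hqx : aeval x q = 0) (hqy : aeval y q' = 0)
    (hr : k ≤ trk K (Set.range x ∪ Set.range y)) :
    ∃ c : K, c ≠ 0 ∧ ∀ u v : Fin k → Ω, IncS A false u v →
      aeval v q' = algebraMap K Ω c * aeval u q := by
  obtain ⟨w, hw⟩ := dv hcop hk A false x y h q q' hq hqx hqy hr
  obtain ⟨w', hw'⟩ := dv hcop hk A true y x ((incS_swap A x y).1 h) q' q hq' hqy hqx
    (by rwa [Set.union_comm])
  -- the two relations at incident pairs over any field
  have r1 : ∀ (F : Type) [Field F] [Algebra K F] (u v : Fin k → F), IncS A false u v →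
      aeval v q' = aeval u q * aeval (fun o : Option (Fin k) => o.elim (v ⟨0, hk⟩) u) w := by
    intro F _ _ u v huv
    have := congrArg (aeval (fun o : Option (Fin k) => o.elim (v ⟨0, hk⟩) u)) hw
    rw [aeval_bind₁, map_mul, aeval_rename] at this
    have e : (fun i => aeval (fun o : Option (Fin k) => o.elim (v ⟨0, hk⟩) u) (nbP A false i)) = v :=
      funext fun i => nbP_eq A false hk u v huv i
    rw [e] at this
    exact this
  have r2 : ∀ (F : Type) [Field F] [Algebra K F] (u v : Fin k → F), IncS A false u v →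
      aeval u q = aeval v q' * aeval (fun o : Option (Fin k) => o.elim (u ⟨0, hk⟩) v) w' := by
    intro F _ _ u v huv
    have := congrArg (aeval (fun o : Option (Fin k) => o.elim (u ⟨0, hk⟩) v)) hw'
    rw [aeval_bind₁, map_mul, aeval_rename] at this
    have e : (fun i => aeval (fun o : Option (Fin k) => o.elim (u ⟨0, hk⟩) v) (nbP A true i)) = u :=
      funext fun i => nbP_eq A true hk v u ((incS_swap A u v).1 huv) i
    rw [e] at this
    exact this
  set g : Option (Fin k) → MvPolynomial (Option (Fin k)) K :=
    fun o => o.elim (X (some ⟨0, hk⟩)) (nbP A false) with hg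
  have hmul : rename some q * (w * bind₁ g w' - 1) = 0 := by
    apply MvPolynomial.funext
    intro z
    have hz := aeval_nbP A false (F := K) z
    have a1 := r1 K _ _ hz.1
    have a2 := r2 K _ _ hz.1
    have e1 : (fun o : Option (Fin k) => o.elim (aeval z (nbP A false ⟨0, hk⟩))
        (fun i => z (some i))) = z := by
      funext o
      cases o with
      | none => exact hz.2 _ rfl
      | some i => rfl
    have e2 : (fun o : Option (Fin k) => o.elim (z (some ⟨0, hk⟩))
        (fun i => aeval z (nbP A false i))) = fun o => aeval z (g o) := by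
      funext o
      cases o with
      | none => simp [hg]
      | some i => rfl
    rw [e1] at a1
    rw [e2] at a2
    have e3 : aeval z (rename some q) = aeval (fun i => z (some i)) q := by
      rw [aeval_rename]; rfl
    rw [map_zero, ← MvPolynomial.coe_aeval_eq_eval]
    show aeval z _ = 0
    rw [map_mul, map_sub, map_mul, map_one, e3, aeval_bind₁]
    rw [a1] at a2
    linear_combination -a2
  have hne : (rename some q : MvPolynomial (Option (Fin k)) K) ≠ 0 := (irr_rename hq).ne_zero
  have hunit : w * bind₁ g w' = 1 := by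
    rcases mul_eq_zero.1 hmul with h0 | h0
    · exact absurd h0 hne
    · exact sub_eq_zero.1 h0
  have hu : IsUnit w := IsUnit.of_mul_eq_one _ hunit
  rw [MvPolynomial.isUnit_iff_eq_C_of_isReduced] at hu
  obtain ⟨c, hc, rfl⟩ := hu
  refine ⟨c, hc.ne_zero, fun u v huv => ?_⟩
  rw [r1 Ω u v huv, aeval_C, mul_comm]

end Div

/-! ### Generic paths -/

section Paths

variable {V : Type} [DecidableEq V]

theorem vs_succ (p : ℕ → V) (n : ℕ) : vs p (n + 1) = insert (p (n + 1)) (vs p n) := by
  unfold vs
  rw [Finset.range_add_one (n := n + 1), Finset.image_insert]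

theorem mem_vs (p : ℕ → V) {i n : ℕ} (h : i ≤ n) : p i ∈ vs p n :=
  Finset.mem_image_of_mem _ (Finset.mem_range.2 (by omega))

theorem cl_mono (R : RG V) {S T : Finset V} {v : V} (hST : S ⊆ T) (h : Cl R.rk S v) :
    Cl R.rk T v := by
  unfold Cl at *
  by_cases hv : v ∈ T
  · rw [Finset.insert_eq_of_mem hv]
  have h1 := R.submod (insert v S) T
  have h2 : insert v S ∪ T = insert v T := by
    rw [Finset.insert_union, Finset.union_eq_right.2 hST]
  have h3 : insert v S ∩ T = S := by
    rw [Finset.insert_inter_of_notMem hv, Finset.inter_eq_left.2 hST]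
  rw [h2, h3] at h1
  have h4 := R.mono _ _ (Finset.subset_insert v T)
  omega

/-- adding elements of the closure does not change the rank -/
theorem rk_union (R : RG V) (S T : Finset V) (h : ∀ v ∈ T, Cl R.rk S v) :
    R.rk (S ∪ T) = R.rk S := by
  induction T using Finset.induction_on with
  | empty => simp
  | insert v T hv ih =>
    have h1 := ih fun w hw => h w (Finset.mem_insert_of_mem hw)
    have h2 := cl_mono R (Finset.subset_union_left (s₂ := T)) (h v (Finset.mem_insert_self _ _))
    unfold Cl at h2
    rw [Finset.union_insert, h2, h1]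

theorem cl_trans (R : RG V) {S T : Finset V} {v : V} (h : ∀ w ∈ T, Cl R.rk S w)
    (hv : Cl R.rk T v) : Cl R.rk S v := by
  have h1 := rk_union R S T h
  have h2 := cl_mono R (Finset.subset_union_right (s₁ := S)) hv
  unfold Cl at h2 ⊢
  have h3 := R.mono (insert v S) (insert v (S ∪ T))
    (Finset.insert_subset_insert _ Finset.subset_union_left)
  have h4 := R.mono _ _ (Finset.subset_insert v S)
  omega

theorem cl_self (R : RG V) {S : Finset V} {v : V} (h : v ∈ S) : Cl R.rk S v := by
  unfold Cl
  rw [Finset.insert_eq_of_mem h]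

theorem exists_gen (R : RG V) (c : Bool) (n : ℕ) : ∃ p, Gen R p n ∧ R.col (p 0) = c := by
  classical
  obtain ⟨v₀, hc, hv₀⟩ := R.gen c
  choose! nx hnx using fun (S : Finset V) (v : V) (hv : v ∈ S) => R.ext S v hv
  -- the sequence of the pairs (set, last vertex)
  let st : ℕ → Finset V × V := fun n => Nat.rec ({v₀}, v₀) (fun _ s => (insert (nx s.1 s.2) s.1,
    nx s.1 s.2)) n
  have hst : ∀ n, st (n + 1) = (insert (nx (st n).1 (st n).2) (st n).1, nx (st n).1 (st n).2) :=
    fun n => rfl
  have hmem : ∀ n, (st n).2 ∈ (st n).1 := by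
    intro n
    cases n with
    | zero => simp [st]
    | succ n => rw [hst]; simp
  have hvs : ∀ n, vs (fun i => (st i).2) n = (st n).1 := by
    intro n
    induction n with
    | zero => simp [vs, st]
    | succ n ih => rw [vs_succ, ih, hst]
  refine ⟨fun i => (st i).2, ⟨?_, ?_⟩, hc⟩
  · intro i _
    simp only [hst i]
    exact (hnx (st i).1 (st i).2 (hmem i)).1
  · rw [hvs]
    clear hvs
    induction n with
    | zero => simp [st, hv₀]
    | succ n ih =>
      rw [hst]
      simp only
      rw [(hnx (st n).1 (st n).2 (hmem n)).2, ih]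
      omega

theorem gen_prefix (R : RG V) {p : ℕ → V} {n : ℕ} (h : Gen R p n) : ∀ j, j ≤ n → Gen R p j := by
  intro j hj
  obtain ⟨d, rfl⟩ := Nat.exists_eq_add_of_le hj
  induction d with
  | zero => exact h
  | succ d ih =>
    apply ih _ (by omega)
    refine ⟨fun i hi => h.1 i (by omega), ?_⟩
    have h1 : R.rk (vs p (j + (d + 1))) = R.m + (j + (d + 1)) := h.2
    rw [show j + (d + 1) = (j + d) + 1 by ring, vs_succ] at h1
    have h2 := R.edge (vs p (j + d)) (p (j + d)) (p (j + d + 1)) (mem_vs p le_rfl)
      (h.1 (j + d) (by omega))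
    -- upper bound
    have h3 : ∀ e, e ≤ j + d → R.rk (vs p e) ≤ R.m + e := by
      intro e
      induction e with
      | zero =>
        intro _
        have := R.vert (p 0)
        simpa [vs] using this
      | succ e ihe =>
        intro he
        rw [vs_succ]
        have h4 := R.edge (vs p e) (p e) (p (e + 1)) (mem_vs p le_rfl) (h.1 e (by omega))
        have h5 := ihe (by omega)
        omega
    have h6 := h3 (j + d) le_rfl
    omega

theorem rk_ends (R : RG V) {k : ℕ} (hA : ∀ j, 2 ≤ j → j ≤ k → ¬ AA R j) {p : ℕ → V}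
    (h : Gen R p k) (hk : 1 ≤ k) : R.rk {p 0, p k} = R.m + k := by
  have key : ∀ d i, i + d = k → Cl R.rk {p 0, p k} (p i) := by
    intro d
    induction d with
    | zero =>
      intro i hi
      have : i = k := by omega
      subst this
      exact cl_self R (by simp)
    | succ d ih =>
      intro i hi
      rcases Nat.eq_zero_or_pos i with rfl | hi0
      · exact cl_self R (by simp)
      have h1 := ih (i + 1) (by omega)
      have h2 : Cl R.rk {p 0, p (i + 1)} (p (i + 1 - 1)) := by
        by_contra hno
        exact hA (i + 1) (by omega) (by omega) ⟨p, gen_prefix R h (i + 1) (by omega), hno⟩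
      rw [Nat.add_sub_cancel] at h2
      refine cl_trans R ?_ h2
      intro w hw
      simp only [Finset.mem_insert, Finset.mem_singleton] at hw
      rcases hw with rfl | rfl
      · exact cl_self R (by simp)
      · exact h1
  have h1 := rk_union R {p 0, p k} (vs p k) (by
    intro v hv
    obtain ⟨i, hi, rfl⟩ := Finset.mem_image.1 hv
    exact key (k - i) i (by have := Finset.mem_range.1 hi; omega))
  have h2 : ({p 0, p k} : Finset V) ∪ vs p k = vs p k := by
    apply Finset.union_eq_right.2
    intro w hw
    simp only [Finset.mem_insert, Finset.mem_singleton] at hw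
    rcases hw with rfl | rfl
    · exact mem_vs p (by omega)
    · exact mem_vs p le_rfl
  rw [h2, h.2] at h1
  exact h1.symm

end Paths

/-! ### The end of the proof -/

section Final

variable {K Ω : Type} [Field K] [Field Ω] [Algebra K Ω]

theorem exists_irr {k : ℕ} {x : Fin k → Ω} (h : trk K (Set.range x) ≠ k) :
    ∃ q : MvPolynomial (Fin k) K, Irreducible q ∧ aeval x q = 0 := by
  have hni : ¬ AlgebraicIndependent K x := fun hi => h (by
    rw [trk_of_indep hi, Fintype.card_fin])
  rw [algebraicIndependent_iff] at hni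
  push Not at hni
  obtain ⟨q0, hq0, hne⟩ := hni
  obtain ⟨f, hf, hfa⟩ := UniqueFactorizationMonoid.exists_prime_factors q0 hne
  have h1 : aeval x f.prod = 0 := by
    obtain ⟨u, hu⟩ := hfa.symm
    rw [← hu, map_mul, hq0, zero_mul]
  rw [map_multiset_prod, Multiset.prod_eq_zero_iff] at h1
  obtain ⟨b, hb, hb0⟩ := Multiset.mem_map.1 h1
  exact ⟨b, (hf b hb).irreducible, hb0⟩

theorem cds_single {k : ℕ} {F : Type} (v : Vx k F) :
    cds ({v} : Finset (Vx k F)) = Set.range (Sum.elim id id v : Fin k → F) := by
  ext x
  simp only [cds, Finset.mem_singleton, exists_eq_left, Set.mem_ofPred_eq, Set.mem_range]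
  exact exists_congr fun i => eq_comm

theorem cds_pair {k : ℕ} {F : Type} [DecidableEq (Vx k F)] (u v : Vx k F) :
    cds ({u, v} : Finset (Vx k F)) = Set.range (Sum.elim id id u : Fin k → F) ∪
      Set.range (Sum.elim id id v : Fin k → F) := by
  ext x
  simp only [cds, Finset.mem_insert, Finset.mem_singleton, Set.mem_ofPred_eq, Set.mem_union,
    Set.mem_range]
  constructor
  · rintro ⟨w, rfl | rfl, i, rfl⟩
    · exact Or.inl ⟨i, rfl⟩
    · exact Or.inr ⟨i, rfl⟩
  · rintro (⟨i, rfl⟩ | ⟨i, rfl⟩)
    · exact ⟨u, Or.inl rfl, i, rfl⟩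
    · exact ⟨v, Or.inr rfl, i, rfl⟩

theorem aux (hcop : LCop) [IsAlgClosed K] {k : ℕ} [DecidableEq (Vx k Ω)] (hk : 2 ≤ k)
    (A : ADG k K) (R : RG (Vx k Ω)) (hG : R.G = grph A Ω) (hm : R.m = k)
    (hrk : ∀ S, R.rk S = trk K (cds S)) (hA : ∀ j, 2 ≤ j → j ≤ k → ¬ AA R j)
    (p l : Fin k → Ω) (hadj : R.G.Adj (Sum.inl p) (Sum.inr l))
    (ha : R.rk {Sum.inl p} = k - 1) (hb : R.rk {Sum.inr l} = k - 1)
    (hab : R.rk {Sum.inl p, Sum.inr l} = k) : False := by
  have : Infinite K := IsAlgClosed.instInfinite
  have hp : trk K (Set.range p) ≠ k := by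
    have := hrk {Sum.inl p}
    rw [cds_single] at this
    have h2 : trk K (Set.range p) = k - 1 := by rw [← ha, this]; rfl
    omega
  have hl : trk K (Set.range l) ≠ k := by
    have := hrk {Sum.inr l}
    rw [cds_single] at this
    have h2 : trk K (Set.range l) = k - 1 := by rw [← hb, this]; rfl
    omega
  obtain ⟨q, hq, hqp⟩ := exists_irr hp
  obtain ⟨q', hq', hql⟩ := exists_irr hl
  have hinc : ∀ u v : Fin k → Ω, R.G.Adj (Sum.inl u) (Sum.inr v) → IncS A false u v := by
    intro u v huv
    rw [hG] at huv
    exact (inc_false A u v).1 huv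
  have hr : k ≤ trk K (Set.range p ∪ Set.range l) := by
    have := hrk {Sum.inl p, Sum.inr l}
    rw [cds_pair, hab] at this
    exact this.le
  obtain ⟨c, hc, hcc⟩ := prop hcop (by omega) A p l (hinc p l hadj) q q' hq hq' hqp hql hr
  -- the polynomials of the vertices
  let pol : Vx k Ω → MvPolynomial (Fin k) K := Sum.elim (fun _ => C c * q) (fun _ => q')
  let co : Vx k Ω → Fin k → Ω := fun v => Sum.elim id id v
  have hpne : ∀ v, pol v ≠ 0 := by
    rintro (v | v)
    · exact mul_ne_zero (by rwa [Ne, MvPolynomial.C_eq_zero]) hq.ne_zero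
    · exact hq'.ne_zero
  have hp0 : ∀ v, ∃ x : Fin k → Ω, aeval x (pol v) = 0 := by
    rintro (v | v)
    · exact ⟨p, by simp only [pol, Sum.elim_inl, map_mul, hqp, mul_zero]⟩
    · exact ⟨l, hql⟩
  have hstep : ∀ u v, R.G.Adj u v → aeval (co u) (pol u) = aeval (co v) (pol v) := by
    have hs : ∀ u v : Fin k → Ω, R.G.Adj (Sum.inl u) (Sum.inr v) →
        aeval (co (Sum.inl u)) (pol (Sum.inl u)) = aeval (co (Sum.inr v)) (pol (Sum.inr v)) := by
      intro u v huv
      simp only [pol, co, Sum.elim_inl, Sum.elim_inr, map_mul, aeval_C, id]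
      exact (hcc u v (hinc u v huv)).symm
    rintro (u | u) (v | v) huv
    · rw [hG] at huv; exact absurd huv id
    · exact hs u v huv
    · exact (hs v u huv.symm).symm
    · rw [hG] at huv; exact absurd huv id
  obtain ⟨P, hP, _⟩ := exists_gen R false k
  have hconst : ∀ i, i ≤ k → aeval (co (P 0)) (pol (P 0)) = aeval (co (P i)) (pol (P i)) := by
    intro i
    induction i with
    | zero => intro _; rfl
    | succ i ih => intro hi; rw [ih (by omega), hstep _ _ (hP.1 i (by omega))]
  have hends := rk_ends R hA hP (by omega)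
  rw [hrk, cds_pair, hm, ← Set.Sum.elim_range] at hends
  have hind : AlgebraicIndependent K (Sum.elim (co (P 0)) (co (P k))) := by
    apply indep_of_trk
    rw [Fintype.card_sum, Fintype.card_fin]
    exact hends
  have hpoly : (rename Sum.inl (pol (P 0)) : MvPolynomial (Fin k ⊕ Fin k) K) =
      rename Sum.inr (pol (P k)) := by
    apply (algebraicIndependent_iff_injective_aeval.1 hind)
    rw [aeval_rename, aeval_rename]
    simpa [Sum.elim_comp_inl, Sum.elim_comp_inr] using hconst k le_rfl
  -- both polynomials are constant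
  have hev : ∀ x x' : Fin k → K, aeval x (pol (P 0)) = aeval x' (pol (P k)) := by
    intro x x'
    have := congrArg (aeval (Sum.elim x x')) hpoly
    rw [aeval_rename, aeval_rename] at this
    simpa [Sum.elim_comp_inl, Sum.elim_comp_inr] using this
  have hC : pol (P 0) = C (aeval (0 : Fin k → K) (pol (P k))) := by
    apply MvPolynomial.funext
    intro x
    rw [eval_C, ← hev x 0]
    exact (DFunLike.congr_fun (MvPolynomial.coe_aeval_eq_eval x) (pol (P 0))).symm
  obtain ⟨x, hx⟩ := hp0 (P 0)
  rw [hC, aeval_C] at hx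
  have h0 := (map_eq_zero _).1 hx
  rw [h0, C_0] at hC
  exact hpne _ hC

end Final

end Z

/-- (G3) no edges of special vertices -/
theorem lz : LZ := by
  intro hcop K _ _ Ω _ _ k _ _ hk A R hG hm _ hrk hA a b hadj ha hb hab
  rcases a with p | l <;> rcases b with p' | l'
  · rw [hG] at hadj; exact absurd hadj id
  · exact Z.aux hcop hk A R hG hm hrk hA p l' hadj ha hb hab
  · exact Z.aux hcop hk A R hG hm hrk hA p' l hadj.symm hb ha (by rwa [Finset.pair_comm])
  · rw [hG] at hadj; exact absurd hadj id

end Pool.Agent.H97H
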