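import Pool.Agent.H97H.Div

/-!
# The limits of the words, and the main theorem for flows, in arbitrary characteristic
-/

set_option autoImplicit false

namespace Pool.Agent.H97H

open MvPolynomial Pool.Agent.H97F

section

variable {K : Type} [Field K] [IsAlgClosed K] {N : ℕ} {S : Sys K N}

theorem act_lim {τ σ : Bool} {P Q n m : ℕ} {Ψ : Fin N → MvPolynomial (Fin N ⊕ Bool) K}
    (hR : LRegular) (hT : S.Tree)
    (h : Slope S σ P Q Ψ) (hnm : n + m + 3 = N) (hσ : σ = ty τ n)
    {q : MvPolynomial (Va N) K} {y y' : ℕ → ℕ} {c c' : K} (hc' : c' ≠ 0)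
    (hy'0 : 0 < y' 0) (hy'1 : y' (N - 1) = 0)
    (hq : ∀ (f : Fin N → K) (w : List K), w.length = N →
        eval (Sum.elim f (wrd (fun (τ : Bool) (t : K) (f : Fin N → K) => Sys.act S τ t f) τ w f)) q = c * mono y 0 w)
    (hq' : ∀ (f : Fin N → K) (w : List K), w.length = N →
        eval (Sum.elim f (wrd (fun (τ : Bool) (t : K) (f : Fin N → K) => Sys.act S τ t f) (!τ) w f)) q = c' * mono y' 0 w)
    (hlt : Q * (y n + y (n + 2)) < P * y (n + 1))
    (f : Fin N → K) (pre suf : List K) (r : K) (hpre : pre.length = n)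
    (hsuf : suf.length = m) (hzpre : NZ pre) (hr : r ≠ 0) (hzsuf : NZ suf) :
    ∀ᶠ z in Filter.cofinite, ∃ C : List K, C.length = n + 1 + m ∧ NZ C ∧
      GG S Ψ σ (r :: suf) (wrd (fun (τ : Bool) (t : K) (f : Fin N → K) => Sys.act S τ t f) τ pre f) z 0 = wrd (fun (τ : Bool) (t : K) (f : Fin N → K) => Sys.act S τ t f) τ C f := by
  have hN2 : 2 ≤ N := by omega
  -- the word at `z = 0`
  have hG0 : GG S Ψ σ (r :: suf) (wrd (fun (τ : Bool) (t : K) (f : Fin N → K) => Sys.act S τ t f) τ pre f) 0 0 =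
      wrd (fun (τ : Bool) (t : K) (f : Fin N → K) => Sys.act S τ t f) (!τ) (0 :: ((pre ++ (r :: suf)) ++ [0])) f := by
    unfold GG
    rw [h.at_zero]
    have e1 : wrd (fun (τ : Bool) (t : K) (f : Fin N → K) => Sys.act S τ t f) (!τ) (0 :: ((pre ++ (r :: suf)) ++ [0])) f =
        wrd (fun (τ : Bool) (t : K) (f : Fin N → K) => Sys.act S τ t f) (!(!τ)) ((pre ++ (r :: suf)) ++ [0]) (S.act (!τ) 0 f) := rfl
    rw [e1, (isAct S).zero, Bool.not_not, wrd_append (fun (τ : Bool) (t : K) (f : Fin N → K) => Sys.act S τ t f) τ (pre ++ (r :: suf)) [0]]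
    have e2 : ∀ g, wrd (fun (τ : Bool) (t : K) (f : Fin N → K) => Sys.act S τ t f) (ty τ (pre ++ (r :: suf)).length) [0] g = g := fun g =>
      (isAct S).zero _ _
    rw [e2, wrd_append, hpre, hσ]
  have hlen : (0 :: ((pre ++ (r :: suf)) ++ [0])).length = N := by
    simp only [List.length_cons, List.length_append, List.length_nil]
    omega
  have hmid : eval (pt f (0 :: ((pre ++ (r :: suf)) ++ [0]))) (midP K N) ≠ 0 := by
    rw [eval_midP_pt f 0 0 (by simp only [List.length_cons, List.length_append]; omega)]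
    exact nz_append.2 ⟨hzpre, nz_cons.2 ⟨hr, hzsuf⟩⟩
  obtain ⟨-, QB, -, hregB⟩ := reg S hR hN2 hT (!τ)
  obtain ⟨rB, hrB, -, hB⟩ := hregB _ hmid
  rw [eval_ch_pt S (!τ) f hlen, ← hG0] at hrB
  -- cofinitely many z
  obtain ⟨g, hg⟩ : ∃ g, g = wrd (fun (τ : Bool) (t : K) (f : Fin N → K) => Sys.act S τ t f) τ pre f := ⟨_, rfl⟩
  rw [← hg] at hrB ⊢
  have hp0 : Pz S Ψ σ (r :: suf) f g rB ≠ 0 := by
    intro h0
    rw [← eval_Pz, h0, Polynomial.eval_zero] at hrB
    exact hrB rfl
  have hfin : {z : K | (Pz S Ψ σ (r :: suf) f g rB).eval z = 0}.Finite := by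
    classical
    refine (Pz S Ψ σ (r :: suf) f g rB).roots.toFinset.finite_toSet.subset ?_
    intro z hz
    simp only [Finset.mem_coe, Multiset.mem_toFinset]
    exact (Polynomial.mem_roots hp0).2 hz
  filter_upwards [hfin.compl_mem_cofinite] with z hz
  have hz' : eval (Sum.elim f (GG S Ψ σ (r :: suf) g z 0)) rB ≠ 0 := by
    rw [← eval_Pz]
    exact hz
  obtain ⟨a, ha, haeq⟩ := hB _ hz'
  obtain ⟨x, mm, yy, hx, hm⟩ := exists_split (w := lets a) (by rw [length_lets]; exact hN2)
  rw [length_lets] at hm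
  have h1 : (fun i => eval a (ch S (!τ) i)) = Sum.elim f (GG S Ψ σ (r :: suf) g z 0) :=
    funext haeq
  rw [eval_ch, hx] at h1
  have hf : (fun j => a (Sum.inl j)) = f := by
    funext j
    exact congrFun h1 (Sum.inl j)
  have hG : wrd (fun (τ : Bool) (t : K) (f : Fin N → K) => Sys.act S τ t f) (!τ) (x :: (mm ++ [yy])) f = GG S Ψ σ (r :: suf) g z 0 := by
    funext j
    have := congrFun h1 (Sum.inr j)
    rw [hf] at this
    exact this
  rw [← pt_lets a, hx, eval_midP_pt _ _ _ hm] at ha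
  -- the first letter vanishes
  have hq0 := q_zero h hnm hσ hq hlt f pre suf r z hpre hsuf
  have hlq : (x :: (mm ++ [yy])).length = N := by
    simp only [List.length_cons, List.length_append, List.length_nil]
    omega
  rw [← hg, ← hG, hq' f _ hlq] at hq0
  have hx0 : x = 0 := by
    have h2 := (mul_eq_zero.1 hq0).resolve_left hc'
    simp only [mono] at h2
    rw [mono_append] at h2
    simp only [mono] at h2
    have h3 : 0 + 1 + mm.length = N - 1 := by omega
    rw [h3, hy'1, pow_zero, mul_one, mul_one] at h2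
    exact (pow_eq_zero_iff hy'0.ne').1 ((mul_eq_zero.1 h2).resolve_right (mono_ne_zero _ _ ha))
  subst hx0
  have hG2 : wrd (fun (τ : Bool) (t : K) (f : Fin N → K) => Sys.act S τ t f) τ (mm ++ [yy]) f = GG S Ψ σ (r :: suf) g z 0 := by
    rw [← hG]
    have e1 : wrd (fun (τ : Bool) (t : K) (f : Fin N → K) => Sys.act S τ t f) (!τ) (0 :: (mm ++ [yy])) f = wrd (fun (τ : Bool) (t : K) (f : Fin N → K) => Sys.act S τ t f) (!(!τ)) (mm ++ [yy]) (S.act (!τ) 0 f) :=
      rfl
    rw [e1, (isAct S).zero, Bool.not_not]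
  -- the last letter vanishes
  have hy0 : yy = 0 := by
    by_contra hyy
    rcases mm with _ | ⟨x1, m3⟩
    · simp only [List.length_nil] at hm
      omega
    obtain ⟨hx1, hm3⟩ := nz_cons.1 ha
    have hlen2 : (x1 :: ((m3 ++ [yy]) ++ [0])).length = N := by
      simp only [List.length_cons, List.length_append, List.length_nil] at hm ⊢
      omega
    have hmid2 : eval (pt f (x1 :: ((m3 ++ [yy]) ++ [0]))) (midP K N) ≠ 0 := by
      rw [eval_midP_pt f x1 0 (by
        simp only [List.length_cons, List.length_append, List.length_nil] at hm ⊢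
        omega)]
      exact nz_append.2 ⟨hm3, nz_singleton.2 hyy⟩
    obtain ⟨-, Qr, hQr, hregA⟩ := reg S hR hN2 hT τ
    obtain ⟨rA, hrA, hA, -⟩ := hregA _ hmid2
    have hG3 : wrd (fun (τ : Bool) (t : K) (f : Fin N → K) => Sys.act S τ t f) τ (x1 :: ((m3 ++ [yy]) ++ [0])) f = GG S Ψ σ (r :: suf) g z 0 := by
      rw [← hG2]
      have e1 : x1 :: ((m3 ++ [yy]) ++ [0]) = (x1 :: m3 ++ [yy]) ++ [0] := by simp
      rw [e1, wrd_append (fun (τ : Bool) (t : K) (f : Fin N → K) => Sys.act S τ t f) τ (x1 :: m3 ++ [yy]) [0]]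
      exact (isAct S (R := K)).zero _ _
    rw [eval_ch_pt S τ f hlen2, hG3] at hrA
    obtain ⟨g1, k, hg1⟩ := hA (X (Sum.inr ⟨n, by omega⟩))
    have hid : Pv S Ψ σ (r :: suf) f g z rA ^ k =
        Polynomial.X ^ (Q * Qr) * Pv S Ψ σ (r :: suf) f g z g1 := by
      apply poly_ext
      intro v hv
      rw [Polynomial.eval_mul, Polynomial.eval_pow, Polynomial.eval_pow, Polynomial.eval_X,
        eval_Pv, eval_Pv, h.GG_eq r suf g z v hv]
      have e1 : wrd (fun (τ : Bool) (t : K) (f : Fin N → K) => Sys.act S τ t f) σ ((v ^ Q)⁻¹ :: (z * v ^ P) :: (r - (v ^ Q)⁻¹) :: suf) g =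
          wrd (fun (τ : Bool) (t : K) (f : Fin N → K) => Sys.act S τ t f) τ (pre ++ ((v ^ Q)⁻¹ :: (z * v ^ P) :: (r - (v ^ Q)⁻¹) :: suf)) f := by
        rw [wrd_append, hpre, hσ, hg]
      have hlw : (pre ++ ((v ^ Q)⁻¹ :: (z * v ^ P) :: (r - (v ^ Q)⁻¹) :: suf)).length = N := by
        simp only [List.length_append, List.length_cons]
        omega
      rw [e1, ← eval_bind_pt S τ f hlw, ← eval_bind_pt S τ f hlw, ← hg1, map_mul, map_pow,
        map_pow, eval_X]
      have e2 : pt f (pre ++ ((v ^ Q)⁻¹ :: (z * v ^ P) :: (r - (v ^ Q)⁻¹) :: suf))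
          (Sum.inr ⟨n, by omega⟩ : Va N) = (v ^ Q)⁻¹ := by
        simp only [pt, Sum.elim_inr]
        rw [List.getD_eq_getElem?_getD, List.getElem?_append_right (by omega), hpre]
        simp
      rw [e2, ← mul_assoc, pow_mul, ← mul_pow, mul_inv_cancel₀ (pow_ne_zero _ hv), one_pow, one_mul]
    have h5 := congrArg (Polynomial.eval 0) hid
    have hQ := Nat.mul_pos h.Q_pos hQr
    rw [Polynomial.eval_mul, Polynomial.eval_pow, Polynomial.eval_pow, Polynomial.eval_X,
      zero_pow (by omega), zero_mul, eval_Pv] at h5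
    exact pow_ne_zero k hrA h5
  subst hy0
  refine ⟨mm, by omega, ha, ?_⟩
  rw [← hG2, wrd_append]
  exact (isAct S (R := K)).zero _ _

/-- the relation between the exponents -/
theorem relation (hR : LRegular) (hD : LDescent) (hT : S.Tree) {τ σ : Bool} {P Q n m : ℕ}
    {Ψ : Fin N → MvPolynomial (Fin N ⊕ Bool) K}
    (h : Slope S σ P Q Ψ) (hnm : n + m + 3 = N) (hσ : σ = ty τ n)
    {q : MvPolynomial (Va N) K} {y y' : ℕ → ℕ} {c c' : K} (hc : c ≠ 0) (hc' : c' ≠ 0)
    (hy'0 : 0 < y' 0) (hy'1 : y' (N - 1) = 0)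
    (hq : ∀ (f : Fin N → K) (w : List K), w.length = N →
        eval (Sum.elim f (wrd (fun (τ : Bool) (t : K) (f : Fin N → K) => Sys.act S τ t f) τ w f)) q = c * mono y 0 w)
    (hq' : ∀ (f : Fin N → K) (w : List K), w.length = N →
        eval (Sum.elim f (wrd (fun (τ : Bool) (t : K) (f : Fin N → K) => Sys.act S τ t f) (!τ) w f)) q = c' * mono y' 0 w) :
    P * y (n + 1) = Q * (y n + y (n + 2)) := by
  have hle := exp_le h hnm hσ hc hq
  rcases Nat.lt_or_ge (Q * (y n + y (n + 2))) (P * y (n + 1)) with hlt | hge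
  swap
  · omega
  exfalso
  -- the coordinates
  have hco : ∀ (ρ : Bool) (τ : Bool) (t : K) (f : Fin N → K),
      (fun (ρ : Bool) (f : Fin N → K) => f (S.co ρ)) ρ ((fun (τ : Bool) (t : K) (f : Fin N → K) => Sys.act S τ t f) τ t f) =
        (fun (ρ : Bool) (f : Fin N → K) => f (S.co ρ)) ρ f + if ρ = τ then t else 0 := by
    intro ρ τ t f
    by_cases hρ : ρ = τ
    · subst hρ
      simp only [if_true]
      exact S.same K ρ t f
    · have hρ2 : ρ = !τ := by
        cases ρ <;> cases τ <;> simp_all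
      subst hρ2
      simp only [Bool.not_eq_eq_eq_not, Bool.eq_not_self, if_false, add_zero]
      exact S.other K τ t f
  have hcoE : ∀ (ρ : Bool) (z : K) (f : Fin N → K),
      (fun (ρ : Bool) (f : Fin N → K) => f (S.co ρ)) ρ (fun j => eval (par f z 0) (Ψ j)) =
        (fun (ρ : Bool) (f : Fin N → K) => f (S.co ρ)) ρ f := by
    intro ρ z f
    simp only
    have hP := h.P_pos
    obtain ⟨ε, hε⟩ : ∃ ε : K, ε = if ρ = σ then 0 else 1 := ⟨_, rfl⟩
    have e1 : Gv S Ψ σ [] f z (S.co ρ) =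
        Polynomial.C (f (S.co ρ)) + Polynomial.C (ε * z) * Polynomial.X ^ P := by
      apply poly_ext
      intro v hv
      rw [eval_Gv, Polynomial.eval_add, Polynomial.eval_mul, Polynomial.eval_pow,
        Polynomial.eval_X, Polynomial.eval_C, Polynomial.eval_C]
      unfold GG
      show eval (par f z v) (Ψ (S.co ρ)) = _
      rw [show eval (par f z v) (Ψ (S.co ρ)) = (fun j => eval (par f z v) (Ψ j)) (S.co ρ) from rfl,
        h.eq f z v hv]
      have h1 := hco ρ (!(!σ)) (-(v ^ Q)⁻¹) (S.act (!σ) (z * v ^ P) (S.act σ (v ^ Q)⁻¹ f))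
      have h2 := hco ρ (!σ) (z * v ^ P) (S.act σ (v ^ Q)⁻¹ f)
      have h3 := hco ρ σ (v ^ Q)⁻¹ f
      simp only at h1 h2 h3
      have h4 : wrd (fun (τ : Bool) (t : K) (f : Fin N → K) => Sys.act S τ t f) σ [(v ^ Q)⁻¹, z * v ^ P, -(v ^ Q)⁻¹] f =
        S.act (!(!σ)) (-(v ^ Q)⁻¹) (S.act (!σ) (z * v ^ P) (S.act σ (v ^ Q)⁻¹ f)) := rfl
      rw [h4, h1, h2, h3, Bool.not_not, hε]
      by_cases hρ : ρ = σ
      · subst hρ
        simp
      · have hρ2 : ρ = !σ := by
          cases ρ <;> cases σ <;> simp_all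
        simp [hρ2]
    have e2 := eval_Gv S Ψ σ [] f z 0 (S.co ρ)
    rw [e1, Polynomial.eval_add, Polynomial.eval_mul, Polynomial.eval_pow,
      Polynomial.eval_X, Polynomial.eval_C, zero_pow (by omega), mul_zero, add_zero] at e2
    exact e2.symm
  have hmain := hD K (Fin N → K) (fun (τ : Bool) (t : K) (f : Fin N → K) => Sys.act S τ t f) (isAct S) N n m hnm hT
    (fun (ρ : Bool) (f : Fin N → K) => f (S.co ρ)) hco
    (fun (z : K) (f : Fin N → K) => fun j => eval (par f z 0) (Ψ j))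
    (fun ρ z f => hcoE ρ z f) τ ?_
  · obtain ⟨f, z₀, j, hne⟩ := h.ne
    have h1 := hmain f
    -- the polynomial in z
    have e1 : Gz S Ψ σ [] f j = Polynomial.C (f j) := by
      have hinf : {z : K | (fun j => eval (par f z 0) (Ψ j)) = f}.Infinite := by
        have : {z : K | (fun j => eval (par f z 0) (Ψ j)) = f}ᶜ.Finite := by
          rw [Filter.eventually_cofinite] at h1
          exact h1
        intro hfin
        have h2 := this.union hfin
        rw [Set.compl_union_self] at h2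
        exact Set.infinite_univ h2
      apply Polynomial.eq_of_infinite_eval_eq
      refine hinf.mono ?_
      intro z hz
      show (Gz S Ψ σ [] f j).eval z = (Polynomial.C (f j)).eval z
      rw [eval_Gz, Polynomial.eval_C]
      unfold GG
      exact congrFun hz j
    apply hne
    have e2 := eval_Gz S Ψ σ [] f z₀ j
    rw [e1, Polynomial.eval_C] at e2
    exact e2.symm
  · intro f pre suf r hpre hsuf hzpre hr hzsuf
    have h2 := act_lim hR hT h hnm hσ hc' hy'0 hy'1 hq hq' hlt f pre suf r hpre hsuf hzpre hr hzsuf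
    filter_upwards [h2] with z hz
    obtain ⟨C, hC1, hC2, hC3⟩ := hz
    refine ⟨C, hC1, hC2, ?_⟩
    rw [← hC3, ← hσ]
    rfl

/-- the exponents are positive -/
theorem y_facts (hN : 3 ≤ N) {τ : Bool}
    {q : MvPolynomial (Va N) K} {y y' : ℕ → ℕ} {c c' : K} (hc : c ≠ 0) (hc' : c' ≠ 0)
    (hy0 : y 0 = 0) (hy1 : 0 < y (N - 1)) (hy'0 : 0 < y' 0) (hy'1 : y' (N - 1) = 0)
    (hq : ∀ (f : Fin N → K) (w : List K), w.length = N →
        eval (Sum.elim f (wrd (fun (τ : Bool) (t : K) (f : Fin N → K) => Sys.act S τ t f) τ w f)) q = c * mono y 0 w)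
    (hq' : ∀ (f : Fin N → K) (w : List K), w.length = N →
        eval (Sum.elim f (wrd (fun (τ : Bool) (t : K) (f : Fin N → K) => Sys.act S τ t f) (!τ) w f)) q = c' * mono y' 0 w) :
    y 1 = y' 0 ∧ ∀ i, 1 ≤ i → i ≤ N - 1 → 0 < y i := by
  have hones : ∀ (e : ℕ → ℕ) (k n : ℕ), mono e n (List.replicate k (1 : K)) = 1 := by
    intro e k
    induction k with
    | zero => intro n; simp [mono]
    | succ k ih => intro n; rw [List.replicate_succ, mono, ih, one_pow, mul_one]
  constructor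
  · have key : ∀ t : K, c * t ^ y 1 = c' * t ^ y' 0 := by
      intro t
      have h1 := hq (fun _ => 0) (0 :: t :: List.replicate (N - 2) 1)
        (by simp only [List.length_cons, List.length_replicate]; omega)
      have h2 := hq' (fun _ => 0) ((t :: List.replicate (N - 2) 1) ++ [0])
        (by simp only [List.length_cons, List.length_append, List.length_replicate,
          List.length_nil]; omega)
      have e1 : wrd (fun (τ : Bool) (t : K) (f : Fin N → K) => Sys.act S τ t f) τ (0 :: t :: List.replicate (N - 2) 1) (fun _ => 0) =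
          wrd (fun (τ : Bool) (t : K) (f : Fin N → K) => Sys.act S τ t f) (!τ) (t :: List.replicate (N - 2) 1) (fun _ => 0) := by
        show wrd (fun (τ : Bool) (t : K) (f : Fin N → K) => Sys.act S τ t f) (!τ) (t :: List.replicate (N - 2) 1) (S.act τ 0 _) = _
        rw [(isAct S).zero]
      have e2 : wrd (fun (τ : Bool) (t : K) (f : Fin N → K) => Sys.act S τ t f) (!τ) ((t :: List.replicate (N - 2) 1) ++ [0]) (fun _ => 0) =
          wrd (fun (τ : Bool) (t : K) (f : Fin N → K) => Sys.act S τ t f) (!τ) (t :: List.replicate (N - 2) 1) (fun _ => 0) := by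
        rw [wrd_append]
        exact (isAct S).zero _ _
      rw [e1] at h1
      rw [e2, h1] at h2
      simp only [mono, List.cons_append] at h2
      rw [mono_append] at h2
      simp only [mono] at h2
      rw [hones, hones, hy0, List.length_replicate] at h2
      have h3 : 0 + 1 + (N - 2) = N - 1 := by omega
      rw [h3, hy'1] at h2
      simpa using h2
    exact exp_eq hc key
  · intro i h1 h2
    rcases Nat.lt_or_ge i (N - 1) with h3 | h3
    swap
    · have : i = N - 1 := by omega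
      rw [this]
      exact hy1
    obtain ⟨u, hu⟩ : ∃ u, i = u + 1 := ⟨i - 1, by omega⟩
    obtain ⟨v, hv⟩ : ∃ v, N = u + v + 3 := ⟨N - u - 3, by omega⟩
    have hw := hq (fun _ => 0)
      (List.replicate u 1 ++ ([1, 0, 1] ++ List.replicate v 1))
      (by simp only [List.length_append, List.length_replicate, List.length_cons,
        List.length_nil]; omega)
    have hw' := hq' (fun _ => 0)
      (0 :: ((List.replicate u 1 ++ ([2] ++ List.replicate v 1)) ++ [0]))
      (by simp only [List.length_append, List.length_replicate, List.length_cons,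
        List.length_nil]; omega)
    have e1 : wrd (fun (τ : Bool) (t : K) (f : Fin N → K) => Sys.act S τ t f) τ (List.replicate u 1 ++ ([1, 0, 1] ++ List.replicate v 1)) (fun _ => 0) =
        wrd (fun (τ : Bool) (t : K) (f : Fin N → K) => Sys.act S τ t f) τ (List.replicate u 1 ++ ([2] ++ List.replicate v 1)) (fun _ => 0) := by
      rw [wrd_append (fun (τ : Bool) (t : K) (f : Fin N → K) => Sys.act S τ t f) τ (List.replicate u 1) ([1, 0, 1] ++ _),
        wrd_append (fun (τ : Bool) (t : K) (f : Fin N → K) => Sys.act S τ t f) τ (List.replicate u 1) ([2] ++ _)]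
      obtain ⟨g, hg⟩ : ∃ g, g = wrd (fun (τ : Bool) (t : K) (f : Fin N → K) => Sys.act S τ t f) τ (List.replicate u 1) (fun _ => 0) := ⟨_, rfl⟩
      rw [← hg]
      obtain ⟨ρ, hρ⟩ : ∃ ρ, ρ = ty τ (List.replicate u (1 : K)).length := ⟨_, rfl⟩
      rw [← hρ]
      show wrd (fun (τ : Bool) (t : K) (f : Fin N → K) => Sys.act S τ t f) (!(!(!ρ))) (List.replicate v 1) (S.act (!(!ρ)) 1 (S.act (!ρ) 0 (S.act ρ 1 g))) =
        wrd (fun (τ : Bool) (t : K) (f : Fin N → K) => Sys.act S τ t f) (!ρ) (List.replicate v 1) (S.act ρ 2 g)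
      rw [(isAct S).zero, Bool.not_not, Bool.not_not, ← (isAct S).add]
      congr 2
      norm_num
    have e2 : wrd (fun (τ : Bool) (t : K) (f : Fin N → K) => Sys.act S τ t f) (!τ) (0 :: ((List.replicate u 1 ++ ([2] ++ List.replicate v 1)) ++ [0]))
        (fun _ => 0) = wrd (fun (τ : Bool) (t : K) (f : Fin N → K) => Sys.act S τ t f) τ (List.replicate u 1 ++ ([2] ++ List.replicate v 1)) (fun _ => 0) := by
      have e3 : wrd (fun (τ : Bool) (t : K) (f : Fin N → K) => Sys.act S τ t f) (!τ) (0 :: ((List.replicate u 1 ++ ([2] ++ List.replicate v 1)) ++ [0]))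
        (fun _ => 0) = wrd (fun (τ : Bool) (t : K) (f : Fin N → K) => Sys.act S τ t f) (!(!τ)) ((List.replicate u 1 ++ ([2] ++ List.replicate v 1)) ++ [0])
          (S.act (!τ) 0 (fun _ => 0)) := rfl
      rw [e3, (isAct S).zero, Bool.not_not, wrd_append (fun (τ : Bool) (t : K) (f : Fin N → K) => Sys.act S τ t f) τ (List.replicate u 1 ++ _) [0]]
      exact (isAct S).zero _ _
    rw [e1] at hw
    rw [e2, hw] at hw'
    simp only [mono] at hw'
    rw [zero_pow hy'0.ne', zero_mul, mul_zero, mono_append, hones, one_mul, mono_append, hones,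
      mul_one, List.length_replicate] at hw'
    simp only [mono] at hw'
    by_contra hcon
    have h5 : y (0 + u + 1) = 0 := by
      have : 0 + u + 1 = i := by omega
      rw [this]
      omega
    rw [h5] at hw'
    simp at hw'
    exact hc hw'

theorem flows (hR : LRegular) (hS : LSlope) (hD : LDescent) (hNum : LNumbers) : LFlows := by
  intro K _ _ N S hN hT
  have hsl : ∀ σ : Bool, ∃ P Q Ψ, Slope S σ P Q Ψ := fun σ => exists_slope S hS hN hT σ
  choose P Q Ψ hΨ using hsl
  obtain ⟨q, y, y', c, c', hc, hc', hy0, hy1, hy'0, hy'1, hq, hq', hyy⟩ := exists_q S hR hN hT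
  have hf := fun τ => y_facts hN (hc τ) (hc' τ) (hy0 τ) (hy1 τ) (hy'0 τ) (hy'1 τ) (hq τ) (hq' τ)
  refine hNum N P Q hN (fun σ => (hΨ σ).P_pos) (fun σ => (hΨ σ).Q_pos) y hy0
    (fun τ => by rw [hyy, (hf τ).1]) (fun τ => (hf τ).2) ?_
  intro τ i hi1 hi2
  obtain ⟨n, rfl⟩ : ∃ n, i = n + 1 := ⟨i - 1, by omega⟩
  have h3 := relation hR hD hT (hΨ (ty τ n)) (m := N - 3 - n) (by omega) rfl (hc τ) (hc' τ)
    (hy'0 τ) (hy'1 τ) (hq τ) (hq' τ)
  simpa using h3

end

end Pool.Agent.H97H
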