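import Pool.Agent.H97H.Defs

/-!
# Project H97H (helper97): piece R4 (helper24)
-/

set_option autoImplicit false

namespace Pool.Agent.H97H

open Pool.Agent.H97F Pool.Agent.H97G

namespace NumP

open Polynomial

/-- the numbers `w i` -/
def ww {R : Type} [CommRing R] (x : R) : ℕ → R
  | 0 => 0
  | 1 => 1
  | n + 2 => (if n % 2 = 0 then 1 else x) * ww x (n + 1) - ww x n

theorem ww_even {R : Type} [CommRing R] (x : R) {n : ℕ} (h : n % 2 = 0) :
    ww x (n + 2) = ww x (n + 1) - ww x n := by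
  rw [ww, if_pos h, one_mul]

theorem ww_odd {R : Type} [CommRing R] (x : R) {n : ℕ} (h : n % 2 = 1) :
    ww x (n + 2) = x * ww x (n + 1) - ww x n := by
  rw [ww, if_neg (by omega)]

theorem ww_map {R S : Type} [CommRing R] [CommRing S] (f : R →+* S) (x : R) (n : ℕ) :
    f (ww x n) = ww (f x) n ∧ f (ww x (n + 1)) = ww (f x) (n + 1) := by
  induction n with
  | zero => exact ⟨by simp [ww], by simp [ww]⟩
  | succ n ih =>
    refine ⟨ih.2, ?_⟩
    rcases Nat.mod_two_eq_zero_or_one n with h | h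
    · rw [ww_even _ h, ww_even _ h, map_sub, ih.1, ih.2]
    · rw [ww_odd _ h, ww_odd _ h, map_sub, map_mul, ih.1, ih.2]

theorem inv {R : Type} [CommRing R] (x : R) (n : ℕ) :
    (n % 2 = 0 → x * ww x n ^ 2 - x * ww x n * ww x (n + 1) + ww x (n + 1) ^ 2 = 1) ∧
    (n % 2 = 1 → ww x n ^ 2 - x * ww x n * ww x (n + 1) + x * ww x (n + 1) ^ 2 = 1) := by
  induction n with
  | zero => exact ⟨fun _ => by simp [ww], fun h => by omega⟩
  | succ n ih =>
    refine ⟨fun h => ?_, fun h => ?_⟩
    · have h1 : n % 2 = 1 := by omega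
      have h2 := ih.2 h1
      rw [ww_odd _ h1]
      linear_combination h2
    · have h1 : n % 2 = 0 := by omega
      have h2 := ih.1 h1
      rw [ww_even _ h1]
      linear_combination h2

theorem monic (j : ℕ) : ((ww (X : ℤ[X]) (2 * j + 1)).Monic ∧
    (ww (X : ℤ[X]) (2 * j + 1)).natDegree = j) ∧
    (ww (X : ℤ[X]) (2 * j + 2)).Monic ∧ (ww (X : ℤ[X]) (2 * j + 2)).natDegree = j := by
  have hsub : ∀ (p q : ℤ[X]) (n : ℕ), p.Monic → p.natDegree = n → q.natDegree < n →
      (p - q).Monic ∧ (p - q).natDegree = n := by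
    intro p q n hp hpn hq
    have h1 : q.degree < p.degree := by
      apply degree_lt_degree
      omega
    exact ⟨hp.sub_of_left h1, by rw [natDegree_sub_eq_left_of_natDegree_lt (by omega), hpn]⟩
  induction j with
  | zero =>
    have h1 : ww (X : ℤ[X]) (2 * 0 + 1) = 1 := rfl
    have h2 : ww (X : ℤ[X]) (2 * 0 + 2) = 1 := by
      rw [ww_even _ rfl]
      simp [ww]
    rw [h1, h2]
    exact ⟨⟨monic_one, natDegree_one⟩, monic_one, natDegree_one⟩
  | succ j ih =>
    obtain ⟨⟨a1, a2⟩, a3, a4⟩ := ih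
    have e1 : ww (X : ℤ[X]) (2 * (j + 1) + 1) =
        X * ww (X : ℤ[X]) (2 * j + 2) - ww (X : ℤ[X]) (2 * j + 1) := ww_odd (n := 2 * j + 1) _ (by omega)
    have e2 : ww (X : ℤ[X]) (2 * (j + 1) + 2) =
        ww (X : ℤ[X]) (2 * (j + 1) + 1) - ww (X : ℤ[X]) (2 * j + 2) :=
      ww_even (n := 2 * j + 2) _ (by omega)
    have m1 : (X * ww (X : ℤ[X]) (2 * j + 2)).Monic := monic_X.mul a3
    have d1 : (X * ww (X : ℤ[X]) (2 * j + 2)).natDegree = j + 1 := by
      rw [natDegree_X_mul a3.ne_zero, a4]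
    have h1 := hsub _ (ww (X : ℤ[X]) (2 * j + 1)) (j + 1) m1 d1 (by omega)
    rw [← e1] at h1
    have h2 := hsub _ (ww (X : ℤ[X]) (2 * j + 2)) (j + 1) h1.1 h1.2 (by omega)
    rw [← e2] at h2
    exact ⟨h1, h2⟩

theorem monic' {n : ℕ} (h : 1 ≤ n) : (ww (X : ℤ[X]) n).Monic := by
  rcases Nat.mod_two_eq_zero_or_one n with h1 | h1
  · have h2 : n = 2 * (n / 2 - 1) + 2 := by omega
    rw [h2]
    exact (monic _).2.1
  · have h2 : n = 2 * (n / 2) + 1 := by omega
    rw [h2]
    exact (monic _).1.1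

/-- growth -/
theorem grow {x : ℚ} (hx : 4 ≤ x) (j : ℕ) : 0 < ww x (2 * j + 1) ∧ 0 < ww x (2 * j + 2) ∧
    2 * ww x (2 * j + 2) ≥ ww x (2 * j + 1) + 1 := by
  induction j with
  | zero =>
    have h1 : ww x (2 * 0 + 1) = 1 := rfl
    have h2 : ww x (2 * 0 + 2) = 1 := by
      rw [ww_even _ rfl]
      simp [ww]
    rw [h1, h2]
    norm_num
  | succ j ih =>
    obtain ⟨a1, a2, a3⟩ := ih
    have e1 : ww x (2 * (j + 1) + 1) =
        x * ww x (2 * j + 2) - ww x (2 * j + 1) := ww_odd (n := 2 * j + 1) _ (by omega)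
    have e2 : ww x (2 * (j + 1) + 2) =
        ww x (2 * (j + 1) + 1) - ww x (2 * j + 2) :=
      ww_even (n := 2 * j + 2) _ (by omega)
    have h1 : 4 * ww x (2 * j + 2) ≤ x * ww x (2 * j + 2) :=
      mul_le_mul_of_nonneg_right hx a2.le
    refine ⟨?_, ?_, ?_⟩ <;> linarith

end NumP

open NumP

theorem numbers : LNumbers := by
  intro N P Q hN hP hQ y h0 hcl hpos hrec
  obtain ⟨l, hl⟩ : ∃ l : Bool → ℚ, ∀ σ, l σ = (P σ : ℚ) / Q σ := ⟨_, fun _ => rfl⟩
  have hQ' : ∀ σ, (0 : ℚ) < Q σ := fun σ => by exact_mod_cast hQ σ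
  have hP' : ∀ σ, (0 : ℚ) < P σ := fun σ => by exact_mod_cast hP σ
  have hlpos : ∀ σ, 0 < l σ := fun σ => by rw [hl]; exact div_pos (hP' σ) (hQ' σ)
  obtain ⟨x, hx⟩ : ∃ x : ℚ, x = l true * l false := ⟨_, rfl⟩
  have hx' : ∀ σ, l (!σ) * l σ = x := by
    intro σ
    cases σ
    · rw [hx]; rfl
    · rw [hx, mul_comm]; rfl
  have hxpos : 0 < x := by rw [hx]; exact mul_pos (hlpos _) (hlpos _)
  have hty : ∀ τ i, (i % 2 = 0 → ty τ i = τ) ∧ (i % 2 = 1 → ty τ i = !τ) := by
    intro τ i
    have h1 := Nat.mod_two_of_bodd i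
    unfold ty
    cases hb : i.bodd
    · rw [hb] at h1
      refine ⟨fun _ => ?_, fun h => ?_⟩
      · cases τ <;> rfl
      · rw [h] at h1
        simp at h1
    · rw [hb] at h1
      refine ⟨fun h => ?_, fun _ => ?_⟩
      · rw [h] at h1
        simp at h1
      · cases τ <;> rfl
  have hrec' : ∀ τ i, i + 2 ≤ N - 1 →
      (y τ (i + 2) : ℚ) = l (ty τ i) * y τ (i + 1) - y τ i := by
    intro τ i hi
    have h1 := hrec τ (i + 1) (by omega) (by omega)
    rw [Nat.add_sub_cancel] at h1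
    have h2 : (P (ty τ i) : ℚ) * y τ (i + 1) = Q (ty τ i) * (y τ i + y τ (i + 2)) := by
      exact_mod_cast h1
    have h3 := hQ' (ty τ i)
    rw [hl, div_mul_eq_mul_div, h2]
    field_simp
    ring
  have hmain : ∀ i, (i ≤ N - 1 → ∀ τ, (i % 2 = 0 → (y τ i : ℚ) = y τ 1 * (l τ * ww x i)) ∧
      (i % 2 = 1 → (y τ i : ℚ) = y τ 1 * ww x i)) ∧
      (i + 1 ≤ N - 1 → ∀ τ, ((i + 1) % 2 = 0 → (y τ (i + 1) : ℚ) = y τ 1 * (l τ * ww x (i + 1))) ∧
      ((i + 1) % 2 = 1 → (y τ (i + 1) : ℚ) = y τ 1 * ww x (i + 1))) := by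
    intro i
    induction i with
    | zero =>
      refine ⟨fun _ τ => ⟨fun _ => ?_, fun h => by omega⟩,
        fun _ τ => ⟨fun h => by omega, fun _ => ?_⟩⟩
      · rw [h0]
        simp [ww]
      · simp [ww]
    | succ i ih =>
      refine ⟨ih.2, fun hi τ => ⟨fun h => ?_, fun h => ?_⟩⟩
      · have h1 : i % 2 = 0 := by omega
        have h2 := (ih.1 (by omega) τ).1 h1
        have h3 := (ih.2 (by omega) τ).2 (by omega)
        rw [hrec' τ i hi, (hty τ i).1 h1, h2, h3, ww_even _ h1]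
        ring
      · have h1 : i % 2 = 1 := by omega
        have h2 := (ih.1 (by omega) τ).2 h1
        have h3 := (ih.2 (by omega) τ).1 (by omega)
        rw [hrec' τ i hi, (hty τ i).2 h1, h2, h3, ww_odd _ h1]
        linear_combination (y τ 1 : ℚ) * ww x (i + 1) * hx' τ
  have hpos' : ∀ τ i, 1 ≤ i → i ≤ N - 1 → (0 : ℚ) < y τ i := fun τ i h1 h2 => by
    exact_mod_cast hpos τ i h1 h2
  have hwpos : ∀ i, 1 ≤ i → i ≤ N - 1 → 0 < ww x i := by
    intro i h1 h2
    have h3 := hpos' true i h1 h2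
    have h4 := hpos' true 1 le_rfl (by omega)
    rcases Nat.mod_two_eq_zero_or_one i with h5 | h5
    · rw [((hmain i).1 h2 true).1 h5] at h3
      exact (mul_pos_iff_of_pos_left (hlpos true)).1 ((mul_pos_iff_of_pos_left h4).1 h3)
    · rw [((hmain i).1 h2 true).2 h5] at h3
      exact (mul_pos_iff_of_pos_left h4).1 h3
  -- the value at `N`
  obtain ⟨M, rfl⟩ : ∃ M, N = M + 2 := ⟨N - 2, by omega⟩
  have e1 : M + 2 - 1 = M + 1 := by omega
  have e2 : M + 2 - 2 = M := by omega
  rw [e1] at hwpos hmain hpos' hcl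
  rw [e2] at hcl
  have hM : 0 < ww x M := hwpos M (by omega) (by omega)
  have hM1 : 0 < ww x (M + 1) := hwpos (M + 1) (by omega) le_rfl
  have hzero : ww x (M + 2) = 0 := by
    rcases Nat.mod_two_eq_zero_or_one M with h1 | h1
    · have h2 := hcl true
      rw [(hty true M).1 h1] at h2
      have h3 := ((hmain (M + 1)).1 le_rfl true).2 (by omega)
      rw [h2] at h3
      have h4 := hpos' true 1 le_rfl (by omega)
      have h5 : ww x (M + 1) = 1 := by
        have h6 : (y true 1 : ℚ) * 1 = y true 1 * ww x (M + 1) := by rw [mul_one]; exact h3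
        exact (mul_left_cancel₀ h4.ne' h6).symm
      have h7 := (inv x M).1 h1
      rw [h5] at h7
      have h8 : x * ww x M * (ww x M - 1) = 0 := by linear_combination h7
      have h9 : ww x M - 1 = 0 :=
        (mul_eq_zero.1 h8).resolve_left (mul_pos hxpos hM).ne'
      rw [ww_even _ h1, h5]
      linear_combination -h9
    · have h4 := hpos' true 1 le_rfl (by omega)
      have h4' := hpos' false 1 le_rfl (by omega)
      have h2 := hcl true
      rw [(hty true M).2 h1] at h2
      have h3 := ((hmain (M + 1)).1 le_rfl false).1 (by omega)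
      have h2' := hcl false
      rw [(hty false M).2 h1] at h2'
      have h3' := ((hmain (M + 1)).1 le_rfl true).1 (by omega)
      have e3 : (!true) = false := rfl
      have e4 : (!false) = true := rfl
      rw [e3] at h2
      rw [e4] at h2'
      rw [h2] at h3
      rw [h2'] at h3'
      have h5 : x * ww x (M + 1) ^ 2 = 1 := by
        have h6 : ((y true 1 : ℚ) * y false 1) * (x * ww x (M + 1) ^ 2) =
            (y true 1 * y false 1) * 1 := by
          calc ((y true 1 : ℚ) * y false 1) * (x * ww x (M + 1) ^ 2) =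
              (y false 1 * (l false * ww x (M + 1))) * (y true 1 * (l true * ww x (M + 1))) := by
                linear_combination ((y true 1 : ℚ) * y false 1 * ww x (M + 1) ^ 2) * hx
            _ = y true 1 * y false 1 := by rw [← h3, ← h3']
            _ = _ := by ring
        exact mul_left_cancel₀ (mul_pos h4 h4').ne' h6
      have h7 := (inv x M).2 h1
      rw [h5] at h7
      have h8 : ww x M * (ww x M - x * ww x (M + 1)) = 0 := by linear_combination h7
      have h9 := (mul_eq_zero.1 h8).resolve_left hM.ne'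
      rw [ww_odd _ h1]
      linear_combination -h9
  -- `x` is an integer
  obtain ⟨z, hz⟩ : ∃ z : ℤ, (z : ℚ) = x := by
    have h1 : IsIntegral ℤ x := by
      refine ⟨ww (Polynomial.X : Polynomial ℤ) (M + 2), monic' (by omega), ?_⟩
      have h2 := (ww_map (Polynomial.eval₂RingHom (algebraMap ℤ ℚ) x) Polynomial.X (M + 2)).1
      rw [Polynomial.coe_eval₂RingHom] at h2
      rw [h2, Polynomial.eval₂_X]
      exact hzero
    obtain ⟨z, hz⟩ := IsIntegrallyClosed.isIntegral_iff.1 h1
    exact ⟨z, hz⟩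
  have hz0 : 0 < z := by
    rw [← hz] at hxpos
    exact_mod_cast hxpos
  rcases lt_or_ge z 4 with h4 | h4
  · have w2 : ww x 2 = 1 := by rw [ww_even (n := 0) _ rfl]; simp [ww]
    have w3 : ww x 3 = x - 1 := by
      rw [ww_odd (n := 1) _ rfl, w2]; simp [ww]
    have w4 : ww x 4 = x - 2 := by
      rw [ww_even (n := 2) _ rfl, w3, w2]; ring
    have w5 : ww x 5 = x * (x - 2) - (x - 1) := by
      rw [ww_odd (n := 3) _ rfl, w4, w3]
    have w6 : ww x 6 = x * (x - 2) - (x - 1) - (x - 2) := by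
      rw [ww_even (n := 4) _ rfl, w5, w4]
    interval_cases z
    · -- x = 1
      by_contra hcon
      have h5 := hwpos 3 (by omega) (by omega)
      rw [w3, ← hz] at h5
      norm_num at h5
    · by_contra hcon
      have h5 := hwpos 4 (by omega) (by omega)
      rw [w4, ← hz] at h5
      norm_num at h5
    · by_contra hcon
      by_cases h6 : M + 2 = 5
      · rw [h6, w5, ← hz] at hzero
        norm_num at hzero
      · have h5 := hwpos 6 (by omega) (by omega)
        rw [w6, ← hz] at h5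
        norm_num at h5
  · exfalso
    have h5 : (4 : ℚ) ≤ x := by
      rw [← hz]
      exact_mod_cast h4
    rcases Nat.mod_two_eq_zero_or_one M with h1 | h1
    · have h2 : M + 2 = 2 * (M / 2) + 2 := by omega
      rw [h2] at hzero
      exact (grow h5 (M / 2)).2.1.ne' hzero
    · have h2 : M + 2 = 2 * (M / 2 + 1) + 1 := by omega
      rw [h2] at hzero
      exact (grow h5 (M / 2 + 1)).1.ne' hzero

end Pool.Agent.H97H
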