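import Pool.Agent.H97F.Regular
import Pool.Agent.H97H.Defs

/-!
# Regularity of the inverse of an injective polynomial map up to a power of the characteristic
-/

set_option autoImplicit false

namespace Pool.Agent.H97H

open MvPolynomial Pool.Agent.H97F Pool.Agent.H97F.Reg

namespace Reg

/-! ### Zariski's main theorem in the form needed -/

theorem zmt {R S : Type} [CommRing R] [IsDomain R] [IsIntegrallyClosed R] [CommRing S] [IsDomain S]
    (φ : R →+* S) (hinj : Function.Injective φ) (hft : φ.FiniteType) (e : ℕ)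
    (hfr : ∀ s : S, ∃ a b : R, b ≠ 0 ∧ φ b * s ^ e = φ a) (q : Ideal S) [q.IsPrime]
    (hq : ∀ q' : Ideal S, q'.IsPrime → q'.comap φ = q.comap φ → q' = q) :
    ∃ r : R, φ r ∉ q ∧ ∀ s : S, ∃ (m : ℕ) (a : R), φ r ^ m * s ^ e = φ a := by
  let _ : Algebra R S := φ.toAlgebra
  have halg : ∀ x, algebraMap R S x = φ x := fun x => rfl
  have : Algebra.FiniteType R S := hft
  have : FaithfulSMul R S := (faithfulSMul_iff_algebraMap_injective R S).mpr hinj
  -- fraction fields
  let L := FractionRing S
  have : FaithfulSMul R L := FaithfulSMul.trans R S L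
  let _ : Algebra (FractionRing R) L := FractionRing.liftAlgebra R L
  have hint : ∀ s : S, IsIntegral R s → ∃ a : R, φ a = s ^ e := by
    intro s hs
    obtain ⟨a, b, hb, hab⟩ := hfr s
    have hb0 : algebraMap R (FractionRing R) b ≠ 0 := by
      intro h0
      exact hb (IsFractionRing.injective R (FractionRing R) (h0.trans (map_zero _).symm))
    have h1 : algebraMap (FractionRing R) L
        (algebraMap R (FractionRing R) a / algebraMap R (FractionRing R) b) =
        algebraMap S L (s ^ e) := by
      rw [map_div₀, ← IsScalarTower.algebraMap_apply R (FractionRing R) L,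
        ← IsScalarTower.algebraMap_apply R (FractionRing R) L,
        IsScalarTower.algebraMap_apply R S L, IsScalarTower.algebraMap_apply R S L, halg, halg,
        ← hab, map_mul, mul_div_cancel_left₀]
      intro h0
      apply hb
      apply hinj
      apply IsFractionRing.injective S L
      rw [h0, map_zero, map_zero]
    have h2 : IsIntegral R (algebraMap (FractionRing R) L
        (algebraMap R (FractionRing R) a / algebraMap R (FractionRing R) b)) := by
      rw [h1]
      exact (hs.pow e).algebraMap
    have h3 : IsIntegral R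
        (algebraMap R (FractionRing R) a / algebraMap R (FractionRing R) b) :=
      (isIntegral_algebraMap_iff (algebraMap (FractionRing R) L).injective).1 h2
    obtain ⟨c, hc⟩ := (IsIntegrallyClosed.isIntegral_iff (R := R) (K := FractionRing R)).mp h3
    refine ⟨c, ?_⟩
    apply IsFractionRing.injective S L
    rw [← h1, ← hc, ← IsScalarTower.algebraMap_apply R (FractionRing R) L,
      IsScalarTower.algebraMap_apply R S L]
    rfl
  -- quasi-finite
  let Q : PrimeSpectrum S := ⟨q, inferInstance⟩
  have : Algebra.QuasiFiniteAt R Q.asIdeal := by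
    refine Algebra.QuasiFiniteAt.of_isOpen_singleton_fiber Q ?_
    have : ({⟨Q, rfl⟩} : Set (PrimeSpectrum.comap (algebraMap R S) ⁻¹'
        {Q.comap (algebraMap R S)})) = Set.univ := by
      ext ⟨x, hx⟩
      simp only [Set.mem_singleton_iff, Set.mem_univ, iff_true]
      apply Subtype.ext
      apply PrimeSpectrum.ext
      refine hq x.asIdeal x.isPrime ?_
      exact congrArg PrimeSpectrum.asIdeal hx
    rw [this]
    exact isOpen_univ
  obtain ⟨r, hr, hx⟩ := Algebra.zariskisMainProperty_iff.mp
    (Algebra.ZariskisMainProperty.of_finiteType (R := R) Q.asIdeal)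
  obtain ⟨hri, hx⟩ := hx
  obtain ⟨r0, hr0⟩ := hint r hri
  have hq1 : q.IsPrime := inferInstance
  refine ⟨r0, by rw [hr0]; exact fun h => hr (hq1.mem_of_pow_mem _ h), fun s => ?_⟩
  obtain ⟨m, hm⟩ := hx s
  obtain ⟨a, ha⟩ := hint _ hm
  refine ⟨m, a, ?_⟩
  rw [hr0, ha, mul_pow, ← pow_mul, ← pow_mul, mul_comm e m]

section

variable {K : Type} [Field K] [IsAlgClosed K] {ι : Type} [Fintype ι]
    {A : ι → MvPolynomial ι K} {h : MvPolynomial ι K} {p : ℕ} [ExpChar K p]

/-! ### The field of the values -/

theorem top (hA : Inj A h) (hh : h ≠ 0) (x : FractionRing (MvPolynomial ι K)) :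
    ∃ n : ℕ, x ^ p ^ n ∈ IntermediateField.adjoin K (Set.range fun i =>
      algebraMap (MvPolynomial ι K) (FractionRing (MvPolynomial ι K)) (A i)) := by
  let E := FractionRing (MvPolynomial ι K)
  let F0 : IntermediateField K E := IntermediateField.adjoin K (Set.range fun i =>
      algebraMap (MvPolynomial ι K) E (A i))
  let L := AlgebraicClosure E
  have : Nonempty (E →+* L) := ⟨algebraMap E L⟩
  have hp : IsPurelyInseparable F0 E := by
    refine IsPurelyInseparable.of_injective_comp_algebraMap F0 E L ?_
    intro f g hfg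
    simp only at hfg
    have hin : Function.Injective (algebraMap (MvPolynomial ι K) E) := IsFractionRing.injective _ _
    have hfg' : ∀ x : E, x ∈ F0 → f x = g x := fun x hx =>
      congrFun (congrArg DFunLike.coe hfg) (⟨x, hx⟩ : F0)
    apply IsLocalization.ringHom_ext (nonZeroDivisors (MvPolynomial ι K))
    have cC : ∀ c : K, (f.comp (algebraMap (MvPolynomial ι K) E)) (C c) =
        (g.comp (algebraMap (MvPolynomial ι K) E)) (C c) := by
      intro c
      apply hfg'
      have : algebraMap (MvPolynomial ι K) E (C c) = algebraMap K E c := by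
        rw [IsScalarTower.algebraMap_apply K (MvPolynomial ι K) E]
        rfl
      rw [this]
      exact F0.algebraMap_mem c
    apply MvPolynomial.ringHom_ext cC
    intro j
    refine pair hA _ _ ?_ ?_ cC ?_ j
    · simp only [RingHom.comp_apply, ne_eq, map_eq_zero_iff f f.injective]
      intro h0
      exact hh (hin (by simpa using h0))
    · simp only [RingHom.comp_apply, ne_eq, map_eq_zero_iff g g.injective]
      intro h0
      exact hh (hin (by simpa using h0))
    · intro i
      apply hfg'
      exact IntermediateField.subset_adjoin K _ ⟨i, rfl⟩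
  have hpF : ExpChar F0 p := expChar_of_injective_algebraMap (algebraMap K F0).injective p
  obtain ⟨n, y, hy⟩ := hp.pow_mem F0 p x
  exact ⟨n, by rw [← hy]; exact y.2⟩

theorem top_all (p : ℕ) [ExpChar K p] (hA : Inj A h) (hh : h ≠ 0) : ∃ n : ℕ,
    ∀ u : MvPolynomial ι K, algebraMap (MvPolynomial ι K) (FractionRing (MvPolynomial ι K)) u ^ p ^ n ∈
      IntermediateField.adjoin K (Set.range fun i =>
      algebraMap (MvPolynomial ι K) (FractionRing (MvPolynomial ι K)) (A i)) := by
  classical
  choose n hn using fun i => top (p := p) hA hh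
    (algebraMap (MvPolynomial ι K) (FractionRing (MvPolynomial ι K)) (X i))
  obtain ⟨F0, hF0⟩ : ∃ F0, F0 = IntermediateField.adjoin K (Set.range fun i =>
      algebraMap (MvPolynomial ι K) (FractionRing (MvPolynomial ι K)) (A i)) := ⟨_, rfl⟩
  rw [← hF0] at hn ⊢
  have hpE : ExpChar (FractionRing (MvPolynomial ι K)) p :=
    expChar_of_injective_algebraMap (algebraMap K _).injective p
  refine ⟨∑ i, n i, fun u => ?_⟩
  have hX : ∀ i, algebraMap (MvPolynomial ι K) (FractionRing (MvPolynomial ι K)) (X i) ^
      p ^ (∑ i, n i) ∈ F0 := by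
    intro i
    obtain ⟨m, hm⟩ : ∃ m, ∑ i, n i = n i + m :=
      ⟨∑ i, n i - n i, by
        have := Finset.single_le_sum (f := n) (fun _ _ => Nat.zero_le _) (Finset.mem_univ i)
        omega⟩
    rw [hm, pow_add, pow_mul]
    exact pow_mem (hn i) _
  induction u using MvPolynomial.induction_on with
  | C c =>
    have : algebraMap (MvPolynomial ι K) (FractionRing (MvPolynomial ι K)) (C c) =
        algebraMap K _ c := by
      rw [IsScalarTower.algebraMap_apply K (MvPolynomial ι K) (FractionRing (MvPolynomial ι K))]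
      rfl
    rw [this]
    exact pow_mem (F0.algebraMap_mem c) _
  | add u v hu hv =>
    rw [map_add, add_pow_expChar_pow]
    exact add_mem hu hv
  | mul_X u i hu =>
    rw [map_mul, mul_pow]
    exact mul_mem hu (hX i)

theorem frac (p : ℕ) [ExpChar K p] (hA : Inj A h) (hh : h ≠ 0) : ∃ n : ℕ,
    ∀ u : MvPolynomial ι K, ∃ a b : MvPolynomial ι K, bind₁ A b ≠ 0 ∧
      bind₁ A b * u ^ p ^ n = bind₁ A a := by
  classical
  let E := FractionRing (MvPolynomial ι K)
  obtain ⟨n, hn⟩ := top_all p hA hh
  refine ⟨n, fun u => ?_⟩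
  have hx := hn u
  rw [IntermediateField.mem_adjoin_range_iff] at hx
  obtain ⟨r, s, hrs⟩ := hx
  have e : ∀ p : MvPolynomial ι K, aeval (fun i => algebraMap (MvPolynomial ι K) E (A i)) p =
      algebraMap (MvPolynomial ι K) E (bind₁ A p) := by
    intro p
    have : (aeval (fun i => algebraMap (MvPolynomial ι K) E (A i))) =
        (IsScalarTower.toAlgHom K (MvPolynomial ι K) E).comp (bind₁ A) := by
      apply MvPolynomial.algHom_ext
      intro i
      simp
    rw [this]
    rfl
  rw [e, e, ← map_pow] at hrs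
  have hin : Function.Injective (algebraMap (MvPolynomial ι K) E) := IsFractionRing.injective _ _
  by_cases hs : bind₁ A s = 0
  · rw [hs, map_zero, div_zero] at hrs
    have hu : u ^ p ^ n = 0 := hin (hrs.trans (map_zero _).symm)
    exact ⟨0, 1, by simp, by simp [hu]⟩
  · refine ⟨r, s, hs, ?_⟩
    apply hin
    rw [map_mul, hrs, mul_div_cancel₀]
    intro h0
    exact hs (hin (h0.trans (map_zero _).symm))

theorem binj (hA : Inj A h) (hh : h ≠ 0) :
    Function.Injective (bind₁ A : MvPolynomial ι K → MvPolynomial ι K) := by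
  classical
  have h1 : Algebra.IsAlgebraic (Algebra.adjoin K (Set.range A)) (MvPolynomial ι K) := by
    constructor
    intro u
    obtain ⟨p, hp⟩ := ExpChar.exists K
    obtain ⟨n, hn⟩ := frac p hA hh
    obtain ⟨a, b, hb, hab⟩ := hn u
    have hpn : 0 < p ^ n := expChar_pow_pos K p n
    have hm : ∀ p : MvPolynomial ι K, bind₁ A p ∈ Algebra.adjoin K (Set.range A) := by
      intro p
      rw [Algebra.adjoin_range_eq_range_aeval]
      exact ⟨p, rfl⟩
    refine IsAlgebraic.of_pow hpn
      ⟨Polynomial.C ⟨bind₁ A b, hm b⟩ * Polynomial.X - Polynomial.C ⟨bind₁ A a, hm a⟩, ?_, ?_⟩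
    · intro h0
      have := congrArg (fun p => Polynomial.coeff p 1) h0
      simp only [Polynomial.coeff_sub, Polynomial.coeff_C_mul, Polynomial.coeff_X_one, mul_one,
        Polynomial.coeff_C_succ, sub_zero, Polynomial.coeff_zero] at this
      exact hb (congrArg Subtype.val this)
    · simp only [map_sub, map_mul, Polynomial.aeval_C, Polynomial.aeval_X]
      change bind₁ A b * u ^ p ^ n - bind₁ A a = 0
      rw [hab, sub_self]
  have h2 : IsTranscendenceBasis K A := by
    apply Algebra.IsAlgebraic.isTranscendenceBasis_of_le_trdeg_of_finite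
    rw [MvPolynomial.trdeg_of_isDomain]
    simp
  have h3 := h2.1
  rw [algebraicIndependent_iff_injective_aeval] at h3
  exact h3

/-! ### The local inverse -/

theorem main (hA : Inj A h) (e : ℕ)
    (he : ∀ u : MvPolynomial ι K, ∃ a b : MvPolynomial ι K, bind₁ A b ≠ 0 ∧
      bind₁ A b * u ^ e = bind₁ A a) (a₀ : ι → K) (ha : eval a₀ h ≠ 0) :
    ∃ r : MvPolynomial ι K, eval (fun i => eval a₀ (A i)) r ≠ 0 ∧
      (∀ u : MvPolynomial ι K, ∃ (g : MvPolynomial ι K) (k : ℕ),
        u ^ e * (bind₁ A r) ^ k = bind₁ A g) ∧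
      ∃ (w : MvPolynomial ι K) (k : ℕ), h ^ e * bind₁ A w = (bind₁ A r) ^ k := by
  classical
  have hh : h ≠ 0 := by rintro rfl; simp at ha
  let P := MvPolynomial ι K
  let S := Localization.Away h
  have hpow : Submonoid.powers h ≤ nonZeroDivisors P :=
    powers_le_nonZeroDivisors_of_noZeroDivisors hh
  have : IsDomain S := IsLocalization.isDomain_localization hpow
  have hSi : Function.Injective (algebraMap P S) := IsLocalization.injective S hpow
  let φ : P →+* S := (algebraMap P S).comp (bind₁ A).toRingHom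
  have hφ : ∀ p, φ p = algebraMap P S (bind₁ A p) := fun p => rfl
  have hφi : Function.Injective φ := hSi.comp (binj hA hh)
  have hft : φ.FiniteType := by
    have h1 : (φ.comp (C : K →+* P)).FiniteType := by
      have h2 : φ.comp (C : K →+* P) = (algebraMap P S).comp C := by
        ext c
        change algebraMap P S (bind₁ A (C c)) = algebraMap P S (C c)
        rw [show bind₁ A (C c) = C c from bind₁_C_right A c]
      have h4 : (algebraMap P S).comp C = algebraMap K S := by
        ext c
        rfl
      rw [h2, h4, RingHom.finiteType_algebraMap]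
      infer_instance
    exact RingHom.FiniteType.of_comp_finiteType h1
  have hfr : ∀ s : S, ∃ a b : P, b ≠ 0 ∧ φ b * s ^ e = φ a := by
    intro s
    obtain ⟨x, ⟨_, n, rfl⟩, rfl⟩ := IsLocalization.exists_mk'_eq (Submonoid.powers h) s
    obtain ⟨a, b, hb, hab⟩ := he x
    obtain ⟨c, d, hd, hcd⟩ := he (h ^ n)
    have hc : c ≠ 0 := by
      rintro rfl
      rw [map_zero] at hcd
      exact mul_ne_zero hd (pow_ne_zero _ (pow_ne_zero n hh)) hcd
    refine ⟨a * d, b * c, mul_ne_zero ?_ hc, ?_⟩
    · rintro rfl; simp at hb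
    · have e1 : algebraMap P S (h ^ n) * IsLocalization.mk' S x
          (⟨(fun n => h ^ n) n, ⟨n, rfl⟩⟩ : Submonoid.powers h) = algebraMap P S x := by
        rw [mul_comm]
        exact IsLocalization.mk'_spec S x (⟨(fun n => h ^ n) n, ⟨n, rfl⟩⟩ : Submonoid.powers h)
      rw [map_mul, hφ c, ← hcd, map_mul, map_mul, hφ a, ← hab, hφ b, hφ d]
      rw [map_mul, map_pow (algebraMap P S) (h ^ n) e, map_pow (algebraMap P S) x e, ← e1, mul_pow]
      ring
  -- the maximal ideal of the point
  let ev : S →+* K := IsLocalization.Away.lift (S := S) h (g := (eval a₀ : P →+* K))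
    (isUnit_iff_ne_zero.mpr ha)
  have hev : ∀ p : P, ev (algebraMap P S p) = eval a₀ p := fun p =>
    IsLocalization.Away.lift_eq h (isUnit_iff_ne_zero.mpr ha) p
  let q : Ideal S := RingHom.ker ev
  have : q.IsPrime := RingHom.ker_isPrime ev
  have hq : ∀ q' : Ideal S, q'.IsPrime → q'.comap φ = q.comap φ → q' = q := by
    intro q' hq' hc
    let Q : Ideal P := q'.comap (algebraMap P S)
    have hQ : Q.IsPrime := Ideal.IsPrime.comap _
    have hQh : h ∉ Q := by
      intro h1
      have h2 : algebraMap P S h ∈ q' := h1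
      have h3 : IsUnit (algebraMap P S h) := IsLocalization.Away.algebraMap_isUnit h
      exact hq'.ne_top (Ideal.eq_top_of_isUnit_mem _ h2 h3)
    have hAQ : ∀ i, A i - C (eval a₀ (A i)) ∈ Q := by
      intro i
      have h1 : (X i - C (eval a₀ (A i)) : P) ∈ q.comap φ := by
        rw [Ideal.mem_comap, RingHom.mem_ker, hφ, hev]
        simp
      rw [← hc, Ideal.mem_comap, hφ] at h1
      have h2 : bind₁ A (X i - C (eval a₀ (A i))) = A i - C (eval a₀ (A i)) := by
        rw [map_sub, bind₁_X_right, bind₁_C_right]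
      rw [h2] at h1
      exact h1
    have hXQ : ∀ j, (X j - C (a₀ j) : P) ∈ Q := by
      intro j
      have h1 : h * (X j - C (a₀ j)) ∈ Q := by
        rw [← IsPrime.vanishingIdeal_zeroLocus (K := K) Q, mem_vanishingIdeal_iff]
        intro x hx
        by_cases c1 : eval x h = 0
        · have : aeval x h = 0 := by simpa [coe_aeval_eq_eval] using c1
          rw [map_mul, this, zero_mul]
        · have : x = a₀ := by
            refine hA x a₀ c1 ha fun i => ?_
            have h2 : eval x (A i - C (eval a₀ (A i))) = 0 := hx _ (hAQ i)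
            rw [map_sub, eval_C] at h2
            exact sub_eq_zero.mp h2
          rw [this]
          simp
      exact (hQ.mem_or_mem h1).resolve_left hQh
    have hle : RingHom.ker (eval a₀ : P →+* K) ≤ Q := by
      intro p hp
      have h1 : ∀ p : P, p - C (eval a₀ p) ∈ Q := by
        intro p
        induction p using MvPolynomial.induction_on with
        | C c => simp
        | add p q hp hq =>
          have := Q.add_mem hp hq
          simp only [map_add] at this ⊢
          convert this using 1
          ring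
        | mul_X p j hp =>
          have h1 := Q.mul_mem_left p (hXQ j)
          have h2 := Q.mul_mem_left (C (a₀ j)) hp
          have := Q.add_mem h1 h2
          simp only [map_mul, eval_X] at this ⊢
          convert this using 1
          ring
      have h2 := h1 p
      rw [RingHom.mem_ker] at hp
      rw [hp] at h2
      simpa using h2
    have hmax : (RingHom.ker (eval a₀ : P →+* K)).IsMaximal :=
      RingHom.ker_isMaximal_of_surjective _ fun c => ⟨C c, by simp⟩
    have hQe : RingHom.ker (eval a₀ : P →+* K) = Q := hmax.eq_of_le hQ.ne_top hle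
    have hqe : q.comap (algebraMap P S) = RingHom.ker (eval a₀ : P →+* K) := by
      ext p
      rw [Ideal.mem_comap, RingHom.mem_ker, RingHom.mem_ker, hev]
    apply (IsLocalization.orderEmbedding (Submonoid.powers h) S).injective
    change q'.comap (algebraMap P S) = q.comap (algebraMap P S)
    rw [hqe, hQe]
  obtain ⟨r, hr, hs⟩ := Reg.zmt φ hφi hft e hfr q hq
  refine ⟨r, ?_, ?_, ?_⟩
  · intro h0
    apply hr
    rw [RingHom.mem_ker, hφ, hev]
    rw [← h0]
    have h1 : (eval a₀).comp (bind₁ A).toRingHom = (eval fun i => eval a₀ (A i)) := by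
      apply MvPolynomial.ringHom_ext
      · intro c
        change eval a₀ (bind₁ A (C c)) = _
        rw [bind₁_C_right, eval_C, eval_C]
      · intro i
        change eval a₀ (bind₁ A (X i)) = _
        rw [bind₁_X_right, eval_X]
    exact congrFun (congrArg DFunLike.coe h1) r
  · intro u
    obtain ⟨m, a, hm⟩ := hs (algebraMap P S u)
    refine ⟨a, m, ?_⟩
    apply hSi
    rw [map_mul, map_pow, map_pow, mul_comm]
    exact hm
  · have hu : IsUnit (algebraMap P S h) := IsLocalization.Away.algebraMap_isUnit h
    obtain ⟨v, hv⟩ := hu.exists_right_inv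
    obtain ⟨m, a, hm⟩ := hs v
    refine ⟨a, m, ?_⟩
    apply hSi
    rw [map_mul, map_pow, map_pow, ← hφ, ← hφ, ← hm, mul_left_comm, ← mul_pow, hv, one_pow, mul_one]

theorem point (e : ℕ) (hA : Inj A h) (hh : h ≠ 0) (r w : MvPolynomial ι K) (k : ℕ)
    (hu : ∀ u : MvPolynomial ι K, ∃ (g : MvPolynomial ι K) (k : ℕ),
        u ^ p ^ e * (bind₁ A r) ^ k = bind₁ A g)
    (hw : h ^ p ^ e * bind₁ A w = (bind₁ A r) ^ k) (y : ι → K) (hy : eval y r ≠ 0) :
    ∃ a, eval a h ≠ 0 ∧ ∀ i, eval a (A i) = y i := by
  classical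
  have hbi := binj hA hh
  by_contra hcon
  push Not at hcon
  let J : Ideal (MvPolynomial ι K) := Ideal.span (Set.range fun i => A i - C (y i))
  have hJ : h ∈ J.radical := by
    rw [← vanishingIdeal_zeroLocus_eq_radical (K := K) J, mem_vanishingIdeal_iff]
    intro x hx
    by_contra h1
    obtain ⟨i, hi⟩ := hcon x (by simpa [coe_aeval_eq_eval] using h1)
    apply hi
    have h2 : eval x (A i - C (y i)) = 0 := hx _ (Ideal.subset_span ⟨i, rfl⟩)
    rw [map_sub, eval_C] at h2
    exact sub_eq_zero.mp h2
  obtain ⟨n, hn⟩ := hJ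
  have hpe : 0 < p ^ e := expChar_pow_pos K p e
  have key : ∀ u ∈ J, ∃ (g : MvPolynomial ι K) (k : ℕ), eval y g = 0 ∧
      u ^ p ^ e * (bind₁ A r) ^ k = bind₁ A g := by
    intro u hu'
    refine Submodule.span_induction ?_ ?_ ?_ ?_ hu'
    · rintro _ ⟨i, rfl⟩
      refine ⟨(X i - C (y i)) ^ p ^ e, 0, ?_, by simp⟩
      rw [map_pow, map_sub, eval_X, eval_C, sub_self, zero_pow hpe.ne']
    · refine ⟨0, 0, by simp, ?_⟩
      rw [zero_pow hpe.ne', zero_mul, map_zero]
    · rintro u v _ _ ⟨g, k, hg, h1⟩ ⟨g', k', hg', h2⟩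
      refine ⟨g * r ^ k' + g' * r ^ k, k + k', by simp [hg, hg'], ?_⟩
      rw [map_add, map_mul, map_mul, ← h1, ← h2, map_pow, map_pow, add_pow_expChar_pow]
      ring
    · rintro s u _ ⟨g, k, hg, h1⟩
      obtain ⟨g', k', h2⟩ := hu s
      refine ⟨g' * g, k' + k, by simp [hg], ?_⟩
      rw [map_mul, ← h1, ← h2, smul_eq_mul, mul_pow]
      ring
  obtain ⟨g, l, hg, hgl⟩ := key _ hn
  have h1 : bind₁ A (r ^ (k * n + l)) = bind₁ A (g * w ^ n) := by
    rw [map_mul, ← hgl, map_pow, map_pow, pow_add, pow_mul, ← hw]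
    ring
  have h2 := congrArg (eval y) (hbi h1)
  rw [map_pow, map_mul, hg, zero_mul] at h2
  exact pow_ne_zero _ hy h2

end

end Reg

theorem regular : LRegular := by
  intro K _ _ ι _ A h hh hA
  obtain ⟨p, hp⟩ := ExpChar.exists K
  obtain ⟨n, hn⟩ := Reg.frac p hA hh
  refine ⟨Reg.binj hA hh, p ^ n, expChar_pow_pos K p n, fun a₀ ha => ?_⟩
  obtain ⟨r, hr, hu, w, k, hw⟩ := Reg.main hA (p ^ n) hn a₀ ha
  exact ⟨r, hr, hu, fun y hy => Reg.point (p := p) n hA hh r w k hu hw y hy⟩

end Pool.Agent.H97H
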