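import Pool.Agent.H97F.Slope
import Pool.Agent.H97F.Descent
import Pool.Agent.H97F.Graph
import Pool.Agent.H97F.Count
import Pool.Agent.H97G.Cyc
import Pool.Agent.H97G.LA
import Pool.Agent.H97G.LB1
import Pool.Agent.H97G.LB2
import Pool.Agent.H97G.LB3
import Pool.Agent.H97G.LC2
import Pool.Agent.H97G.LC3
import Pool.Agent.H97G.LCW
import Pool.Agent.H97G.LChart
import Pool.Agent.H97G.LCop
import Pool.Agent.H97G.LDown
import Pool.Agent.H97G.UPath
import Pool.Agent.H97H.Asm
import Pool.Agent.H97H.LDec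
import Pool.Agent.H97H.LFin
import Pool.Agent.H97H.LPure
import Pool.Agent.H97H.LRk
import Pool.Agent.H97H.LTwin
import Pool.Agent.H97H.LZ
import Pool.Agent.H97H.Limit
import Pool.Agent.H97H.Numbers
import Pool.Agent.H97H.Regular

/-!
# The main theorem, in arbitrary characteristic
-/

set_option autoImplicit false

namespace Pool.Agent.H97H

open Pool.Agent.H97F Pool.Agent.H97G

theorem main_flows : LFlows := flows regular slope (descent unique) numbers

theorem main_closed : LClosed := by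
  intro K _ _ k hk h2 h3 h5 A
  by_contra hcon
  obtain ⟨S, hS⟩ := graph_sys unique K k (by omega) A (fun j hj1 hj2 h => hcon ⟨j, hj1, hj2, h⟩)
  have := main_flows K (k + 1) S (by omega) hS
  omega

theorem pieces : Pieces where
  cyc := lcyc
  two := ltwo
  a := la ltwo
  b1 := lb1 lu2 lu3 ltwo
  b2 := lb2 lu1 lu2 lu3 ltwo
  b3 := lb3 lu1 lu2 lu3 ltwo
  b4 := lb4 lu2
  c2 := lc2 ltwo
  c3 := lc3
  big := lbig
  rk := lrk
  pure := lpure
  cop := lcop
  z := lz
  twin := lTwin
  dec := lDec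
  down := ldown
  chart := lchart
  cw := lcw
  closed := main_closed

theorem main_all : LMain := main pieces

/-- algebraically closed fields -/
theorem closed_all (k : ℕ) (hk : 4 ≤ k) (hk5 : k ≠ 5) (K : Type) [Field K] [IsAlgClosed K]
    (A : ADG k K) : (SimpleGraph.cycleGraph (2 * k)).IsContained A.graph ∨
      (Odd k ∧ ∀ ℓ : ℕ, (thetaGraph (k - 1) ℓ).IsContained A.graph) := by
  rcases main_all K k hk hk5 A with h | ⟨h1, h2⟩
  · exact Or.inl ((lcyc _ _ _ (by omega)).1 h)
  · exact Or.inr ⟨h1, fun ℓ => ltheta _ _ _ _ (by omega) (h2 ℓ)⟩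

theorem cut_deg {k D : ℕ} {K : Type} [Field K] (A : ADG k K)
    (hA : ∀ i : Fin k, 0 < (i : ℕ) → (A.f i).totalDegree ≤ D) (i : Fin k) :
    ((Fin9.cut A).f i).totalDegree ≤ D := by
  unfold Fin9.cut
  simp only
  split_ifs with hi
  · exact hA i hi
  · rw [MvPolynomial.totalDegree_zero]
    exact Nat.zero_le _

/-- finite fields -/
theorem finite_all (k : ℕ) (hk : 4 ≤ k) (hk5 : k ≠ 5) (D ℓ : ℕ) : ∃ M : ℕ, 0 < M ∧
    ∀ (K : Type) [Field K] [Finite K] (A : ADG k K),
      (∀ i : Fin k, 0 < (i : ℕ) → (A.f i).totalDegree ≤ D) →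
      ∀ (L : Type) [Field L] [Finite L] [Algebra K L], M ∣ Module.finrank K L →
        (SimpleGraph.cycleGraph (2 * k)).IsContained (A.map (algebraMap K L)).graph ∨
        (Odd k ∧ (thetaGraph (k - 1) ℓ).IsContained (A.map (algebraMap K L)).graph) := by
  by_cases hodd : Odd k
  · obtain ⟨M, hM, h⟩ := lfin (Fin (2 * k)) (Bool ⊕ (Fin ℓ × Fin (k - 1 - 1)))
      (SimpleGraph.cycleGraph (2 * k)) (thetaGraph (k - 1) ℓ) k (fun K _ _ A => by
        rcases closed_all k hk hk5 K A with h | h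
        · exact Or.inl h
        · exact Or.inr (h.2 ℓ)) D
    refine ⟨M, hM, fun K _ _ A hA L _ _ _ hL => ?_⟩
    have h' := h K (Fin9.cut A) (cut_deg A hA) L hL
    rw [Fin9.cut_map, Fin9.cut_graph] at h'
    rcases h' with h' | h'
    · exact Or.inl h'
    · exact Or.inr ⟨hodd, h'⟩
  · obtain ⟨M, hM, h⟩ := lfin (Fin (2 * k)) (Fin (2 * k))
      (SimpleGraph.cycleGraph (2 * k)) (SimpleGraph.cycleGraph (2 * k)) k (fun K _ _ A => by
        rcases closed_all k hk hk5 K A with h | h
        · exact Or.inl h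
        · exact absurd h.1 hodd) D
    refine ⟨M, hM, fun K _ _ A hA L _ _ _ hL => ?_⟩
    have h' := h K (Fin9.cut A) (cut_deg A hA) L hL
    rw [Fin9.cut_map, Fin9.cut_graph] at h'
    rcases h' with h' | h'
    · exact Or.inl h'
    · exact Or.inl h'

end Pool.Agent.H97H
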